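import Pool.Agent.W80.GD.Pair
import Pool.Agent.W822.GA.Momp

/-!
Project GD (helper80): the averaging recursion of the main frequency, and its consequence for the
weights of the two types.
-/

set_option autoImplicit false

namespace Pool.Agent.W80.GD

open Finset Filter
open Pool.Agent.H376R2.MR
open Pool.Agent.W78.GA

variable {t c : ℤ}

lemma PE_zero (M : ℕ → Prop) (ϖ : ℕ → Qd t c) (H v : ℕ) :
    PE M ϖ H v 0 = -((mE M H v : ℝ) : ℂ) := by
  unfold PE mE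
  rw [if_pos (by decide)]
  congr 1
  push_cast
  exact Finset.sum_congr rfl fun m _ => by rw [ps_zero]

/-- the main frequency at one scale is an average over smaller scales -/
theorem rec_of (hD : t ^ 2 < 4 * c) {b : ℂ} (hb : ‖b‖ = 1) {δ : ℝ} (hδ : 0 < δ) :
    ∃ (s : Finset ℕ) (ω lam : ℕ → ℝ) (R : ℝ), 1 ≤ R ∧ (∀ v ∈ s, 0 ≤ ω v) ∧ ∑ v ∈ s, ω v = 1 ∧
      (∀ v ∈ s, 1 / R ≤ lam v ∧ lam v ≤ 1) ∧ ∃ Y₀ : ℝ, 1 ≤ Y₀ ∧ ∀ Y : ℝ, Y₀ ≤ Y →
        ‖GGg (gb b : Qd t c → ℂ) Y 0 -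
          b ^ 2 * ∑ v ∈ s, (ω v : ℂ) * GGg (gb b : Qd t c → ℂ) (Y * lam v) 0‖ ≤ δ := by
  classical
  obtain ⟨Ap, Bp, M, E, ρ, ϖ, hE⟩ := Pool.Agent.W573.GA.ele hD
  obtain ⟨C, hC, hdec⟩ := dec_gb hD hb (b ^ 2)
    (fun n => b ^ (2 * (ArithmeticFunction.cardFactors n : ℤ) - 2)) Ap Bp M E ρ ϖ hE
    (inv_gb hD hE hb)
  obtain ⟨C', hC', hcard⟩ := Pool.Agent.W822.GA.card_ball_le (lat_all hD)
  obtain ⟨c₀, hc₀, Cr, hrich⟩ := hE.rich
  set B : ℝ := C' * Real.exp 2 * C with hB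
  have he2 : 0 < Real.exp 2 := Real.exp_pos 2
  have he21 : 1 ≤ Real.exp 2 := Real.one_le_exp (by norm_num)
  have hB0 : 0 < B := by positivity
  obtain ⟨H, hH⟩ := exists_nat_ge (2 * B / δ ^ 2 + 1)
  have hH1R : (1 : ℝ) ≤ H := by
    have : 0 ≤ 2 * B / δ ^ 2 := by positivity
    linarith
  have hH1 : 1 ≤ H := by exact_mod_cast hH1R
  have hH0 : (0 : ℝ) < H := by linarith
  set Wt₀ : ℝ := 2 * B / δ ^ 2 + 1 with hWt
  have hWt0 : 0 ≤ 2 * B / δ ^ 2 := by positivity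
  obtain ⟨v₁, hv₁⟩ := exists_nat_ge (H * Real.exp ((Wt₀ + |Cr|) / c₀))
  have hexp1 : 1 ≤ Real.exp ((Wt₀ + |Cr|) / c₀) := Real.one_le_exp (by positivity)
  have hHv : H ≤ v₁ := by
    have : (H : ℝ) ≤ v₁ := le_trans (le_mul_of_one_le_right hH0.le hexp1) hv₁
    exact_mod_cast this
  have hW : Wt₀ ≤ ∑ v ∈ Ico H v₁, mE M H v := by
    have h1 := hrich H H v₁ hH1 le_rfl hHv
    have h2 : (Wt₀ + |Cr|) / c₀ ≤ Real.log ((v₁ : ℝ) / H) := by
      rw [Real.le_log_iff_exp_le (by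
        have : (0 : ℝ) < v₁ := lt_of_lt_of_le hH0 (by exact_mod_cast hHv)
        positivity), le_div_iff₀ hH0]
      linarith
    have h3 : Wt₀ + |Cr| ≤ c₀ * Real.log ((v₁ : ℝ) / H) := by
      rw [div_le_iff₀ hc₀] at h2
      linarith
    have h4 := le_abs_self Cr
    linarith
  set W : ℝ := ∑ v ∈ Ico H v₁, mE M H v with hWdef
  have hW1 : 1 ≤ W := by linarith
  have hW0 : 0 < W := by linarith
  have hWc : (W : ℂ) ≠ 0 := by exact_mod_cast hW0.ne'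
  have hmE : ∀ v, 0 ≤ mE M H v := by
    intro v
    unfold mE
    exact sum_nonneg fun p _ => by positivity
  refine ⟨Ico H v₁, fun v => mE M H v / W, fun v => Real.exp (-((v : ℝ) / H)),
    Real.exp ((v₁ : ℝ) / H), Real.one_le_exp (by positivity), ?_, ?_, ?_,
    Real.exp (4 * (v₁ : ℝ) / H), Real.one_le_exp (by positivity), ?_⟩
  · intro v _
    exact div_nonneg (hmE v) hW0.le
  · rw [← Finset.sum_div, ← hWdef, div_self hW0.ne']
  · intro v hv
    rw [mem_Ico] at hv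
    constructor
    · rw [one_div, ← Real.exp_neg]
      apply Real.exp_le_exp.2
      apply neg_le_neg
      apply div_le_div_of_nonneg_right _ hH0.le
      exact_mod_cast hv.2.le
    · rw [← Real.exp_zero]
      apply Real.exp_le_exp.2
      rw [neg_nonpos]
      positivity
  · intro Y hY
    obtain ⟨s, f, hs, hG, hf⟩ := hdec H H v₁ hH1 le_rfl hW1 Y hY
    have hY1 : 1 ≤ Y := (Real.one_le_exp (by positivity)).trans hY
    have h1 := hG 0 (by decide)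
    have h2 : -(1 / (W : ℂ)) * ∑ v ∈ Ico H v₁, (b ^ 2 * PE M ϖ H v 0) *
        GGg (gb b : Qd t c → ℂ) (Y * Real.exp (-((v : ℝ) / H))) 0 =
        b ^ 2 * ∑ v ∈ Ico H v₁, ((mE M H v / W : ℝ) : ℂ) *
          GGg (gb b : Qd t c → ℂ) (Y * Real.exp (-((v : ℝ) / H))) 0 := by
      rw [Finset.mul_sum, Finset.mul_sum]
      refine Finset.sum_congr rfl fun v _ => ?_
      rw [PE_zero]
      push_cast
      field_simp
    rw [h2] at h1
    rw [h1, add_sub_cancel_left]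
    -- the error term
    have h3 : ‖DPG s f 0‖ ≤ ∑ z ∈ s, ‖f z‖ := by
      unfold DPG
      refine (norm_sum_le _ _).trans (Finset.sum_le_sum fun z _ => ?_)
      rw [ps_zero, mul_one]
    have h4 : (∑ z ∈ s, ‖f z‖) ^ 2 ≤ (s.card : ℝ) * ∑ z ∈ s, ‖f z‖ ^ 2 :=
      sq_sum_le_card_mul_sum_sq
    have hscard : (s.card : ℝ) ≤ C' * (Real.exp 2 * Y) := by
      have hsub : s ⊆ ball t c (Real.exp 2 * Y) := by
        intro z hz
        have h5 : z ∈ pball t c (Real.exp 2 * Y) := (mem_pball hD).2 (hs z hz)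
        unfold pball at h5
        exact (mem_filter.1 h5).1
      have h6 : (s.card : ℝ) ≤ ((ball t c (Real.exp 2 * Y)).card : ℝ) := by
        exact_mod_cast card_le_card hsub
      exact h6.trans (hcard _ (by nlinarith))
    have hf0 : 0 ≤ ∑ z ∈ s, ‖f z‖ ^ 2 := sum_nonneg fun _ _ => by positivity
    have h5 : ‖DPG s f 0‖ ^ 2 ≤ B * (1 / W + 1 / (H : ℝ) ^ 2) := by
      calc ‖DPG s f 0‖ ^ 2 ≤ (∑ z ∈ s, ‖f z‖) ^ 2 := pow_le_pow_left₀ (norm_nonneg _) h3 2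
        _ ≤ (s.card : ℝ) * ∑ z ∈ s, ‖f z‖ ^ 2 := h4
        _ ≤ C' * (Real.exp 2 * Y) * ∑ z ∈ s, ‖f z‖ ^ 2 := mul_le_mul_of_nonneg_right hscard hf0
        _ = C' * Real.exp 2 * (Y * ∑ z ∈ s, ‖f z‖ ^ 2) := by ring
        _ ≤ C' * Real.exp 2 * (C * (1 / W + 1 / (H : ℝ) ^ 2)) :=
            mul_le_mul_of_nonneg_left hf (by positivity)
        _ = B * (1 / W + 1 / (H : ℝ) ^ 2) := by rw [hB]; ring
    have h6 : B * (1 / W) ≤ δ ^ 2 / 2 := by
      rw [mul_one_div, div_le_iff₀ hW0]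
      have : δ ^ 2 / 2 * (2 * B / δ ^ 2) = B := by field_simp
      have h7 : δ ^ 2 / 2 * (2 * B / δ ^ 2) ≤ δ ^ 2 / 2 * W :=
        mul_le_mul_of_nonneg_left (by linarith) (by positivity)
      linarith
    have h7 : B * (1 / (H : ℝ) ^ 2) ≤ δ ^ 2 / 2 := by
      rw [mul_one_div, div_le_iff₀ (by positivity)]
      have e1 : δ ^ 2 / 2 * (2 * B / δ ^ 2) = B := by field_simp
      have e2 : 2 * B / δ ^ 2 ≤ (H : ℝ) ^ 2 := by nlinarith
      have e3 : δ ^ 2 / 2 * (2 * B / δ ^ 2) ≤ δ ^ 2 / 2 * (H : ℝ) ^ 2 :=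
        mul_le_mul_of_nonneg_left e2 (by positivity)
      linarith
    have h8 : ‖DPG s f 0‖ ^ 2 ≤ δ ^ 2 := by
      refine h5.trans ?_
      rw [mul_add]
      linarith
    exact (abs_le_of_sq_le_sq' h8 hδ.le).2

/-- iteration of the recursion -/
theorem iter_of {G : ℝ → ℂ} {β κ : ℂ} (hβ : ‖β‖ = 1) (hκ : ‖κ‖ = 1) {s : Finset ℕ}
    {ω lam : ℕ → ℝ} {R δ δ₁ Y₀ A B : ℝ} (hR : 1 ≤ R) (hω : ∀ v ∈ s, 0 ≤ ω v)
    (hω1 : ∑ v ∈ s, ω v = 1) (hlam : ∀ v ∈ s, 1 / R ≤ lam v ∧ lam v ≤ 1)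
    (hrec : ∀ Y : ℝ, Y₀ ≤ Y → ‖G Y - β * ∑ v ∈ s, (ω v : ℂ) * G (Y * lam v)‖ ≤ δ)
    (hA0 : 0 < A) (hA : Y₀ ≤ A) (hG : ∀ Y : ℝ, A ≤ Y → Y ≤ B → -δ₁ ≤ (κ * G Y).re) :
    ∀ (j : ℕ) (Y : ℝ), A * R ^ j ≤ Y → Y ≤ B →
      -δ₁ - j * δ ≤ (κ * (β⁻¹ ^ j * G Y)).re := by
  have hβ0 : β ≠ 0 := by rintro rfl; rw [norm_zero] at hβ; norm_num at hβ
  have hR0 : 0 < R := by linarith
  intro j
  induction j with
  | zero =>
    intro Y h1 h2
    simp only [pow_zero, mul_one] at h1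
    simpa using hG Y h1 h2
  | succ j ih =>
    intro Y h1 h2
    have hRj : (1 : ℝ) ≤ R ^ (j + 1) := one_le_pow₀ hR
    have hYA : A ≤ Y := by nlinarith
    have hY0 : 0 < Y := by linarith
    set err := G Y - β * ∑ v ∈ s, (ω v : ℂ) * G (Y * lam v) with herr
    have herr' : ‖err‖ ≤ δ := hrec Y (hA.trans hYA)
    have e1 : κ * (β⁻¹ ^ (j + 1) * G Y) =
        ∑ v ∈ s, (ω v : ℂ) * (κ * (β⁻¹ ^ j * G (Y * lam v))) + κ * β⁻¹ ^ (j + 1) * err := by
      have e2 : G Y = β * ∑ v ∈ s, (ω v : ℂ) * G (Y * lam v) + err := by rw [herr]; ring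
      have e3 : κ * (β⁻¹ ^ (j + 1) * G Y) = κ * β⁻¹ ^ j * (β⁻¹ * β) *
          ∑ v ∈ s, (ω v : ℂ) * G (Y * lam v) + κ * β⁻¹ ^ (j + 1) * err := by
        conv_lhs => rw [e2]
        rw [pow_succ]
        ring
      rw [e3, inv_mul_cancel₀ hβ0, mul_one, Finset.mul_sum]
      congr 1
      exact Finset.sum_congr rfl fun v _ => by ring
    rw [e1, Complex.add_re, Complex.re_sum]
    have h3 : -δ₁ - j * δ ≤ ∑ v ∈ s, ((ω v : ℂ) * (κ * (β⁻¹ ^ j * G (Y * lam v)))).re := by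
      calc -δ₁ - j * δ = ∑ v ∈ s, ω v * (-δ₁ - j * δ) := by
            rw [← Finset.sum_mul, hω1, one_mul]
        _ ≤ _ := by
            refine Finset.sum_le_sum fun v hv => ?_
            rw [Complex.re_ofReal_mul]
            apply mul_le_mul_of_nonneg_left _ (hω v hv)
            obtain ⟨l1, l2⟩ := hlam v hv
            apply ih
            · rw [pow_succ] at h1
              have h4 : A * R ^ j * R ≤ Y := by linarith
              rw [div_le_iff₀ hR0] at l1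
              have h5 : A * R ^ j * 1 ≤ A * R ^ j * (lam v * R) :=
                mul_le_mul_of_nonneg_left l1 (by positivity)
              have h6 : 0 ≤ lam v := by
                by_contra hcon
                push Not at hcon
                have := mul_neg_of_neg_of_pos hcon hR0
                linarith
              calc A * R ^ j = A * R ^ j * 1 := by ring
                _ ≤ A * R ^ j * (lam v * R) := h5
                _ = (A * R ^ j * R) * lam v := by ring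
                _ ≤ Y * lam v := mul_le_mul_of_nonneg_right h4 h6
            · calc Y * lam v ≤ Y * 1 := mul_le_mul_of_nonneg_left l2 hY0.le
                _ = Y := mul_one Y
                _ ≤ B := h2
    have h4 : -δ ≤ (κ * β⁻¹ ^ (j + 1) * err).re := by
      have h5 : |(κ * β⁻¹ ^ (j + 1) * err).re| ≤ δ := by
        refine (Complex.abs_re_le_norm _).trans ?_
        rw [norm_mul, norm_mul, norm_pow, norm_inv, hβ, hκ]
        simpa using herr'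
      exact (abs_le.1 h5).1
    push_cast
    linarith

/-- if the real part of the rotated main frequency is almost nonnegative on a long range of
scales, then it is small at the top scales -/
theorem top_small (hD : t ^ 2 < 4 * c) {b : ℂ} (hb : ‖b‖ = 1) {q : ℕ} (hq : 1 ≤ q)
    (hbq : (b ^ 2) ^ q = 1) (hb2 : b ^ 2 ≠ 1) {R₁ : ℝ} (hR₁ : 1 ≤ R₁) {η : ℝ} (hη : 0 < η) :
    ∃ R : ℝ, R₁ ≤ R ∧ ∃ δ : ℝ, 0 < δ ∧ δ ≤ η ∧ ∃ Y₀ : ℝ, 1 ≤ Y₀ ∧ ∀ Y : ℝ, Y₀ ≤ Y →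
      ∀ κ : ℂ, ‖κ‖ = 1 → (∀ Y' : ℝ, Y / R ≤ Y' → Y' ≤ Y →
        -δ ≤ (κ * GGg (gb b : Qd t c → ℂ) Y' 0).re) →
      ∀ Y' : ℝ, Y / R₁ ≤ Y' → Y' ≤ Y → (κ * GGg (gb b : Qd t c → ℂ) Y' 0).re ≤ η := by
  have hqR : (1 : ℝ) ≤ q := by exact_mod_cast hq
  have hq0 : (0 : ℝ) < q := by linarith
  obtain ⟨s, ω, lam, R', hR', hω, hω1, hlam, Y₀, hY₀, hrec⟩ :=
    rec_of hD hb (δ := η / (2 * q ^ 2)) (by positivity)
  have hR1 : 1 ≤ R₁ * R' ^ q := by
    have := one_le_pow₀ hR' (n := q)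
    nlinarith
  have hRq := one_le_pow₀ hR' (n := q)
  refine ⟨R₁ * R' ^ q, by nlinarith, η / (2 * q), by positivity, ?_, R₁ * R' ^ q * Y₀, ?_, ?_⟩
  · rw [div_le_iff₀ (by positivity)]
    nlinarith
  · nlinarith
  intro Y hY κ hκ hG Y' h1 h2
  have hRR0 : 0 < R₁ * R' ^ q := by linarith
  have hYpos : 0 < Y := by nlinarith
  have hA0 : 0 < Y / (R₁ * R' ^ q) := by positivity
  have hA : Y₀ ≤ Y / (R₁ * R' ^ q) := by
    rw [le_div_iff₀ hRR0]
    linarith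
  have hβ : ‖b ^ 2‖ = 1 := by rw [norm_pow, hb, one_pow]
  have hβ0 : b ^ 2 ≠ 0 := by
    intro h
    rw [h, norm_zero] at hβ
    norm_num at hβ
  have hit := iter_of (G := fun Y => GGg (gb b : Qd t c → ℂ) Y 0) hβ hκ hR' hω hω1 hlam hrec hA0 hA hG
  have hgeom : ∑ j ∈ range q, ((b ^ 2)⁻¹) ^ j = 0 := by
    have h3 : ((b ^ 2)⁻¹) ^ q = 1 := by rw [inv_pow, hbq, inv_one]
    have h4 : (b ^ 2)⁻¹ ≠ 1 := by
      intro h
      apply hb2
      rw [inv_eq_one] at h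
      exact h
    rw [geom_sum_eq h4, h3]
    simp
  have hsum : ∑ j ∈ range q, (κ * ((b ^ 2)⁻¹ ^ j * GGg (gb b : Qd t c → ℂ) Y' 0)).re = 0 := by
    rw [← Complex.re_sum]
    have : ∑ j ∈ range q, κ * ((b ^ 2)⁻¹ ^ j * GGg (gb b : Qd t c → ℂ) Y' 0) =
        κ * GGg (gb b : Qd t c → ℂ) Y' 0 * ∑ j ∈ range q, ((b ^ 2)⁻¹) ^ j := by
      rw [Finset.mul_sum]
      exact Finset.sum_congr rfl fun j _ => by ring
    rw [this, hgeom, mul_zero, Complex.zero_re]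
  have h0q : 0 ∈ range q := by rw [mem_range]; omega
  rw [← Finset.add_sum_erase _ _ h0q] at hsum
  have h3 : ∀ j ∈ (range q).erase 0, -(η / (2 * q)) - q * (η / (2 * q ^ 2)) ≤
      (κ * ((b ^ 2)⁻¹ ^ j * GGg (gb b : Qd t c → ℂ) Y' 0)).re := by
    intro j hj
    rw [mem_erase, mem_range] at hj
    have hjq : (j : ℝ) ≤ q := by exact_mod_cast hj.2.le
    have h4 := hit j Y' (by
      refine le_trans ?_ h1
      have h5 : R' ^ j ≤ R' ^ q := pow_le_pow_right₀ hR' hj.2.le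
      calc Y / (R₁ * R' ^ q) * R' ^ j ≤ Y / (R₁ * R' ^ q) * R' ^ q :=
            mul_le_mul_of_nonneg_left h5 hA0.le
        _ = Y / R₁ := by
            have : R' ^ q ≠ 0 := by positivity
            field_simp) h2
    refine le_trans ?_ h4
    have : (j : ℝ) * (η / (2 * q ^ 2)) ≤ q * (η / (2 * q ^ 2)) :=
      mul_le_mul_of_nonneg_right hjq (by positivity)
    linarith
  have h4 := Finset.sum_le_sum h3
  rw [Finset.sum_const, nsmul_eq_mul] at h4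
  have h5 : (((range q).erase 0).card : ℝ) ≤ q := by
    have : ((range q).erase 0).card ≤ q := by
      refine (card_erase_le).trans ?_
      rw [card_range]
    exact_mod_cast this
  have h6 : (((range q).erase 0).card : ℝ) * (η / (2 * q) + q * (η / (2 * q ^ 2))) ≤ η := by
    calc (((range q).erase 0).card : ℝ) * (η / (2 * q) + q * (η / (2 * q ^ 2))) ≤
        q * (η / (2 * q) + q * (η / (2 * q ^ 2))) :=
          mul_le_mul_of_nonneg_right h5 (by positivity)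
      _ = η := by field_simp; ring
  simp only [pow_zero, one_mul] at hsum
  have h7 : (((range q).erase 0).card : ℝ) * (-(η / (2 * q)) - q * (η / (2 * q ^ 2))) =
      -((((range q).erase 0).card : ℝ) * (η / (2 * q) + q * (η / (2 * q ^ 2)))) := by ring
  rw [h7] at h4
  linarith

/-! ### Back to the two types -/

lemma re_eq_Wt (κ : ℂ) (b : ℂ) (Y : ℝ) :
    (κ * GGg (gb b : Qd t c → ℂ) Y 0).re = Wt (fun z : Qd t c => (κ * gb b z).re) Y := by
  unfold GGg DPG Wt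
  rw [Finset.mul_sum, Complex.re_sum]
  refine Finset.sum_congr rfl fun z _ => ?_
  rw [ps_zero, mul_one, ← mul_assoc, mul_comm (κ * gb b z), Complex.re_ofReal_mul, mul_comm]

lemma Wt_nonneg {f : Qd t c → ℝ} (hf : ∀ z, 0 ≤ f z) (Y : ℝ) : 0 ≤ Wt f Y := by
  unfold Wt
  exact sum_nonneg fun z _ => mul_nonneg (hf z) (bg_nonneg _ _)

lemma Wt_mono {f g : Qd t c → ℝ} (hf : ∀ z, f z ≤ g z) (Y : ℝ) : Wt f Y ≤ Wt g Y := by
  unfold Wt
  exact sum_le_sum fun z _ => mul_le_mul_of_nonneg_right (hf z) (bg_nonneg _ _)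

lemma Wt_add (f g : Qd t c → ℝ) (Y : ℝ) : Wt (fun z => f z + g z) Y = Wt f Y + Wt g Y := by
  unfold Wt
  rw [← sum_add_distrib]
  exact sum_congr rfl fun z _ => by ring

lemma Wt_smul (a : ℝ) (f : Qd t c → ℝ) (Y : ℝ) : Wt (fun z => a * f z) Y = a * Wt f Y := by
  unfold Wt
  rw [mul_sum]
  exact sum_congr rfl fun z _ => by ring

lemma fP_nonneg (h : Qd t c → ℂ) (z : Qd t c) : 0 ≤ fP h z := by
  unfold fP; split_ifs <;> norm_num

lemma fN_nonneg (h : Qd t c → ℂ) (z : Qd t c) : 0 ≤ fN h z := by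
  unfold fN; split_ifs <;> norm_num

lemma re_ge {h : Qd t c → ℂ} (hh : Uf h) (z : Qd t c) : (-1) * fN h z ≤ (h z).re := by
  have h1 := Complex.abs_re_le_norm (h z)
  rw [hh.nb] at h1
  have h2 := (abs_le.1 h1).1
  unfold fN
  split_ifs with h3
  · linarith
  · push Not at h3
    linarith

/-- the real part dominates the indicator of positive real part -/
lemma re_dom {h : Qd t c → ℂ} (hh : Uf h) {ρ : ℝ} (hρ : ∀ z, 0 < (h z).re → ρ ≤ (h z).re)
    (z : Qd t c) : ρ * fP h z ≤ (h z).re + fN h z := by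
  have h1 := Complex.abs_re_le_norm (h z)
  rw [hh.nb] at h1
  have h2 := (abs_le.1 h1).1
  unfold fP fN
  by_cases h3 : 0 < (h z).re
  · rw [if_pos h3, if_neg (by linarith)]
    have := hρ z h3
    linarith
  · rw [if_neg h3]
    split_ifs with h4
    · linarith
    · linarith

lemma uf_gb {b κ : ℂ} (hb : ‖b‖ = 1) (hκ : ‖κ‖ = 1) : Uf (fun z : Qd t c => κ * gb b z) := by
  constructor
  · intro z
    unfold gb
    rw [norm_mul, hκ, norm_pow, hb, one_pow, one_mul]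
  · intro z
    unfold gb Om
    rw [nm_neg]

lemma exists_rho {b : ℂ} {k : ℕ} (hk : 0 < k) (hbk : b ^ k = 1) (κ : ℂ) :
    ∃ ρ : ℝ, 0 < ρ ∧ ρ ≤ 1 ∧ ∀ z : Qd t c, (κ * gb b z).re ≠ 0 → ρ ≤ |(κ * gb b z).re| := by
  have h1 : ∀ m : ℕ, ∃ ρ : ℝ, 0 < ρ ∧ ρ ≤ 1 ∧ ∀ n < m, (κ * b ^ n).re ≠ 0 →
      ρ ≤ |(κ * b ^ n).re| := by
    intro m
    induction m with
    | zero => exact ⟨1, one_pos, le_rfl, fun n hn => absurd hn (Nat.not_lt_zero n)⟩
    | succ m ih =>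
      obtain ⟨ρ, h1, h2, h3⟩ := ih
      by_cases h0 : (κ * b ^ m).re = 0
      · refine ⟨ρ, h1, h2, fun n hn hne => ?_⟩
        rcases Nat.lt_succ_iff_lt_or_eq.1 hn with h | h
        · exact h3 n h hne
        · exact absurd (by rw [h]; exact h0) hne
      · refine ⟨min ρ |(κ * b ^ m).re|, lt_min h1 (abs_pos.2 h0), (min_le_left _ _).trans h2,
          fun n hn hne => ?_⟩
        rcases Nat.lt_succ_iff_lt_or_eq.1 hn with h | h
        · exact (min_le_left _ _).trans (h3 n h hne)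
        · rw [h]; exact min_le_right _ _
  obtain ⟨ρ, h2, h3, h4⟩ := h1 k
  refine ⟨ρ, h2, h3, fun z hz => ?_⟩
  have h5 : gb b z = b ^ (Om z % k) := by
    unfold gb
    conv_lhs => rw [← Nat.mod_add_div (Om z) k, pow_add, pow_mul, hbk, one_pow, mul_one]
  rw [h5] at hz ⊢
  exact h4 _ (Nat.mod_lt _ hk) hz

/-- few violating pairs: both types are rare at the top scales -/
theorem both_small (hD : t ^ 2 < 4 * c) (hS : S_SECT t c) {b κ : ℂ} (hb : ‖b‖ = 1)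
    (hκ : ‖κ‖ = 1) {k : ℕ} (hk : 0 < k) (hbk : b ^ k = 1) (hb2 : b ^ 2 ≠ 1) {R₁ : ℝ}
    (hR₁ : 1 ≤ R₁) {η : ℝ} (hη : 0 < η) :
    ∃ ε : ℝ, 0 < ε ∧ ∃ C₁ : ℝ, 1 ≤ C₁ ∧ ∃ Y₀ : ℝ, 1 ≤ Y₀ ∧ ∀ Y : ℝ, Y₀ ≤ Y →
      ((vio (fun z : Qd t c => κ * gb b z) (C₁ * Y)).card : ℝ) ≤ ε * Y → ∀ Y' : ℝ, Y / R₁ ≤ Y' →
      Y' ≤ Y → Wt (fP (fun z : Qd t c => κ * gb b z)) Y' +
        Wt (fN (fun z : Qd t c => κ * gb b z)) Y' ≤ η := by
  classical
  set h : Qd t c → ℂ := fun z => κ * gb b z with hh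
  have hU : Uf h := uf_gb hb hκ
  have hκ' : ‖-κ‖ = 1 := by rw [norm_neg, hκ]
  obtain ⟨ρ, hρ0, hρ1, hρ⟩ := exists_rho (t := t) (c := c) hk hbk κ
  have hper : ∀ n, b ^ (n + k) = b ^ n := by
    intro n
    rw [pow_add, hbk, mul_one]
  have hP : S_MRg (fun z : Qd t c => ((fP h z : ℝ) : ℂ)) := by
    have := mr_per hD hk (fun n => (((if 0 < (κ * b ^ n).re then 1 else 0 : ℝ)) : ℂ)) (by
      intro n
      rw [hper])
    exact this
  have hN : S_MRg (fun z : Qd t c => ((fN h z : ℝ) : ℂ)) := by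
    have := mr_per hD hk (fun n => (((if (κ * b ^ n).re < 0 then 1 else 0 : ℝ)) : ℂ)) (by
      intro n
      rw [hper])
    exact this
  obtain ⟨R, hR, δ, hδ, hδη, Y₀, hY₀, htop⟩ := top_small hD hb (q := k) hk (by
    rw [← pow_mul, mul_comm, pow_mul, hbk, one_pow]) hb2 hR₁ (η := ρ * η / 4) (by positivity)
  have hR1 : 1 ≤ R := hR₁.trans hR
  obtain ⟨ε, hε, C₁, hC₁, Y₁, hY₁, hpn⟩ := pn_le hD hS (lat_all hD) hU hP hN (η := δ ^ 2)
    (by positivity) hR1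
  refine ⟨ε, hε, C₁, hC₁, max Y₀ Y₁, hY₀.trans (le_max_left _ _), fun Y hY hvio Y' h1 h2 => ?_⟩
  have hYa : Y₀ ≤ Y := (le_max_left _ _).trans hY
  have hYb : Y₁ ≤ Y := (le_max_right _ _).trans hY
  have hY0 : 0 < Y := by linarith
  have hpn' := hpn Y hYb hvio
  have hδ4 : δ ≤ η / 4 := by
    refine hδη.trans ?_
    have : ρ * η ≤ 1 * η := mul_le_mul_of_nonneg_right hρ1 hη.le
    linarith
  have hsub : ∀ Y' : ℝ, Y / R₁ ≤ Y' → Y / R ≤ Y' := by
    intro Y' hY'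
    refine le_trans ?_ hY'
    exact div_le_div_of_nonneg_left hY0.le (by linarith) hR
  -- the two cases
  have key : ∀ κ' : ℂ, ‖κ'‖ = 1 → (∀ z : Qd t c, (κ' * gb b z).re ≠ 0 → ρ ≤ |(κ' * gb b z).re|) →
      (∀ Y' : ℝ, Y / R ≤ Y' → Y' ≤ Y → Wt (fN (fun z : Qd t c => κ' * gb b z)) Y' ≤ δ) →
      Wt (fP (fun z : Qd t c => κ' * gb b z)) Y' + Wt (fN (fun z : Qd t c => κ' * gb b z)) Y' ≤ η := by
    intro κ' hκ'1 hρ' hNs
    set h' : Qd t c → ℂ := fun z => κ' * gb b z with hh'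
    have hU' : Uf h' := uf_gb hb hκ'1
    have h3 := htop Y hYa κ' hκ'1 (by
      intro Y'' g1 g2
      rw [re_eq_Wt]
      have g3 := Wt_mono (fun z => re_ge hU' z) Y''
      rw [Wt_smul] at g3
      have g4 := hNs Y'' g1 g2
      change -δ ≤ Wt (fun z => (h' z).re) Y''
      linarith) Y' h1 h2
    rw [re_eq_Wt] at h3
    have h4 := Wt_mono (fun z => re_dom hU' (ρ := ρ) (by
      intro z hz
      have := hρ' z hz.ne'
      rwa [abs_of_pos hz] at this) z) Y'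
    rw [Wt_smul, Wt_add] at h4
    have h5 := hNs Y' (hsub Y' h1) h2
    have h6 : Wt (fun z => (h' z).re) Y' ≤ ρ * η / 4 := h3
    have h7 : ρ * Wt (fP h') Y' ≤ ρ * (η / 2) := by linarith
    have h8 := le_of_mul_le_mul_left h7 hρ0
    linarith
  by_cases hcase : ∀ Y' : ℝ, Y / R ≤ Y' → Y' ≤ Y → Wt (fN h) Y' ≤ δ
  · exact key κ hκ hρ hcase
  · push Not at hcase
    obtain ⟨Ys, g1, g2, g3⟩ := hcase
    have eP : (fP (fun z : Qd t c => (-κ) * gb b z)) = fN h := by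
      funext z
      unfold fP fN
      simp only [hh, neg_mul, Complex.neg_re, Left.neg_pos_iff]
    have eN : (fN (fun z : Qd t c => (-κ) * gb b z)) = fP h := by
      funext z
      unfold fP fN
      simp only [hh, neg_mul, Complex.neg_re, Left.neg_neg_iff]
    have h3 := key (-κ) hκ' (by
      intro z hz
      have e1 : ((-κ) * gb b z).re = -(κ * gb b z).re := by rw [neg_mul, Complex.neg_re]
      rw [e1, abs_neg]
      apply hρ
      rw [e1] at hz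
      exact fun h0 => hz (by rw [h0, neg_zero])) (by
      intro Y'' k1 k2
      rw [eN]
      by_contra hcon
      push Not at hcon
      have h4 := hpn' Y'' Ys k1 k2 g1 g2
      nlinarith)
    rw [eP, eN] at h3
    linarith

end Pool.Agent.W80.GD
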