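import Pool.Agent.W80.GD.Pair2
import Pool.Agent.W80.GD.Rec
import Pool.Agent.W240.GA.A0

/-!
Project GD (helper80): the averaging recursion for functions of the number of prime factors
modulo `k`, and a positive proportion of pairs with `Re ≤ 0`.
-/

set_option autoImplicit false

namespace Pool.Agent.W80.GD

open Finset Filter
open Pool.Agent.H376R2.MR
open Pool.Agent.W78.GA

variable {t c : ℤ}

/-- the recursion, simultaneously for finitely many unit numbers -/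
theorem rec_fin (hD : t ^ 2 < 4 * c) (bs : ℕ → ℂ) (hb : ∀ j, ‖bs j‖ = 1) (k : ℕ) {δ : ℝ}
    (hδ : 0 < δ) :
    ∃ (s : Finset ℕ) (ω lam : ℕ → ℝ) (R : ℝ), 1 ≤ R ∧ (∀ v ∈ s, 0 ≤ ω v) ∧ ∑ v ∈ s, ω v = 1 ∧
      (∀ v ∈ s, 1 / R ≤ lam v ∧ lam v ≤ 1) ∧ ∃ Y₀ : ℝ, 1 ≤ Y₀ ∧ ∀ Y : ℝ, Y₀ ≤ Y → ∀ j < k,
        ‖GGg (gb (bs j) : Qd t c → ℂ) Y 0 -
          bs j ^ 2 * ∑ v ∈ s, (ω v : ℂ) * GGg (gb (bs j) : Qd t c → ℂ) (Y * lam v) 0‖ ≤ δ := by
  classical
  obtain ⟨Ap, Bp, M, E, ρ, ϖ, hE⟩ := Pool.Agent.W573.GA.ele hD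
  have hdecj : ∀ j : ℕ, ∃ C : ℝ, 0 < C ∧
    ∀ H v₀ v₁ : ℕ, 1 ≤ H →
    H ≤ v₀ → 1 ≤ ∑ v ∈ Ico v₀ v₁, mE M H v → ∀ Y : ℝ, Real.exp (4 * (v₁ : ℝ) / H) ≤ Y →
    ∃ (s : Finset (Qd t c)) (f : Qd t c → ℂ), (∀ z ∈ s, prim z ∧ (nm z : ℝ) ≤ Real.exp 2 * Y) ∧
      (∀ k : ℤ, Even k → GGg (gb (bs j)) Y k = -(1 / ((∑ v ∈ Ico v₀ v₁, mE M H v : ℝ) : ℂ)) *
        ∑ v ∈ Ico v₀ v₁, (bs j ^ 2 * PE M ϖ H v k) *
          GGg (gb (bs j)) (Y * Real.exp (-((v : ℝ) / H))) k +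
        DPG s f k) ∧
      Y * ∑ z ∈ s, ‖f z‖ ^ 2 ≤ C * (1 / (∑ v ∈ Ico v₀ v₁, mE M H v) + 1 / (H : ℝ) ^ 2) :=
    fun j => dec_gb hD (hb j) (bs j ^ 2)
      (fun n => bs j ^ (2 * (ArithmeticFunction.cardFactors n : ℤ) - 2)) Ap Bp M E ρ ϖ hE
      (inv_gb hD hE (hb j))
  choose Cj hCj hdecj using hdecj
  set C : ℝ := ∑ j ∈ range (k + 1), Cj j with hCdef
  have hC : 0 < C := Finset.sum_pos (fun j _ => hCj j) ⟨0, by simp⟩
  have hCjC : ∀ j < k, Cj j ≤ C := by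
    intro j hj
    rw [hCdef]
    exact Finset.single_le_sum (f := Cj) (fun i _ => (hCj i).le) (mem_range.2 (by omega))
  obtain ⟨C', hC', hcard⟩ := Pool.Agent.W822.GA.card_ball_le (lat_all hD)
  obtain ⟨c₀, hc₀, Cr, hrich⟩ := hE.rich
  set B : ℝ := C' * Real.exp 2 * C with hB
  have he2 : 0 < Real.exp 2 := Real.exp_pos 2
  have he21 : 1 ≤ Real.exp 2 := Real.one_le_exp (by norm_num)
  have hB0 : 0 < B := by positivity
  obtain ⟨H, hH⟩ := exists_nat_ge (2 * B / δ ^ 2 + 1)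
  have hH1R : (1 : ℝ) ≤ H := by
    have : 0 ≤ 2 * B / δ ^ 2 := by positivity
    linarith
  have hH1 : 1 ≤ H := by exact_mod_cast hH1R
  have hH0 : (0 : ℝ) < H := by linarith
  set Wt₀ : ℝ := 2 * B / δ ^ 2 + 1 with hWt
  have hWt0 : 0 ≤ 2 * B / δ ^ 2 := by positivity
  obtain ⟨v₁, hv₁⟩ := exists_nat_ge (H * Real.exp ((Wt₀ + |Cr|) / c₀))
  have hexp1 : 1 ≤ Real.exp ((Wt₀ + |Cr|) / c₀) := Real.one_le_exp (by positivity)
  have hHv : H ≤ v₁ := by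
    have : (H : ℝ) ≤ v₁ := le_trans (le_mul_of_one_le_right hH0.le hexp1) hv₁
    exact_mod_cast this
  have hW : Wt₀ ≤ ∑ v ∈ Ico H v₁, mE M H v := by
    have h1 := hrich H H v₁ hH1 le_rfl hHv
    have h2 : (Wt₀ + |Cr|) / c₀ ≤ Real.log ((v₁ : ℝ) / H) := by
      rw [Real.le_log_iff_exp_le (by
        have : (0 : ℝ) < v₁ := lt_of_lt_of_le hH0 (by exact_mod_cast hHv)
        positivity), le_div_iff₀ hH0]
      linarith
    have h3 : Wt₀ + |Cr| ≤ c₀ * Real.log ((v₁ : ℝ) / H) := by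
      rw [div_le_iff₀ hc₀] at h2
      linarith
    have h4 := le_abs_self Cr
    linarith
  set W : ℝ := ∑ v ∈ Ico H v₁, mE M H v with hWdef
  have hW1 : 1 ≤ W := by linarith
  have hW0 : 0 < W := by linarith
  have hWc : (W : ℂ) ≠ 0 := by exact_mod_cast hW0.ne'
  have hmE : ∀ v, 0 ≤ mE M H v := by
    intro v
    unfold mE
    exact sum_nonneg fun p _ => by positivity
  refine ⟨Ico H v₁, fun v => mE M H v / W, fun v => Real.exp (-((v : ℝ) / H)),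
    Real.exp ((v₁ : ℝ) / H), Real.one_le_exp (by positivity), ?_, ?_, ?_,
    Real.exp (4 * (v₁ : ℝ) / H), Real.one_le_exp (by positivity), ?_⟩
  · intro v _
    exact div_nonneg (hmE v) hW0.le
  · rw [← Finset.sum_div, ← hWdef, div_self hW0.ne']
  · intro v hv
    rw [mem_Ico] at hv
    constructor
    · rw [one_div, ← Real.exp_neg]
      apply Real.exp_le_exp.2
      apply neg_le_neg
      apply div_le_div_of_nonneg_right _ hH0.le
      exact_mod_cast hv.2.le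
    · rw [← Real.exp_zero]
      apply Real.exp_le_exp.2
      rw [neg_nonpos]
      positivity
  · intro Y hY j hj
    obtain ⟨s, f, hs, hG, hf⟩ := hdecj j H H v₁ hH1 le_rfl hW1 Y hY
    have hY1 : 1 ≤ Y := (Real.one_le_exp (by positivity)).trans hY
    have h1 := hG 0 (by decide)
    have h2 : -(1 / (W : ℂ)) * ∑ v ∈ Ico H v₁, (bs j ^ 2 * PE M ϖ H v 0) *
        GGg (gb (bs j) : Qd t c → ℂ) (Y * Real.exp (-((v : ℝ) / H))) 0 =
        bs j ^ 2 * ∑ v ∈ Ico H v₁, ((mE M H v / W : ℝ) : ℂ) *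
          GGg (gb (bs j) : Qd t c → ℂ) (Y * Real.exp (-((v : ℝ) / H))) 0 := by
      rw [Finset.mul_sum, Finset.mul_sum]
      refine Finset.sum_congr rfl fun v _ => ?_
      rw [PE_zero]
      push_cast
      field_simp
    rw [h2] at h1
    rw [h1, add_sub_cancel_left]
    -- the error term
    have h3 : ‖DPG s f 0‖ ≤ ∑ z ∈ s, ‖f z‖ := by
      unfold DPG
      refine (norm_sum_le _ _).trans (Finset.sum_le_sum fun z _ => ?_)
      rw [ps_zero, mul_one]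
    have h4 : (∑ z ∈ s, ‖f z‖) ^ 2 ≤ (s.card : ℝ) * ∑ z ∈ s, ‖f z‖ ^ 2 :=
      sq_sum_le_card_mul_sum_sq
    have hscard : (s.card : ℝ) ≤ C' * (Real.exp 2 * Y) := by
      have hsub : s ⊆ ball t c (Real.exp 2 * Y) := by
        intro z hz
        have h5 : z ∈ pball t c (Real.exp 2 * Y) := (mem_pball hD).2 (hs z hz)
        unfold pball at h5
        exact (mem_filter.1 h5).1
      have h6 : (s.card : ℝ) ≤ ((ball t c (Real.exp 2 * Y)).card : ℝ) := by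
        exact_mod_cast card_le_card hsub
      exact h6.trans (hcard _ (by nlinarith))
    have hf0 : 0 ≤ ∑ z ∈ s, ‖f z‖ ^ 2 := sum_nonneg fun _ _ => by positivity
    have hWH : 0 ≤ 1 / W + 1 / (H : ℝ) ^ 2 := by positivity
    have h5 : ‖DPG s f 0‖ ^ 2 ≤ B * (1 / W + 1 / (H : ℝ) ^ 2) := by
      calc ‖DPG s f 0‖ ^ 2 ≤ (∑ z ∈ s, ‖f z‖) ^ 2 := pow_le_pow_left₀ (norm_nonneg _) h3 2
        _ ≤ (s.card : ℝ) * ∑ z ∈ s, ‖f z‖ ^ 2 := h4
        _ ≤ C' * (Real.exp 2 * Y) * ∑ z ∈ s, ‖f z‖ ^ 2 := mul_le_mul_of_nonneg_right hscard hf0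
        _ = C' * Real.exp 2 * (Y * ∑ z ∈ s, ‖f z‖ ^ 2) := by ring
        _ ≤ C' * Real.exp 2 * (Cj j * (1 / W + 1 / (H : ℝ) ^ 2)) :=
            mul_le_mul_of_nonneg_left hf (by positivity)
        _ ≤ C' * Real.exp 2 * (C * (1 / W + 1 / (H : ℝ) ^ 2)) := by
            apply mul_le_mul_of_nonneg_left _ (by positivity)
            exact mul_le_mul_of_nonneg_right (hCjC j hj) hWH
        _ = B * (1 / W + 1 / (H : ℝ) ^ 2) := by rw [hB]; ring
    have h6 : B * (1 / W) ≤ δ ^ 2 / 2 := by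
      rw [mul_one_div, div_le_iff₀ hW0]
      have : δ ^ 2 / 2 * (2 * B / δ ^ 2) = B := by field_simp
      have h7 : δ ^ 2 / 2 * (2 * B / δ ^ 2) ≤ δ ^ 2 / 2 * W :=
        mul_le_mul_of_nonneg_left (by linarith) (by positivity)
      linarith
    have h7 : B * (1 / (H : ℝ) ^ 2) ≤ δ ^ 2 / 2 := by
      rw [mul_one_div, div_le_iff₀ (by positivity)]
      have e1 : δ ^ 2 / 2 * (2 * B / δ ^ 2) = B := by field_simp
      have e2 : 2 * B / δ ^ 2 ≤ (H : ℝ) ^ 2 := by nlinarith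
      have e3 : δ ^ 2 / 2 * (2 * B / δ ^ 2) ≤ δ ^ 2 / 2 * (H : ℝ) ^ 2 :=
        mul_le_mul_of_nonneg_left e2 (by positivity)
      linarith
    have h8 : ‖DPG s f 0‖ ^ 2 ≤ δ ^ 2 := by
      refine h5.trans ?_
      rw [mul_add]
      linarith
    exact (abs_le_of_sq_le_sq' h8 hδ.le).2

/-- the weight of a function of the number of prime factors of the norm -/
noncomputable def Wf (t c : ℤ) (F : ℕ → ℝ) (Y : ℝ) : ℝ := Wt (fun z : Qd t c => F (Om z)) Y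

/-- the recursion for all real functions of `Ω` modulo `k` -/
theorem rec_per (hD : t ^ 2 < 4 * c) {k : ℕ} (hk : 0 < k) (F : ℕ → ℝ)
    (hF : ∀ n, F (n + k) = F n) {δ : ℝ} (hδ : 0 < δ) :
    ∃ (s : Finset ℕ) (ω lam : ℕ → ℝ) (R : ℝ), 1 ≤ R ∧ (∀ v ∈ s, 0 ≤ ω v) ∧ ∑ v ∈ s, ω v = 1 ∧
      (∀ v ∈ s, 1 / R ≤ lam v ∧ lam v ≤ 1) ∧ ∃ Y₀ : ℝ, 1 ≤ Y₀ ∧ ∀ Y : ℝ, Y₀ ≤ Y → ∀ i : ℕ,
        Wf t c (fun n => F (n + 2 * i)) Y ≤
          ∑ v ∈ s, ω v * Wf t c (fun n => F (n + 2 * (i + 1))) (Y * lam v) + δ := by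
  classical
  obtain ⟨a, ζ, hζ, hFo⟩ := fourier_per hk (fun n => (F n : ℂ)) (fun n => by rw [hF])
  set A : ℝ := ∑ j ∈ range k, ‖a j‖ + 1 with hA
  have hA0 : 0 < A := by positivity
  obtain ⟨s, ω, lam, R, hR, hω, hω1, hlam, Y₀, hY₀, hrec⟩ := rec_fin (t := t) (c := c) hD
    (fun j => ζ ^ j) (fun j => by rw [norm_pow, hζ, one_pow]) k (δ := δ / A) (by positivity)
  refine ⟨s, ω, lam, R, hR, hω, hω1, hlam, Y₀, hY₀, fun Y hY i => ?_⟩
  -- expansion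
  have hexp : ∀ (i : ℕ) (Y : ℝ), ((Wf t c (fun n => F (n + 2 * i)) Y : ℝ) : ℂ) =
      ∑ j ∈ range k, a j * (ζ ^ j) ^ (2 * i) * GGg (gb (ζ ^ j) : Qd t c → ℂ) Y 0 := by
    intro i Y
    unfold Wf
    rw [← GGg_zero_re]
    have h1 : (fun z : Qd t c => ((F (Om z + 2 * i) : ℝ) : ℂ)) =
        fun z => ∑ j ∈ range k, (a j * (ζ ^ j) ^ (2 * i)) * gb (ζ ^ j) z := by
      funext z
      rw [hFo (Om z + 2 * i)]
      refine Finset.sum_congr rfl fun j _ => ?_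
      unfold gb
      rw [pow_add]
      ring
    rw [h1, GGg_sum (range k) (fun j z => (a j * (ζ ^ j) ^ (2 * i)) * gb (ζ ^ j) z)]
    exact Finset.sum_congr rfl fun j _ => GGg_smul _ _ _ _
  have hdiff : ((Wf t c (fun n => F (n + 2 * i)) Y -
      ∑ v ∈ s, ω v * Wf t c (fun n => F (n + 2 * (i + 1))) (Y * lam v) : ℝ) : ℂ) =
      ∑ j ∈ range k, a j * (ζ ^ j) ^ (2 * i) * (GGg (gb (ζ ^ j) : Qd t c → ℂ) Y 0 -
        (ζ ^ j) ^ 2 * ∑ v ∈ s, (ω v : ℂ) * GGg (gb (ζ ^ j) : Qd t c → ℂ) (Y * lam v) 0) := by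
    push_cast
    rw [hexp i Y]
    simp_rw [hexp (i + 1)]
    simp_rw [mul_sub, Finset.sum_sub_distrib, Finset.mul_sum]
    congr 1
    rw [Finset.sum_comm]
    refine Finset.sum_congr rfl fun j _ => Finset.sum_congr rfl fun v _ => ?_
    have : 2 * (i + 1) = 2 * i + 2 := by ring
    rw [this, pow_add]
    ring
  have hn : |Wf t c (fun n => F (n + 2 * i)) Y -
      ∑ v ∈ s, ω v * Wf t c (fun n => F (n + 2 * (i + 1))) (Y * lam v)| ≤ δ := by
    rw [← Real.norm_eq_abs, ← Complex.norm_real, hdiff]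
    refine (norm_sum_le _ _).trans ?_
    calc ∑ j ∈ range k, ‖a j * (ζ ^ j) ^ (2 * i) * (GGg (gb (ζ ^ j) : Qd t c → ℂ) Y 0 -
        (ζ ^ j) ^ 2 * ∑ v ∈ s, (ω v : ℂ) * GGg (gb (ζ ^ j) : Qd t c → ℂ) (Y * lam v) 0)‖
        ≤ ∑ j ∈ range k, ‖a j‖ * (δ / A) := by
          refine Finset.sum_le_sum fun j hj => ?_
          rw [norm_mul, norm_mul, norm_pow, norm_pow, hζ, one_pow, one_pow, mul_one]
          exact mul_le_mul_of_nonneg_left (hrec Y hY j (mem_range.1 hj)) (norm_nonneg _)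
      _ = (∑ j ∈ range k, ‖a j‖) * (δ / A) := by rw [Finset.sum_mul]
      _ ≤ A * (δ / A) := mul_le_mul_of_nonneg_right (by rw [hA]; linarith) (by positivity)
      _ = δ := by field_simp
  have := (abs_le.1 hn).2
  linarith

/-- if the weight of `F` is small on a long range of scales, and the shifts of `F` by even numbers
cover everything, we get a contradiction -/
theorem cover_contra (hD : t ^ 2 < 4 * c) {k : ℕ} (hk : 0 < k) (F : ℕ → ℝ) (hF0 : ∀ n, 0 ≤ F n)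
    (hF : ∀ n, F (n + k) = F n) (hcov : ∀ n, ∃ j < k, 1 ≤ F (n + 2 * j)) :
    ∃ R : ℝ, 1 ≤ R ∧ ∃ δ : ℝ, 0 < δ ∧ ∃ Y₀ : ℝ, 1 ≤ Y₀ ∧ ∀ Y : ℝ, Y₀ ≤ Y →
      ∃ Y' : ℝ, Y / R ≤ Y' ∧ Y' ≤ Y ∧ δ < Wf t c F Y' := by
  classical
  obtain ⟨c₀, hc₀, YA, hA0⟩ := Pool.Agent.W240.GA.A0.a0_of hD (lat_all hD)
  have hkR : (1 : ℝ) ≤ k := by exact_mod_cast hk
  have hk0 : (0 : ℝ) < k := by linarith
  set δ : ℝ := c₀ / (4 * k ^ 2) with hδ
  have hδ0 : 0 < δ := by positivity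
  obtain ⟨s, ω, lam, R, hR, hω, hω1, hlam, Y₀, hY₀, hrec⟩ := rec_per (t := t) (c := c) hD hk F hF hδ0
  have hR0 : 0 < R := by linarith
  have hRk : 1 ≤ R ^ k := one_le_pow₀ hR
  have hRk0 : 0 < R ^ k := by linarith
  refine ⟨R ^ k, hRk, δ, hδ0, R ^ k * (max YA 0 + Y₀), ?_, fun Y hY => ?_⟩
  · have := le_max_right YA 0
    nlinarith
  by_contra hcon
  push Not at hcon
  have hmax := le_max_right YA 0
  have hYk : max YA 0 + Y₀ ≤ Y / R ^ k := by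
    rw [le_div_iff₀ hRk0]; linarith
  have hYk0 : 0 < Y / R ^ k := by linarith
  have hY0 : 0 < Y := by
    have := (div_pos_iff_of_pos_right hRk0).1 hYk0
    exact this
  -- descending induction
  have key : ∀ j : ℕ, j ≤ k → ∀ Y' : ℝ, Y / R ^ k * R ^ j ≤ Y' → Y' ≤ Y →
      Wf t c (fun n => F (n + 2 * (k - j))) Y' ≤ (j + 1) * δ := by
    intro j
    induction j with
    | zero =>
      intro _ Y' h1 h2
      rw [pow_zero, mul_one] at h1
      have h3 := hcon Y' h1 h2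
      have h4 : (fun n => F (n + 2 * (k - 0))) = F := by
        funext n
        rw [Nat.sub_zero, two_mul, ← add_assoc, hF, hF]
      rw [h4]
      push_cast
      linarith
    | succ j ih =>
      intro hj Y' h1 h2
      have hRj : (1 : ℝ) ≤ R ^ (j + 1) := one_le_pow₀ hR
      have hYA : Y / R ^ k ≤ Y' := by nlinarith
      have hY'0 : 0 < Y' := by linarith
      have h3 := hrec Y' (by linarith) (k - (j + 1))
      have h4 : k - (j + 1) + 1 = k - j := by omega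
      rw [h4] at h3
      refine h3.trans ?_
      have h5 : ∑ v ∈ s, ω v * Wf t c (fun n => F (n + 2 * (k - j))) (Y' * lam v) ≤
          ∑ v ∈ s, ω v * ((j + 1) * δ) := by
        refine Finset.sum_le_sum fun v hv => ?_
        apply mul_le_mul_of_nonneg_left _ (hω v hv)
        obtain ⟨l1, l2⟩ := hlam v hv
        have h6 : 0 ≤ lam v := le_trans (by positivity) l1
        apply ih (by omega)
        · rw [pow_succ] at h1
          have h7 : Y / R ^ k * R ^ j * R ≤ Y' := by linarith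
          rw [div_le_iff₀ hR0] at l1
          calc Y / R ^ k * R ^ j = Y / R ^ k * R ^ j * 1 := by ring
            _ ≤ Y / R ^ k * R ^ j * (lam v * R) := mul_le_mul_of_nonneg_left l1 (by positivity)
            _ = (Y / R ^ k * R ^ j * R) * lam v := by ring
            _ ≤ Y' * lam v := mul_le_mul_of_nonneg_right h7 h6
        · calc Y' * lam v ≤ Y' * 1 := mul_le_mul_of_nonneg_left l2 hY'0.le
            _ = Y' := mul_one Y'
            _ ≤ Y := h2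
      rw [← Finset.sum_mul, hω1, one_mul] at h5
      push_cast
      linarith
  -- the sum over all shifts
  have hYA : YA ≤ Y := by
    have h1 := le_max_left YA 0
    have h2 : Y / R ^ k ≤ Y := div_le_self hY0.le hRk
    linarith
  have hA := hA0 Y hYA
  have hsum : ∑ z ∈ pball t c (Real.exp 1 * Y), bg Y z ≤
      ∑ j ∈ range k, Wf t c (fun n => F (n + 2 * j)) Y := by
    unfold Wf Wt
    rw [Finset.sum_comm]
    refine Finset.sum_le_sum fun z _ => ?_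
    rw [← Finset.sum_mul]
    have hb := bg_nonneg Y z
    obtain ⟨j, hj, h1⟩ := hcov (Om z)
    have h2 : 1 ≤ ∑ j ∈ range k, F (Om z + 2 * j) := h1.trans
      (Finset.single_le_sum (f := fun j => F (Om z + 2 * j)) (fun i _ => hF0 _) (mem_range.2 hj))
    calc bg Y z = 1 * bg Y z := (one_mul _).symm
      _ ≤ _ := mul_le_mul_of_nonneg_right h2 hb
  have hall : ∀ j ∈ range k, Wf t c (fun n => F (n + 2 * j)) Y ≤ (k + 1) * δ := by
    intro j hj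
    rw [mem_range] at hj
    have h1 := key (k - j) (by omega) Y (by
      have h2 : R ^ (k - j) ≤ R ^ k := pow_le_pow_right₀ hR (by omega)
      calc Y / R ^ k * R ^ (k - j) ≤ Y / R ^ k * R ^ k :=
            mul_le_mul_of_nonneg_left h2 hYk0.le
        _ = Y := by field_simp) le_rfl
    have h3 : k - (k - j) = j := by omega
    rw [h3] at h1
    refine h1.trans ?_
    apply mul_le_mul_of_nonneg_right _ hδ0.le
    have : ((k - j : ℕ) : ℝ) ≤ k := by exact_mod_cast Nat.sub_le k j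
    linarith
  have hfin := hA.trans (hsum.trans (Finset.sum_le_sum hall))
  rw [Finset.sum_const, card_range, nsmul_eq_mul, hδ] at hfin
  have h1 : (k : ℝ) * ((k + 1) * (c₀ / (4 * k ^ 2))) ≤ c₀ / 2 := by
    have h2 : (k : ℝ) * ((k + 1) * (c₀ / (4 * k ^ 2))) = c₀ * (k + 1) / (4 * k) := by
      field_simp
    rw [h2, div_le_iff₀ (by positivity)]
    nlinarith
  linarith

/-- a positive proportion of the pairs of determinant one has `Re ≤ 0` -/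
theorem vio2_many (hD : t ^ 2 < 4 * c) {b κ : ℂ} (hb : ‖b‖ = 1)
    (hκ : ‖κ‖ = 1) {k : ℕ} (hk : 0 < k) (hbk : b ^ k = 1)
    (hcov : ∀ x : ℂ, ‖x‖ = 1 → ∃ j < k, (x * b ^ (2 * j)).re ≤ -(Real.sqrt 2 / 2)) :
    ∃ ε : ℝ, 0 < ε ∧ ∃ X₀ : ℝ, ∀ X : ℝ, X₀ ≤ X →
      ε * X ≤ ((vio2 (fun z : Qd t c => κ * gb b z) X).card : ℝ) := by
  classical
  set h : Qd t c → ℂ := fun z => κ * gb b z with hh
  have hU : Uf h := uf_gb hb hκ
  have hper : ∀ n, b ^ (n + k) = b ^ n := by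
    intro n
    rw [pow_add, hbk, mul_one]
  set FP : ℕ → ℝ := fun n => if Real.sqrt 2 / 2 ≤ (κ * b ^ n).re then 1 else 0 with hFP
  set FN : ℕ → ℝ := fun n => if (κ * b ^ n).re ≤ -(Real.sqrt 2 / 2) then 1 else 0 with hFN
  have hFPp : ∀ n, FP (n + k) = FP n := by intro n; simp only [hFP, hper]
  have hFNp : ∀ n, FN (n + k) = FN n := by intro n; simp only [hFN, hper]
  have hFP0 : ∀ n, 0 ≤ FP n := by intro n; simp only [hFP]; split_ifs <;> norm_num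
  have hFN0 : ∀ n, 0 ≤ FN n := by intro n; simp only [hFN]; split_ifs <;> norm_num
  have hMP : S_MRg (fun z : Qd t c => ((fP2 h z : ℝ) : ℂ)) :=
    mr_per hD hk (fun n => ((FP n : ℝ) : ℂ)) (by intro n; rw [hFPp])
  have hMN : S_MRg (fun z : Qd t c => ((fN2 h z : ℝ) : ℂ)) :=
    mr_per hD hk (fun n => ((FN n : ℝ) : ℂ)) (by intro n; rw [hFNp])
  have hcN : ∀ n, ∃ j < k, 1 ≤ FN (n + 2 * j) := by
    intro n
    obtain ⟨j, hj, h1⟩ := hcov (κ * b ^ n) (by rw [norm_mul, hκ, norm_pow, hb, one_pow, one_mul])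
    refine ⟨j, hj, ?_⟩
    have h2 : (κ * b ^ (n + 2 * j)).re ≤ -(Real.sqrt 2 / 2) := by
      rw [pow_add, ← mul_assoc]; exact h1
    simp only [hFN, if_pos h2]
    exact le_rfl
  have hcP : ∀ n, ∃ j < k, 1 ≤ FP (n + 2 * j) := by
    intro n
    obtain ⟨j, hj, h1⟩ := hcov (-(κ * b ^ n))
      (by rw [norm_neg, norm_mul, hκ, norm_pow, hb, one_pow, one_mul])
    refine ⟨j, hj, ?_⟩
    have h2 : Real.sqrt 2 / 2 ≤ (κ * b ^ (n + 2 * j)).re := by
      rw [neg_mul, Complex.neg_re, mul_assoc, ← pow_add] at h1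
      linarith
    simp only [hFP, if_pos h2]
    exact le_rfl
  obtain ⟨R₁, hR₁, δ₁, hδ₁, Y₁, hY₁, hc1⟩ := cover_contra (t := t) (c := c) hD hk FP hFP0 hFPp hcP
  obtain ⟨R₂, hR₂, δ₂, hδ₂, Y₂, hY₂, hc2⟩ := cover_contra (t := t) (c := c) hD hk FN hFN0 hFNp hcN
  obtain ⟨ε, hε, C₁, hC₁, Y₃, hY₃, hpn⟩ := pn_le2 hD (Pool.Agent.W803.GA.sect hD) (lat_all hD) hU
    hMP hMN (η := δ₁ * δ₂) (by positivity) (R := max R₁ R₂) (hR₁.trans (le_max_left _ _))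
  have hC₁0 : 0 < C₁ := by linarith
  refine ⟨ε / C₁, by positivity, C₁ * max (max Y₁ Y₂) Y₃, fun X hX => ?_⟩
  by_contra hcon
  push Not at hcon
  set Y : ℝ := X / C₁ with hYdef
  have hYX : C₁ * Y = X := by rw [hYdef]; field_simp
  have hYb : max (max Y₁ Y₂) Y₃ ≤ Y := by
    rw [hYdef, le_div_iff₀ hC₁0]; linarith
  have hYa : Y₁ ≤ Y := (le_max_left _ _).trans ((le_max_left _ _).trans hYb)
  have hYb' : Y₂ ≤ Y := (le_max_right _ _).trans ((le_max_left _ _).trans hYb)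
  have hYc : Y₃ ≤ Y := (le_max_right _ _).trans hYb
  have hY0 : 0 < Y := by linarith
  have hv : ((vio2 h (C₁ * Y)).card : ℝ) ≤ ε * Y := by
    rw [hYX]
    have : ε / C₁ * X = ε * Y := by rw [hYdef]; ring
    linarith
  obtain ⟨Z₁, g1, g2, g3⟩ := hc1 Y hYa
  obtain ⟨Z₂, g4, g5, g6⟩ := hc2 Y hYb'
  have hsub : ∀ R' : ℝ, 1 ≤ R' → R' ≤ max R₁ R₂ → Y / max R₁ R₂ ≤ Y / R' := by
    intro R' h1 h2
    exact div_le_div_of_nonneg_left hY0.le (by linarith) h2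
  have h1 := hpn Y hYc hv Z₁ Z₂ ((hsub R₁ hR₁ (le_max_left _ _)).trans g1) g2
    ((hsub R₂ hR₂ (le_max_right _ _)).trans g4) g5
  have h2 : Wt (fP2 h) Z₁ = Wf t c FP Z₁ := rfl
  have h3 : Wt (fN2 h) Z₂ = Wf t c FN Z₂ := rfl
  rw [h2, h3] at h1
  have h4 : δ₁ * δ₂ < Wf t c FP Z₁ * Wf t c FN Z₂ :=
    mul_lt_mul'' g3 g6 hδ₁.le hδ₂.le
  linarith

end Pool.Agent.W80.GD
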