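import Pool.Agent.W80.GD.Bd
import Pool.Agent.W80.GD.Rec2

/-!
Project GD (helper80): closed half-planes. `Re (κ b^Ω(n^2+tn+c)) ≤ 0` for many `n`, for every root
of unity `b` with `b^2 ≠ 1` and every `κ`.
-/

set_option autoImplicit false

namespace Pool.Agent.W80.GD

open Finset Filter
open Pool.Agent.W78
open Pool.Agent.W78.GS (Pos Con)
open Pool.Agent.W78.GA (Qd nm prim dt ip NN dedge pball mem_pball mem_dedge)

variable {t c : ℤ}

/-- the condition on integers -/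
def QH (b κ : ℂ) (m : ℕ) : Prop := (κ * b ^ ArithmeticFunction.cardFactors m).re ≤ 0

lemma eq_exp {κ : ℂ} (hκ : ‖κ‖ = 1) : κ = Complex.exp ((Complex.arg κ : ℝ) * Complex.I) := by
  have := Complex.norm_mul_exp_arg_mul_I κ
  rw [hκ, Complex.ofReal_one, one_mul] at this
  exact this.symm

lemma re_exp (x : ℝ) : (Complex.exp ((x : ℂ) * Complex.I)).re = Real.cos x := by
  rw [Complex.exp_ofReal_mul_I_re]

/-- roots of unity of order at least four: one of the rotates is far to the left -/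
lemma cover {ζ : ℂ} {n : ℕ} (hζ : IsPrimitiveRoot ζ n) (hn : 4 ≤ n) {x : ℂ} (hx : ‖x‖ = 1) :
    ∃ j < n, (x * ζ ^ j).re ≤ -(Real.sqrt 2 / 2) := by
  have hn0 : (0 : ℝ) < n := by
    have : (4 : ℝ) ≤ n := by exact_mod_cast hn
    linarith
  have hn4 : (4 : ℝ) ≤ n := by exact_mod_cast hn
  have hpi := Real.pi_pos
  set φ : ℝ := Complex.arg x with hφ
  set m : ℤ := round ((Real.pi - φ) * n / (2 * Real.pi)) with hm
  have h1 := abs_sub_round ((Real.pi - φ) * n / (2 * Real.pi))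
  rw [← hm] at h1
  set η : ℂ := Complex.exp (((2 * Real.pi * m / n : ℝ) : ℂ) * Complex.I) with hη
  have hηn : η ^ n = 1 := by
    rw [hη, ← Complex.exp_nat_mul]
    have : (n : ℂ) * (((2 * Real.pi * m / n : ℝ) : ℂ) * Complex.I) =
        m * (2 * Real.pi * Complex.I) := by
      have hnC : (n : ℂ) ≠ 0 := by exact_mod_cast hn0.ne'
      push_cast
      field_simp
    rw [this]
    exact Complex.exp_int_mul_two_pi_mul_I m
  haveI : NeZero n := ⟨by omega⟩
  obtain ⟨j, hj, hj2⟩ := hζ.eq_pow_of_pow_eq_one hηn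
  refine ⟨j, hj, ?_⟩
  rw [hj2, eq_exp hx, ← hφ, hη, ← Complex.exp_add, ← add_mul, ← Complex.ofReal_add, re_exp]
  have h2 : |φ + 2 * Real.pi * m / n - Real.pi| ≤ Real.pi / 4 := by
    have e1 : φ + 2 * Real.pi * m / n - Real.pi =
        -(((Real.pi - φ) * n / (2 * Real.pi) - m) * (2 * Real.pi / n)) := by
      field_simp
      ring
    rw [e1, abs_neg, abs_mul, abs_of_pos (by positivity : 0 < 2 * Real.pi / n)]
    calc |(Real.pi - φ) * n / (2 * Real.pi) - m| * (2 * Real.pi / n)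
        ≤ 1 / 2 * (2 * Real.pi / n) := by gcongr
      _ = Real.pi / n := by ring
      _ ≤ Real.pi / 4 := by gcongr
  have h3 : Real.cos (φ + 2 * Real.pi * m / n) =
      -Real.cos (φ + 2 * Real.pi * m / n - Real.pi) := by
    rw [Real.cos_sub_pi, neg_neg]
  rw [h3, ← Real.cos_pi_div_four, neg_le_neg_iff, ← Real.cos_abs (φ + 2 * Real.pi * m / n - Real.pi)]
  exact Real.cos_le_cos_of_nonneg_of_le_pi (abs_nonneg _) (by linarith) h2

/-- rotating by a small angle inside a cone -/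
lemma rot {y : ℂ} {T δ : ℝ} (hy1 : y.re ≤ 0) (hy2 : |y.im| ≤ T * (-y.re))
    (hT : T * |Real.sin δ| ≤ Real.cos δ) :
    (Complex.exp ((δ : ℂ) * Complex.I) * y).re ≤ 0 := by
  rw [Complex.mul_re, Complex.exp_ofReal_mul_I_re, Complex.exp_ofReal_mul_I_im]
  have h1 : -(Real.sin δ * y.im) ≤ |Real.sin δ| * |y.im| := by
    rw [← abs_mul]; exact neg_le_abs _
  have h2 : |Real.sin δ| * |y.im| ≤ |Real.sin δ| * (T * (-y.re)) := by gcongr
  have h3 : T * |Real.sin δ| * (-y.re) ≤ Real.cos δ * (-y.re) :=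
    mul_le_mul_of_nonneg_right hT (by linarith)
  nlinarith

lemma six {y : ℂ} (hy : y ^ 6 = 1) (hy2 : y.re < 1 / 2) :
    y.re ≤ 0 ∧ |y.im| ≤ Real.sqrt 3 * (-y.re) := by
  have h : (y - 1) * ((y + 1) * ((y ^ 2 + y + 1) * (y ^ 2 - y + 1))) = 0 := by
    linear_combination hy
  have h3 : Real.sqrt 3 ^ 2 = 3 := Real.sq_sqrt (by norm_num)
  have h30 : 0 ≤ Real.sqrt 3 := Real.sqrt_nonneg 3
  rcases mul_eq_zero.1 h with h | h
  · rw [sub_eq_zero.1 h] at hy2; norm_num at hy2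
  rcases mul_eq_zero.1 h with h | h
  · rw [eq_neg_of_add_eq_zero_left h]
    norm_num
  rcases mul_eq_zero.1 h with h | h
  · have hre := congrArg Complex.re h
    have him := congrArg Complex.im h
    simp only [Complex.add_re, Complex.add_im, sq, Complex.mul_re, Complex.mul_im, Complex.one_re,
      Complex.one_im, Complex.zero_re, Complex.zero_im] at hre him
    have h5 : y.im * (2 * y.re + 1) = 0 := by linarith
    rcases mul_eq_zero.1 h5 with h6 | h6
    · rw [h6] at hre; nlinarith [sq_nonneg (y.re + 1 / 2)]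
    · have h7 : y.re = -1 / 2 := by linarith
      have h8 : y.im ^ 2 = 3 / 4 := by rw [h7] at hre; linarith
      refine ⟨by linarith, abs_le_of_sq_le_sq ?_ (by rw [h7]; positivity)⟩
      rw [h8, mul_pow, h3, h7]; norm_num
  · have hre := congrArg Complex.re h
    have him := congrArg Complex.im h
    simp only [Complex.add_re, Complex.add_im, sq, Complex.mul_re, Complex.mul_im, Complex.one_re,
      Complex.one_im, Complex.zero_re, Complex.zero_im, Complex.sub_re, Complex.sub_im] at hre him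
    have h5 : y.im * (2 * y.re - 1) = 0 := by linarith
    rcases mul_eq_zero.1 h5 with h6 | h6
    · rw [h6] at hre; nlinarith [sq_nonneg (y.re - 1 / 2)]
    · linarith

lemma eight {y : ℂ} (hy : y ^ 4 = -1) (hy2 : y.re < 1 / 2) :
    y.re ≤ 0 ∧ |y.im| ≤ 1 * (-y.re) := by
  have hre := congrArg Complex.re hy
  have him := congrArg Complex.im hy
  have e4 : y ^ 4 = (y * y) * (y * y) := by ring
  rw [e4] at hre him
  simp only [Complex.mul_re, Complex.mul_im, Complex.neg_re, Complex.neg_im, Complex.one_re,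
    Complex.one_im] at hre him
  have h1 : y.re * (y.im * ((y.re - y.im) * (y.re + y.im))) = 0 := by linarith
  have key : y.im ^ 2 = y.re ^ 2 → y.re ≤ 0 ∧ |y.im| ≤ 1 * (-y.re) := by
    intro h
    have h2 : (y.re ^ 2 - 1 / 2) * (y.re ^ 2 + 1 / 2) = 0 := by
      have h4 : y.im * y.im = y.re * y.re := by linarith
      nlinarith
    have h3 : y.re ^ 2 = 1 / 2 := by
      rcases mul_eq_zero.1 h2 with h3 | h3
      · linarith
      · nlinarith [sq_nonneg y.re]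
    have h4 : y.re ≤ 0 := by
      by_contra h5
      push Not at h5
      nlinarith
    refine ⟨h4, ?_⟩
    rw [one_mul]
    exact abs_le_of_sq_le_sq (by rw [h, neg_sq]) (by linarith)
  rcases mul_eq_zero.1 h1 with h | h
  · rw [h] at hre; nlinarith [sq_nonneg (y.im ^ 2), sq_nonneg y.im]
  rcases mul_eq_zero.1 h with h | h
  · rw [h] at hre; nlinarith [sq_nonneg (y.re ^ 2), sq_nonneg y.re]
  rcases mul_eq_zero.1 h with h | h
  · exact key (by rw [sub_eq_zero.1 h])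
  · exact key (by rw [eq_neg_of_add_eq_zero_left h, neg_sq])

lemma tan_small {δ T α : ℝ} (hα0 : 0 ≤ α) (hα : α ≤ Real.pi / 2) (hδ : |δ| ≤ α)
    (hT0 : 0 ≤ T) (hT : T * Real.sin α ≤ Real.cos α) : T * |Real.sin δ| ≤ Real.cos δ := by
  have hpi := Real.pi_pos
  have h1 : |Real.sin δ| = Real.sin |δ| := by
    rcases abs_cases δ with ⟨h, h'⟩ | ⟨h, h'⟩
    · rw [h, abs_of_nonneg]
      exact Real.sin_nonneg_of_nonneg_of_le_pi h' (by rw [h] at hδ; linarith)
    · rw [h, Real.sin_neg, abs_of_nonpos]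
      have : 0 ≤ Real.sin (-δ) :=
        Real.sin_nonneg_of_nonneg_of_le_pi (by linarith) (by rw [h] at hδ; linarith)
      rw [Real.sin_neg] at this
      linarith
  have h2 : Real.sin |δ| ≤ Real.sin α :=
    Real.sin_le_sin_of_le_of_le_pi_div_two (by linarith [abs_nonneg δ]) hα hδ
  have h3 : Real.cos α ≤ Real.cos δ := by
    rw [← Real.cos_abs δ]
    exact Real.cos_le_cos_of_nonneg_of_le_pi (abs_nonneg δ) (by linarith) hδ
  rw [h1]
  nlinarith

lemma choose6 {κ : ℂ} (hκ : ‖κ‖ = 1) : ∃ κ' : ℂ, ‖κ'‖ = 1 ∧ ∀ x : ℂ, x ^ 6 = 1 →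
    (κ' * x).re < 1 / 2 → (κ * x).re ≤ 0 := by
  have hpi := Real.pi_pos
  set φ : ℝ := Complex.arg κ with hφ
  set m : ℤ := round (φ * 3 / Real.pi) with hm
  have h1 := abs_sub_round (φ * 3 / Real.pi)
  rw [← hm] at h1
  set κ' : ℂ := Complex.exp (((m * (Real.pi / 3) : ℝ) : ℂ) * Complex.I) with hκ'
  have h6 : κ' ^ 6 = 1 := by
    rw [hκ', ← Complex.exp_nat_mul]
    have : ((6 : ℕ) : ℂ) * (((m * (Real.pi / 3) : ℝ) : ℂ) * Complex.I) =
        m * (2 * Real.pi * Complex.I) := by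
      push_cast; ring
    rw [this]
    exact Complex.exp_int_mul_two_pi_mul_I m
  refine ⟨κ', Complex.norm_exp_ofReal_mul_I _, fun x hx hre => ?_⟩
  obtain ⟨g1, g2⟩ := six (y := κ' * x) (by rw [mul_pow, h6, hx, one_mul]) hre
  have e1 : κ * x = Complex.exp (((φ - m * (Real.pi / 3) : ℝ) : ℂ) * Complex.I) * (κ' * x) := by
    rw [← mul_assoc, hκ', ← Complex.exp_add, ← add_mul, ← Complex.ofReal_add, sub_add_cancel,
      ← eq_exp hκ]
  rw [e1]
  refine rot g1 g2 (tan_small (α := Real.pi / 6) (by positivity) (by linarith) ?_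
    (Real.sqrt_nonneg 3) ?_)
  · have e2 : φ - m * (Real.pi / 3) = (φ * 3 / Real.pi - m) * (Real.pi / 3) := by
      field_simp
    rw [e2, abs_mul, abs_of_pos (by positivity : 0 < Real.pi / 3)]
    calc |φ * 3 / Real.pi - m| * (Real.pi / 3) ≤ 1 / 2 * (Real.pi / 3) := by gcongr
      _ = Real.pi / 6 := by ring
  · rw [Real.sin_pi_div_six, Real.cos_pi_div_six]
    exact le_of_eq (by ring)

lemma choose4 {κ : ℂ} (hκ : ‖κ‖ = 1) : ∃ κ' : ℂ, ‖κ'‖ = 1 ∧ ∀ x : ℂ, x ^ 4 = 1 →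
    (κ' * x).re < 1 / 2 → (κ * x).re ≤ 0 := by
  have hpi := Real.pi_pos
  set φ : ℝ := Complex.arg κ with hφ
  set m : ℤ := round ((φ - Real.pi / 4) * 2 / Real.pi) with hm
  have h1 := abs_sub_round ((φ - Real.pi / 4) * 2 / Real.pi)
  rw [← hm] at h1
  set κ' : ℂ := Complex.exp (((Real.pi / 4 + m * (Real.pi / 2) : ℝ) : ℂ) * Complex.I) with hκ'
  have h6 : κ' ^ 4 = -1 := by
    rw [hκ', ← Complex.exp_nat_mul]
    have : ((4 : ℕ) : ℂ) * (((Real.pi / 4 + m * (Real.pi / 2) : ℝ) : ℂ) * Complex.I) =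
        Real.pi * Complex.I + m * (2 * Real.pi * Complex.I) := by
      push_cast; ring
    rw [this, Complex.exp_add, Complex.exp_int_mul_two_pi_mul_I m, Complex.exp_pi_mul_I, mul_one]
  refine ⟨κ', Complex.norm_exp_ofReal_mul_I _, fun x hx hre => ?_⟩
  obtain ⟨g1, g2⟩ := eight (y := κ' * x) (by rw [mul_pow, h6, hx, mul_one]) hre
  have e1 : κ * x = Complex.exp (((φ - (Real.pi / 4 + m * (Real.pi / 2)) : ℝ) : ℂ) * Complex.I) *
      (κ' * x) := by
    rw [← mul_assoc, hκ', ← Complex.exp_add, ← add_mul, ← Complex.ofReal_add, sub_add_cancel,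
      ← eq_exp hκ]
  rw [e1]
  refine rot g1 g2 (tan_small (α := Real.pi / 4) (by positivity) (by linarith) ?_
    (by norm_num) ?_)
  · have e2 : φ - (Real.pi / 4 + m * (Real.pi / 2)) =
        ((φ - Real.pi / 4) * 2 / Real.pi - m) * (Real.pi / 2) := by
      field_simp
      ring
    rw [e2, abs_mul, abs_of_pos (by positivity : 0 < Real.pi / 2)]
    calc |(φ - Real.pi / 4) * 2 / Real.pi - m| * (Real.pi / 2) ≤ 1 / 2 * (Real.pi / 2) := by
          gcongr
      _ = Real.pi / 4 := by ring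
  · rw [Real.sin_pi_div_four, Real.cos_pi_div_four, one_mul]

/-- monotonicity of the conclusion -/
lemma con_mono {P Q : ℕ → Prop} (h : Con t c P) (hPQ : ∀ m : ℕ, P m → Q m) : Con t c Q := by
  obtain ⟨h1, κ, hκ, N₁, h2⟩ := h
  refine ⟨fun ε hε => ?_, κ, hκ, N₁, fun N hN => (h2 N hN).trans ?_⟩
  · obtain ⟨N₀, h⟩ := h1 ε hε
    refine ⟨N₀, fun N hN => (h N hN).trans ?_⟩
    refine Nat.cast_le.2 (Set.ncard_le_ncard ?_
      ((Set.finite_Icc 1 N).subset fun n hn => ⟨hn.1, hn.2.1⟩))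
    rintro n ⟨a1, a2, f, a3, a4⟩
    exact ⟨a1, a2, f, a3, hPQ _ a4⟩
  · refine Nat.cast_le.2 (Set.ncard_le_ncard ?_
      (((Set.finite_Icc 1 N).prod (Set.finite_Icc 1 N)).subset
        fun p hp => ⟨⟨hp.1, hp.2.1⟩, ⟨hp.2.2.1, hp.2.2.2.1⟩⟩))
    rintro p ⟨a1, a2, a3, a4, a5, a6⟩
    exact ⟨a1, a2, a3, a4, a5, hPQ _ a6⟩

/-- roots of unity with `b^4 ≠ 1`, `b^6 ≠ 1` -/
theorem half_big (hD : t ^ 2 < 4 * c) {b κ : ℂ} (hκ : ‖κ‖ = 1) {k : ℕ} (hk : 0 < k)
    (hbk : b ^ k = 1) (hb2 : b ^ 2 ≠ 1) (hb4 : b ^ 4 ≠ 1) (hb6 : b ^ 6 ≠ 1) : ∃ S : ℕ,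
    Con t c (fun m => (∃ a b : ℕ, 1 ≤ a ∧ a ≤ S ∧ m = a ^ 2 * b ∧ Squarefree b) ∧ QH b κ m) := by
  classical
  have hns : ¬ IsSquare (t ^ 2 - 4 * c) := by
    rintro ⟨r, hr⟩
    nlinarith [mul_self_nonneg r]
  have hb : ‖b‖ = 1 := by
    have h1 : ‖b‖ ^ k = 1 := by rw [← norm_pow, hbk, norm_one]
    exact (pow_eq_one_iff_of_nonneg (norm_nonneg b) hk.ne').1 h1
  have hfin : (b ^ 2) ^ k = 1 := by rw [← pow_mul, mul_comm, pow_mul, hbk, one_pow]
  set o : ℕ := orderOf (b ^ 2) with ho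
  have ho0 : 0 < o := orderOf_pos_iff.2 (isOfFinOrder_iff_pow_eq_one.2 ⟨k, hk, hfin⟩)
  have hpo : (b ^ 2) ^ o = 1 := pow_orderOf_eq_one _
  have hok : o ≤ k := Nat.le_of_dvd hk (orderOf_dvd_of_pow_eq_one hfin)
  have ho4 : 4 ≤ o := by
    by_contra hlt
    push Not at hlt
    interval_cases o
    · exact hb2 (by rw [← hpo]; ring)
    · exact hb4 (by rw [← hpo]; ring)
    · exact hb6 (by rw [← hpo]; ring)
  have hprim : IsPrimitiveRoot (b ^ 2) o := IsPrimitiveRoot.orderOf _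
  obtain ⟨κ', hκ', hsq⟩ := exists_sqrt hκ
  obtain ⟨ε, hε, X₀, hv⟩ := vio2_many (t := t) (c := c) hD hb hκ' hk hbk (fun x hx => by
    obtain ⟨j, hj, h⟩ := cover hprim ho4 hx
    exact ⟨j, hj.trans_le hok, by rw [pow_mul]; exact h⟩)
  obtain ⟨S, hS⟩ := pos_of_vio hD (QH b κ) ⟨ε, hε, X₀, fun X hX => (hv X hX).trans (by
    have hsub : vio2 (fun z : Qd t c => κ' * gb b z) X ⊆
        (dedge t c X).filter (fun e => QH b κ (NN e)) := by
      intro e he
      rw [mem_vio2] at he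
      obtain ⟨h1, h2⟩ := he
      rw [mem_filter, mem_dedge]
      refine ⟨h1, ?_⟩
      unfold Vi2 at h2
      unfold QH NN
      have n1 : nm e.1 ≠ 0 := (GA.nm_pos hD (GA.prim_ne_zero ((mem_pball hD).1 h1.1).1)).ne'
      have n2 : nm e.2 ≠ 0 := (GA.nm_pos hD (GA.prim_ne_zero ((mem_pball hD).1 h1.2.1).1)).ne'
      rw [ArithmeticFunction.cardFactors_mul n1 n2, pow_add, ← hsq]
      have e1 : κ' * gb b e.1 * (κ' * gb b e.2) = κ' * κ' *
          (b ^ ArithmeticFunction.cardFactors (nm e.1) *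
            b ^ ArithmeticFunction.cardFactors (nm e.2)) := by
        unfold gb Om
        ring
      rw [← e1]
      exact h2
    exact_mod_cast card_le_card hsub)⟩
  exact ⟨S, con_of_pos hns hS⟩

/-- closed half-planes, all roots of unity with `b^2 ≠ 1` -/
theorem half_neg (hD : t ^ 2 < 4 * c) {b κ : ℂ} (hκ : ‖κ‖ = 1) {k : ℕ} (hk : 0 < k)
    (hbk : b ^ k = 1) (hb2 : b ^ 2 ≠ 1) : ∃ S : ℕ,
    Con t c (fun m => (∃ a b : ℕ, 1 ≤ a ∧ a ≤ S ∧ m = a ^ 2 * b ∧ Squarefree b) ∧ QH b κ m) := by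
  by_cases h4 : b ^ 4 = 1
  · obtain ⟨κ', hκ', h⟩ := choose4 hκ
    obtain ⟨S, hS⟩ := omega_neg (t := t) (c := c) hD hκ' hk hbk hb2
    exact ⟨S, con_mono hS fun m hm => ⟨hm.1, h _ (by rw [← pow_mul, mul_comm, pow_mul, h4, one_pow])
      hm.2⟩⟩
  by_cases h6 : b ^ 6 = 1
  · obtain ⟨κ', hκ', h⟩ := choose6 hκ
    obtain ⟨S, hS⟩ := omega_neg (t := t) (c := c) hD hκ' hk hbk hb2
    exact ⟨S, con_mono hS fun m hm => ⟨hm.1, h _ (by rw [← pow_mul, mul_comm, pow_mul, h6, one_pow])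
      hm.2⟩⟩
  exact half_big hD hκ hk hbk hb2 h4 h6

end Pool.Agent.W80.GD
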