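import Pool.Agent.W80.GD.Zero
import Pool.Agent.W78.GS.All

/-!
Project GD (helper80): from violating pairs to integers.
-/

set_option autoImplicit false

namespace Pool.Agent.W80.GD

open Finset Filter
open Pool.Agent.W78
open Pool.Agent.W78.GS (Pos Con)
open Pool.Agent.W78.GA (Qd nm prim dt ip NN dedge pball mem_pball mem_dedge)

variable {t c : ℤ}

open scoped Classical in
/-- pairs of determinant one whose product of norms has no large square divisor and satisfies `Q` -/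
noncomputable def Bq (t c : ℤ) (Q : ℕ → Prop) (S : ℕ) (X : ℝ) : Finset (Qd t c × Qd t c) :=
  (dedge t c X).filter (fun e => (∀ q : ℕ, q ^ 2 ∣ NN e → q ≤ S) ∧ Q (NN e))

lemma mem_Bq {Q : ℕ → Prop} {S : ℕ} {X : ℝ} {e : Qd t c × Qd t c} :
    e ∈ Bq t c Q S X ↔ e ∈ dedge t c X ∧ (∀ q : ℕ, q ^ 2 ∣ NN e → q ≤ S) ∧ Q (NN e) := by
  simp [Bq]

/-- from pairs of determinant one to triples -/
theorem pos_of_vio (hD : t ^ 2 < 4 * c) (Q : ℕ → Prop)
    (h : ∃ ε : ℝ, 0 < ε ∧ ∃ X₀ : ℝ, ∀ X : ℝ, X₀ ≤ X → (open scoped Classical in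
      ε * X ≤ (((dedge t c X).filter (fun e => Q (NN e))).card : ℝ))) :
    ∃ S : ℕ, Pos t c (fun m => (∀ q : ℕ, q ^ 2 ∣ m → q ≤ S) ∧ Q m) := by
  classical
  obtain ⟨κ, hκ, X₁, h⟩ := h
  obtain ⟨S, X₂, hS⟩ := GA.sqb hD (κ / 2) (by linarith)
  refine ⟨S, Pool.Agent.W688.GS.pos_of_pairs _ (Bq t c Q S) 6 ?_ ?_
    ⟨κ / 2, max X₁ X₂, by linarith, fun X hX => ?_⟩⟩
  · intro X e he
    obtain ⟨h1, h2, h3⟩ := mem_Bq.1 he
    obtain ⟨g1, g2, g3⟩ := GA.mem_dedge.1 h1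
    obtain ⟨p1, n1⟩ := (GA.mem_pball hD).1 g1
    obtain ⟨p2, n2⟩ := (GA.mem_pball hD).1 g2
    exact ⟨GA.NN_eq hD g3, GA.nm_pos hD (GA.prim_ne_zero p1), n1,
      GA.nm_pos hD (GA.prim_ne_zero p2), n2, h2, h3⟩
  · intro X n d T hT h
    refine Pool.Agent.W29.GA.mult hD n d T fun e he => ?_
    have h1 := (mem_Bq.1 (hT he)).1
    exact ⟨(GA.mem_dedge.1 h1).2.2, h e he⟩
  · have h1 := h X ((le_max_left _ _).trans hX)
    have h2 := hS X ((le_max_right _ _).trans hX)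
    have h3 : (dedge t c X).filter (fun x => Q (NN x)) ⊆
        (dedge t c X).filter (fun e => ∃ q : ℕ, S < q ∧ q ^ 2 ∣ NN e) ∪ Bq t c Q S X := by
      intro x hx
      obtain ⟨hx1, hx2⟩ := mem_filter.1 hx
      by_cases h4 : ∃ q : ℕ, S < q ∧ q ^ 2 ∣ NN x
      · exact mem_union_left _ (mem_filter.2 ⟨hx1, h4⟩)
      · push Not at h4
        refine mem_union_right _ (mem_Bq.2 ⟨hx1, fun q hq => ?_, hx2⟩)
        by_contra h5
        exact h4 q (not_le.1 h5) hq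
    have h4 : (((dedge t c X).filter (fun x => Q (NN x))).card : ℝ) ≤
        (((dedge t c X).filter (fun e => ∃ q : ℕ, S < q ∧ q ^ 2 ∣ NN e)).card : ℝ) +
        ((Bq t c Q S X).card : ℝ) := by
      exact_mod_cast (card_le_card h3).trans (card_union_le _ _)
    linarith

/-- from triples to integers: values with a bounded square factor -/
theorem con_of_pos (hns : ¬ IsSquare (t ^ 2 - 4 * c)) {Q : ℕ → Prop} {S : ℕ}
    (h : Pos t c (fun m => (∀ q : ℕ, q ^ 2 ∣ m → q ≤ S) ∧ Q m)) :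
    Con t c (fun m => (∃ a b : ℕ, 1 ≤ a ∧ a ≤ S ∧ m = a ^ 2 * b ∧ Squarefree b) ∧ Q m) := by
  refine GS.con hns _ (S ^ 2) ?_ ?_
  · rintro m ⟨⟨a, b, ha, haS, rfl, hb⟩, -⟩
    have ha0 : a ≠ 0 := by omega
    have hb0 : b ≠ 0 := hb.ne_zero
    calc (a ^ 2 * b).divisors.card ≤ (a ^ 2).divisors.card * b.divisors.card := by
          exact GS.card_div_mul _ _
      _ ≤ S ^ 2 * 2 ^ (a ^ 2 * b).primeFactors.card := by
          refine Nat.mul_le_mul ?_ ?_
          · exact (Nat.card_divisors_le_self _).trans (Nat.pow_le_pow_left haS 2)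
          · rw [Nat.card_divisors hb0]
            rw [Finset.prod_congr rfl fun p hp => by
              rw [Nat.factorization_eq_one_of_squarefree hb (Nat.prime_of_mem_primeFactors hp)
                (Nat.dvd_of_mem_primeFactors hp)], Finset.prod_const]
            exact Nat.pow_le_pow_right two_pos (card_le_card
              (Nat.primeFactors_mono (Dvd.intro_left _ rfl) (mul_ne_zero (pow_ne_zero 2 ha0) hb0)))
  · refine h.mono fun m hne hm => ?_
    obtain ⟨b, a, hab, hbsq⟩ := Nat.sq_mul_squarefree m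
    have ha0 : a ≠ 0 := by
      rintro rfl
      apply hne
      rw [← hab]; ring
    exact ⟨⟨a, b, Nat.one_le_iff_ne_zero.2 ha0, hm.1 a ⟨b, hab.symm⟩, hab.symm, hbsq⟩, hm.2⟩

/-- the condition on integers -/
def QO (b κ : ℂ) (m : ℕ) : Prop := (κ * b ^ ArithmeticFunction.cardFactors m).re < 1 / 2

lemma exists_sqrt {κ : ℂ} (hκ : ‖κ‖ = 1) : ∃ κ' : ℂ, ‖κ'‖ = 1 ∧ κ' * κ' = κ := by
  refine ⟨Complex.exp ((Complex.arg κ / 2 : ℝ) * Complex.I), Complex.norm_exp_ofReal_mul_I _, ?_⟩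
  rw [← Complex.exp_add]
  have := Complex.norm_mul_exp_arg_mul_I κ
  rw [hκ, Complex.ofReal_one, one_mul] at this
  conv_rhs => rw [← this]
  congr 1
  push_cast
  ring

/-- imaginary quadratic orders: the number of prime factors of the values modulo `k` -/
theorem omega_neg (hD : t ^ 2 < 4 * c) {b κ : ℂ} (hκ : ‖κ‖ = 1) {k : ℕ} (hk : 0 < k)
    (hbk : b ^ k = 1) (hb2 : b ^ 2 ≠ 1) : ∃ S : ℕ,
    Con t c (fun m => (∃ a b : ℕ, 1 ≤ a ∧ a ≤ S ∧ m = a ^ 2 * b ∧ Squarefree b) ∧ QO b κ m) := by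
  classical
  have hns : ¬ IsSquare (t ^ 2 - 4 * c) := by
    rintro ⟨r, hr⟩
    nlinarith [mul_self_nonneg r]
  have hb : ‖b‖ = 1 := by
    have h1 : ‖b‖ ^ k = 1 := by rw [← norm_pow, hbk, norm_one]
    exact (pow_eq_one_iff_of_nonneg (norm_nonneg b) hk.ne').1 h1
  obtain ⟨κ', hκ', hsq⟩ := exists_sqrt hκ
  obtain ⟨ε, hε, X₀, hv⟩ := vio_many (t := t) (c := c) hD hb hκ' hk hbk hb2
  obtain ⟨S, hS⟩ := pos_of_vio hD (QO b κ) ⟨ε, hε, X₀, fun X hX => (hv X hX).trans (by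
    have hsub : vio (fun z : Qd t c => κ' * gb b z) X ⊆
        (dedge t c X).filter (fun e => QO b κ (NN e)) := by
      intro e he
      rw [mem_vio] at he
      obtain ⟨h1, h2⟩ := he
      rw [mem_filter, mem_dedge]
      refine ⟨h1, ?_⟩
      unfold Vi at h2
      unfold QO NN
      have n1 : nm e.1 ≠ 0 := (GA.nm_pos hD (GA.prim_ne_zero ((mem_pball hD).1 h1.1).1)).ne'
      have n2 : nm e.2 ≠ 0 := (GA.nm_pos hD (GA.prim_ne_zero ((mem_pball hD).1 h1.2.1).1)).ne'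
      rw [ArithmeticFunction.cardFactors_mul n1 n2, pow_add, ← hsq]
      have e1 : κ' * gb b e.1 * (κ' * gb b e.2) = κ' * κ' *
          (b ^ ArithmeticFunction.cardFactors (nm e.1) *
            b ^ ArithmeticFunction.cardFactors (nm e.2)) := by
        unfold gb Om
        ring
      rw [← e1]
      exact h2
    exact_mod_cast card_le_card hsub)⟩
  exact ⟨S, con_of_pos hns hS⟩

end Pool.Agent.W80.GD
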