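import Pool.Agent.W78.GA.Basic

/-!
Project GD (helper80): the number of prime factors of `n^2 + t n + c` modulo `k`. Built on project
GA (helper78). Here the Liouville function of the norm is replaced by a complex valued coefficient
function `g`, later `z ↦ b^Ω(N z)` with a root of unity `b`.
-/

set_option autoImplicit false

namespace Pool.Agent.W80.GD

open Finset Filter
open Pool.Agent.H376R2.MR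
open Pool.Agent.W78.GA

variable {t c : ℤ}

/-- admissible coefficient functions -/
structure Cf (g : Qd t c → ℂ) : Prop where
  bd : ∀ z, ‖g z‖ ≤ 1
  even : ∀ z, g (-z) = g z

/-- `G_Y(k) = ∑_{z primitive} g(z) w(log(N z/Y))/N z (z/|z|)^k` -/
noncomputable def GGg (g : Qd t c → ℂ) (Y : ℝ) (k : ℤ) : ℂ :=
  DPG (pball t c (Real.exp 1 * Y)) (fun z => g z * (bg Y z : ℂ)) k

/-- `g` changes by the factor `γ n` under multiplication by `ϖ m / n`, `n ∣ m`; `γ 1` is the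
inverse of `β` -/
structure Inv (g : Qd t c → ℂ) (β : ℂ) (γ : ℕ → ℂ) (M : ℕ → Prop) (ϖ : ℕ → Qd t c) : Prop where
  bd : ∀ n, ‖γ n‖ ≤ 1
  nb : ‖β‖ = 1
  one : β * γ 1 = 1
  eq : ∀ m, M m → ∀ n : ℕ, n ∣ m → ∀ u z : Qd t c, u ≠ 0 → ϖ m * u = (n : Qd t c) * z →
    g u = γ n * g z

/-- MOM0 for `g` -/
def S_MOM0g (g : Qd t c → ℂ) : Prop := ∃ C : ℝ, 0 < C ∧ ∀ (K : ℕ) (Z : ℝ), 3 ≤ Z → 1 ≤ K →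
    ∑ k ∈ FK K, ‖GGg g Z k‖ ^ 2 ≤ C * (1 + (K : ℝ) / Z)

/-- MOM for `g` -/
def S_MOMg (g : Qd t c → ℂ) : Prop := ∀ (Ap Bp M : ℕ → Prop) (E : ℕ) (ρ : ℕ → ℤ)
  (ϖ : ℕ → Qd t c), Ele t c Ap Bp M E ρ ϖ → ∃ C : ℝ, 1 ≤ C ∧ ∀ (H r ℓ K : ℕ) (Z : ℝ), 1 ≤ H →
    3 ≤ Z → 1 ≤ K → (K : ℝ) ≤ Z * Real.exp ((r : ℝ) * ℓ / H) →
    ∑ k ∈ FK K, ‖PE M ϖ H r k ^ ℓ * GGg g Z k‖ ^ 2 ≤ C ^ (ℓ + 1) * (ℓ.factorial : ℝ) ^ 8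

/-- DEC for `g` -/
def S_DECg (g : Qd t c → ℂ) (β : ℂ) (γ : ℕ → ℂ) : Prop := ∀ (Ap Bp M : ℕ → Prop) (E : ℕ)
  (ρ : ℕ → ℤ) (ϖ : ℕ → Qd t c), Ele t c Ap Bp M E ρ ϖ → Inv g β γ M ϖ → ∃ C : ℝ, 0 < C ∧
    ∀ H v₀ v₁ : ℕ, 1 ≤ H →
    H ≤ v₀ → 1 ≤ ∑ v ∈ Ico v₀ v₁, mE M H v → ∀ Y : ℝ, Real.exp (4 * (v₁ : ℝ) / H) ≤ Y →
    ∃ (s : Finset (Qd t c)) (f : Qd t c → ℂ), (∀ z ∈ s, prim z ∧ (nm z : ℝ) ≤ Real.exp 2 * Y) ∧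
      (∀ k : ℤ, Even k → GGg g Y k = -(1 / ((∑ v ∈ Ico v₀ v₁, mE M H v : ℝ) : ℂ)) *
        ∑ v ∈ Ico v₀ v₁, (β * PE M ϖ H v k) * GGg g (Y * Real.exp (-((v : ℝ) / H))) k +
        DPG s f k) ∧
      Y * ∑ z ∈ s, ‖f z‖ ^ 2 ≤ C * (1 / (∑ v ∈ Ico v₀ v₁, mE M H v) + 1 / (H : ℝ) ^ 2)

/-- MR for `g` -/
def S_MRg (g : Qd t c → ℂ) : Prop := ∀ η : ℝ, 0 < η → ∃ h : ℝ, 1 ≤ h ∧ ∃ Y₀ : ℝ, ∀ Y : ℝ, Y₀ ≤ Y →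
  ∑ k ∈ (FK ⌊Y / h⌋₊).erase 0, ‖GGg g Y k‖ ^ 2 ≤ η

end Pool.Agent.W80.GD
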