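import Pool.Agent.W80.GD.Mom0
import Pool.Agent.W78.GA.MR

/-!
Project GD (helper80): the Matomaki-Radziwill theorem for general coefficients. Port of
W78/GA/MR.
-/

set_option autoImplicit false

namespace Pool.Agent.W80.GD

open Finset Filter
open Pool.Agent.H376R2.MR
open Pool.Agent.W78.GA hiding mr_of

variable {t c : ℤ}

theorem mr_of {g : Qd t c → ℂ} {β' : ℂ} {γ : ℕ → ℂ} (hg : Cf g) (hD : t ^ 2 < 4 * c) (hmach : S_MACH)
    {Ap Bp M : ℕ → Prop} {E : ℕ} {ρ : ℕ → ℤ} {ϖ : ℕ → Qd t c} (hE : Ele t c Ap Bp M E ρ ϖ)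
    (hinv : Inv g β' γ M ϖ) (hdec : S_DECg g β' γ)
    (hmom0 : S_MOM0g g) (hmomp : S_MOMP t c) (hmom : S_MOMg g) (hsp : S_SPARSE t c)
    (hls : S_LS t c) (hcell : S_CELLE t c) (hlat : S_LAT t c) : S_MRg g := by
  classical
  refine hmach (fun H v k => β' * PE M ϖ H v k) (mE M) (GGg g) ?_
  have hnP : ∀ H v k, ‖β' * PE M ϖ H v k‖ = ‖PE M ϖ H v k‖ := by
    intro H v k
    rw [norm_mul, hinv.nb, one_mul]
  refine
    { m_nonneg := ?_, P_le := ?_, rich := hE.rich, cell_avg := ?_, dec := ?_,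
      mom_zero := hmom0, momP := ?_, mom := ?_,
      sparse := ?_ }
  · intro H v
    unfold mE
    exact sum_nonneg fun p _ => by positivity
  · intro H v k
    rw [hnP]
    unfold PE mE
    split_ifs with hk
    · rw [norm_neg]
      refine (norm_sum_le _ _).trans (sum_le_sum fun m _ => ?_)
      rw [norm_div, Complex.norm_natCast]
      exact div_le_div_of_nonneg_right (norm_ps_le _ _) (Nat.cast_nonneg _)
    · rw [norm_zero]
      exact sum_nonneg fun p _ => by positivity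
  · simp only [hnP]
    exact hcell Ap Bp M E ρ ϖ hE
  · obtain ⟨C₁, hC₁, h1⟩ := hdec Ap Bp M E ρ ϖ hE hinv
    obtain ⟨C₂, hC₂, h2⟩ := hls
    obtain ⟨β, hβ, C₃, hC₃, Z₀, h3⟩ := hsp
    have he : 0 < Real.exp 2 := Real.exp_pos _
    refine ⟨C₂ * (1 + Real.exp 2) * C₁ + C₃ * C₁, by positivity, β, hβ, Z₀, ?_⟩
    intro H v₀ v₁ hH hHv hW Y hY
    obtain ⟨s, a, hs, hG, ha⟩ := h1 H v₀ v₁ hH hHv hW Y hY
    have hY1 : 1 ≤ Y := by
      refine le_trans ?_ hY
      exact Real.one_le_exp (by positivity)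
    have hY0 : 0 < Y := by linarith
    have hB : 0 ≤ 1 / (∑ v ∈ Ico v₀ v₁, mE M H v) + 1 / (H : ℝ) ^ 2 := by positivity
    have hEle : ∀ k : ℤ, ‖(if Even k then DPG s a k else 0 : ℂ)‖ ^ 2 ≤ ‖DPG s a k‖ ^ 2 := by
      intro k
      split_ifs
      · exact le_rfl
      · rw [norm_zero, zero_pow two_ne_zero]; positivity
    refine ⟨fun k => if Even k then DPG s a k else 0, ?_, ?_, ?_⟩
    · intro k
      by_cases hk : Even k
      · simp only [if_pos hk]
        exact hG k hk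
      · simp only [if_neg hk]
        have hko : Odd k := Int.not_even_iff_odd.1 hk
        rw [GGg_odd hg hD Y hko]
        have : ∑ v ∈ Ico v₀ v₁, (β' * PE M ϖ H v k) *
            GGg g (Y * Real.exp (-((v : ℝ) / H))) k = 0 := by
          refine sum_eq_zero fun v _ => ?_
          rw [GGg_odd hg hD _ hko, mul_zero]
        rw [this]
        simp
    · intro K hK hKY
      have h4 := h2 (Real.exp 2 * Y) K s a (by
        have : 1 ≤ Real.exp 2 := Real.one_le_exp (by norm_num)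
        nlinarith) hK hs
      have h5 : 0 ≤ ∑ z ∈ s, ‖a z‖ ^ 2 := sum_nonneg fun _ _ => by positivity
      calc ∑ k ∈ FK K, ‖(if Even k then DPG s a k else 0 : ℂ)‖ ^ 2
          ≤ ∑ k ∈ FK K, ‖DPG s a k‖ ^ 2 := sum_le_sum fun k _ => hEle k
        _ ≤ C₂ * (K + Real.exp 2 * Y) * ∑ z ∈ s, ‖a z‖ ^ 2 := h4
        _ ≤ C₂ * (Y + Real.exp 2 * Y) * ∑ z ∈ s, ‖a z‖ ^ 2 := by gcongr
        _ = C₂ * (1 + Real.exp 2) * (Y * ∑ z ∈ s, ‖a z‖ ^ 2) := by ring
        _ ≤ C₂ * (1 + Real.exp 2) *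
            (C₁ * (1 / (∑ v ∈ Ico v₀ v₁, mE M H v) + 1 / (H : ℝ) ^ 2)) := by
            gcongr
        _ ≤ _ := by
            have : 0 ≤ C₃ * C₁ * (1 / (∑ v ∈ Ico v₀ v₁, mE M H v) + 1 / (H : ℝ) ^ 2) := by
              positivity
            linarith
    · intro hZ U hU hcard
      have h4 := h3 Y hZ U hU hcard s a (fun z hz =>
        ⟨(one_le_nm hD).2 (prim_ne_zero (hs z hz).1), (hs z hz).2⟩)
      calc ∑ k ∈ U, ‖(if Even k then DPG s a k else 0 : ℂ)‖ ^ 2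
          ≤ ∑ k ∈ U, ‖DPG s a k‖ ^ 2 := sum_le_sum fun k _ => hEle k
        _ ≤ C₃ * Y * ∑ z ∈ s, ‖a z‖ ^ 2 := h4
        _ = C₃ * (Y * ∑ z ∈ s, ‖a z‖ ^ 2) := by ring
        _ ≤ C₃ * (C₁ * (1 / (∑ v ∈ Ico v₀ v₁, mE M H v) + 1 / (H : ℝ) ^ 2)) := by gcongr
        _ ≤ _ := by
            have : 0 ≤ C₂ * (1 + Real.exp 2) * C₁ *
                (1 / (∑ v ∈ Ico v₀ v₁, mE M H v) + 1 / (H : ℝ) ^ 2) := by positivity
            linarith
  · simp only [hnP]
    exact hmomp Ap Bp M E ρ ϖ hE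
  · have h0 : ∀ (H r ℓ : ℕ) (Z : ℝ) (k : ℤ), ‖(β' * PE M ϖ H r k) ^ ℓ * GGg g Z k‖ =
        ‖PE M ϖ H r k ^ ℓ * GGg g Z k‖ := by
      intro H r ℓ Z k
      rw [norm_mul, norm_mul, norm_pow, norm_pow, hnP]
    simp only [h0]
    exact hmom Ap Bp M E ρ ϖ hE
  · obtain ⟨β, hβ, C₃, hC₃, Z₀, h3⟩ := hsp
    obtain ⟨C₄, hC₄, h4⟩ := win_mass hD hlat
    have he2 : 0 < Real.exp 2 := Real.exp_pos _
    refine ⟨C₃ * (Real.exp 2 * C₄), by positivity, β, hβ, max Z₀ (Real.exp 3), ?_⟩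
    intro Z hZ U hU hcard
    have hZ0 : Z₀ ≤ Z := (le_max_left _ _).trans hZ
    have hZ3 : Real.exp 3 ≤ Z := (le_max_right _ _).trans hZ
    have hZpos : 0 < Z := (Real.exp_pos _).trans_le hZ3
    have he12 : Real.exp 1 ≤ Real.exp 2 := Real.exp_le_exp.2 (by norm_num)
    set s := (pball t c (Real.exp 1 * Z)).filter (fun z => bg Z z ≠ 0) with hs
    have hsw : s ⊆ win t c Z := by
      intro z hz
      rw [hs, mem_filter, mem_pball hD] at hz
      have hz0 := prim_ne_zero hz.1.1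
      have h5 := bg_ne hD hZpos hz0 hz.2
      rw [mem_win hD]
      refine ⟨(one_le_nm hD).2 hz0, le_trans ?_ h5.1, h5.2.trans ?_⟩
      · exact div_le_div_of_nonneg_left hZpos.le (Real.exp_pos _) he12
      · exact mul_le_mul_of_nonneg_right he12 hZpos.le
    have hGA : ∀ k : ℤ, GGg g Z k = DPG s (fun z => (g z : ℂ) * (bg Z z : ℂ)) k := by
      intro k
      unfold GGg DPG
      symm
      refine Finset.sum_filter_of_ne fun z _ hne h0 => ?_
      apply hne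
      simp [h0]
    have h5 := h3 Z hZ0 U hU hcard s (fun z => (g z : ℂ) * (bg Z z : ℂ)) (fun z hz => by
      have := hsw hz
      rw [mem_win hD] at this
      exact ⟨this.1, this.2.2⟩)
    have h6 : Z * ∑ z ∈ s, ‖(g z : ℂ) * (bg Z z : ℂ)‖ ^ 2 ≤ Real.exp 2 * C₄ := by
      rw [Finset.mul_sum]
      calc ∑ z ∈ s, Z * ‖(g z : ℂ) * (bg Z z : ℂ)‖ ^ 2
          ≤ ∑ z ∈ s, Real.exp 2 * (1 / (nm z : ℝ)) := by
            refine sum_le_sum fun z hz => ?_
            have hzw := hsw hz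
            rw [mem_win hD] at hzw
            have hn : (0 : ℝ) < nm z := by exact_mod_cast hzw.1
            have h7 : ‖(g z : ℂ) * (bg Z z : ℂ)‖ ≤ 1 / nm z := by
              rw [norm_mul, Complex.norm_real, Real.norm_eq_abs,
                abs_of_nonneg (bg_nonneg _ _)]
              have h8 : ‖g z‖ ≤ 1 := hg.bd z
              calc ‖g z‖ * bg Z z ≤ 1 * (1 / nm z) :=
                    mul_le_mul h8 (bg_le _ _) (bg_nonneg _ _) zero_le_one
                _ = 1 / nm z := one_mul _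
            have h9 : Z ≤ Real.exp 2 * nm z := by
              have := hzw.2.1
              rw [div_le_iff₀ he2] at this
              linarith
            calc Z * ‖(g z : ℂ) * (bg Z z : ℂ)‖ ^ 2 ≤ (Real.exp 2 * nm z) * (1 / nm z) ^ 2 := by
                  gcongr
              _ = Real.exp 2 * (1 / (nm z : ℝ)) := by field_simp
        _ = Real.exp 2 * ∑ z ∈ s, 1 / (nm z : ℝ) := by rw [Finset.mul_sum]
        _ ≤ Real.exp 2 * ∑ z ∈ win t c Z, 1 / (nm z : ℝ) := by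
            gcongr
        _ ≤ Real.exp 2 * C₄ := by
            gcongr
            exact h4 Z hZ3
    calc ∑ k ∈ U, ‖GGg g Z k‖ ^ 2
        = ∑ k ∈ U, ‖DPG s (fun z => (g z : ℂ) * (bg Z z : ℂ)) k‖ ^ 2 := by
          refine sum_congr rfl fun k _ => by rw [hGA k]
      _ ≤ C₃ * Z * ∑ z ∈ s, ‖(g z : ℂ) * (bg Z z : ℂ)‖ ^ 2 := h5
      _ = C₃ * (Z * ∑ z ∈ s, ‖(g z : ℂ) * (bg Z z : ℂ)‖ ^ 2) := by ring
      _ ≤ C₃ * (Real.exp 2 * C₄) := by gcongr



end Pool.Agent.W80.GD
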