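import Pool.Agent.W80.GD.MR
import Pool.Agent.W80.GD.Dec
import Pool.Agent.W586.GA.Mach
import Pool.Agent.W240.GA.LevA
import Pool.Agent.W240.GA.LevB
import Pool.Agent.W397.GA.Cnt
import Pool.Agent.W45.GA.Lat
import Pool.Agent.W322.GA.Red
import Pool.Agent.W322.GA.LatI
import Pool.Agent.W327.GA.LS
import Pool.Agent.W327.GA.Ang1
import Pool.Agent.W397.GA.Ang2
import Pool.Agent.W191.GA.Sparse
import Pool.Agent.W573.GA.Ele
import Pool.Agent.W999.GA.TK
import Pool.Agent.W109.GA.Fin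
import Pool.Agent.W194.GA.Sele
import Pool.Agent.W586.GA.Celle

/-!
Project GD (helper80): the Matomaki-Radziwill theorem for the angles of the primitive elements
with coefficients depending on the number of prime factors of the norm modulo `k`.
-/

set_option autoImplicit false

namespace Pool.Agent.W80.GD

open Finset Filter
open Pool.Agent.H376R2.MR
open Pool.Agent.W78.GA hiding mr_of

variable {t c : ℤ}

/-- the number of prime factors of the norm -/
def Om (z : Qd t c) : ℕ := ArithmeticFunction.cardFactors (nm z)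

/-- `b^Ω(N z)` -/
noncomputable def gb (b : ℂ) (z : Qd t c) : ℂ := b ^ Om z

lemma cf_gb {b : ℂ} (hb : ‖b‖ = 1) : Cf (gb b : Qd t c → ℂ) := by
  constructor
  · intro z
    unfold gb
    rw [norm_pow, hb, one_pow]
  · intro z
    unfold gb Om
    rw [nm_neg]

theorem inv_gb (hD : t ^ 2 < 4 * c) {Ap Bp M : ℕ → Prop} {E : ℕ} {ρ : ℕ → ℤ} {ϖ : ℕ → Qd t c}
    (hE : Ele t c Ap Bp M E ρ ϖ) {b : ℂ} (hb : ‖b‖ = 1) :
    Inv (gb b) (b ^ 2) (fun n => b ^ (2 * (ArithmeticFunction.cardFactors n : ℤ) - 2)) M ϖ := by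
  have hb0 : b ≠ 0 := by
    rintro rfl
    rw [norm_zero] at hb
    norm_num at hb
  refine ⟨?_, ?_, ?_, ?_⟩
  · intro n
    rw [norm_zpow, hb, one_zpow]
  · rw [norm_pow, hb, one_pow]
  · rw [ArithmeticFunction.cardFactors_one]
    simp only [Nat.cast_zero, mul_zero, zero_sub]
    rw [zpow_neg]
    exact mul_inv_cancel₀ (pow_ne_zero 2 hb0)
  · intro m hm n hn u z hu he
    obtain ⟨p, q, hp, hq, hpq, -, -⟩ := hE.fac m hm
    have hpp := (hE.prA p hp).1
    have hqp := (hE.prB q hq).1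
    have hm0 : m ≠ 0 := by rw [hpq]; exact mul_ne_zero hpp.ne_zero hqp.ne_zero
    have hOm : ArithmeticFunction.cardFactors m = 2 := by
      rw [hpq, ArithmeticFunction.cardFactors_mul hpp.ne_zero hqp.ne_zero,
        ArithmeticFunction.cardFactors_apply_prime hpp,
        ArithmeticFunction.cardFactors_apply_prime hqp]
    have hn0 : n ≠ 0 := by
      rintro rfl
      exact hm0 (Nat.eq_zero_of_zero_dvd hn)
    have hnm : m * nm u = n ^ 2 * nm z := by
      have := congrArg nm he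
      rw [nm_mul, nm_mul, nm_natCast, (hE.elt m hm).1] at this
      exact this
    have hu0 : nm u ≠ 0 := (nm_pos hD hu).ne'
    have hz0 : nm z ≠ 0 := by
      intro h
      rw [h, mul_zero] at hnm
      rcases Nat.mul_eq_zero.1 hnm with h1 | h1
      · exact hm0 h1
      · exact hu0 h1
    have hO := congrArg ArithmeticFunction.cardFactors hnm
    rw [ArithmeticFunction.cardFactors_mul hm0 hu0,
      ArithmeticFunction.cardFactors_mul (pow_ne_zero 2 hn0) hz0,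
      ArithmeticFunction.cardFactors_pow, hOm] at hO
    unfold gb Om
    rw [← zpow_natCast, ← zpow_natCast, ← zpow_add₀ hb0]
    congr 1
    omega

theorem lat_all (hD : t ^ 2 < 4 * c) : S_LAT t c := Pool.Agent.W45.GA.lat hD

theorem lati_all (hD : t ^ 2 < 4 * c) : S_LATI t c :=
  Pool.Agent.W322.GA.lati_of hD (lat_all hD) (Pool.Agent.W322.GA.red hD)

/-- the decomposition for `b^Ω(N z)` -/
theorem dec_gb (hD : t ^ 2 < 4 * c) {b : ℂ} (hb : ‖b‖ = 1)
    (β : ℂ) (γ : ℕ → ℂ) : S_DECg (gb b : Qd t c → ℂ) β γ :=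
  dec_of (cf_gb hb) hD (lati_all hD) (Pool.Agent.W999.GA.tk_of hD (lat_all hD) (lati_all hD))

/-- the Matomaki-Radziwill theorem for the coefficient `gb b` -/
theorem mr_gb (hD : t ^ 2 < 4 * c) {b : ℂ} (hb : ‖b‖ = 1) : S_MRg (gb b : Qd t c → ℂ) := by
  have hlat := lat_all hD
  have hlati := lati_all hD
  have hls : S_LS t c := Pool.Agent.W327.GA.ls hD
  have hang : S_ANG t c := Pool.Agent.W397.GA.ang_of (Pool.Agent.W327.GA.ang1 hD)
    (Pool.Agent.W397.GA.ang2 hD)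
  have hangi : S_ANGI t c := Pool.Agent.W322.GA.angi_of hD hang (Pool.Agent.W322.GA.red hD)
  have hsp : S_SPARSE t c := Pool.Agent.W191.GA.sparse_of hD hang hlat
  have hselb : S_SELB t c := Pool.Agent.W109.GA.selb hD
  have hcell : S_CELLE t c := Pool.Agent.W586.GA.celle_of hD
    (Pool.Agent.W194.GA.sele_of hD hangi hlat hselb)
  have hmach : S_MACH := Pool.Agent.W586.GA.mach_of Pool.Agent.W240.GA.leva
    Pool.Agent.W240.GA.levb Pool.Agent.W397.GA.s_cnt Pool.Agent.W586.GA.upart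
  obtain ⟨Ap, Bp, M, E, ρ, ϖ, hE⟩ := Pool.Agent.W573.GA.ele hD
  have hcf : Cf (gb b : Qd t c → ℂ) := cf_gb hb
  exact mr_of hcf hD hmach hE (inv_gb hD hE hb) (dec_gb hD hb _ _)
    (mom0_of hcf hD hls hlat) (Pool.Agent.W822.GA.momp_of hD hls) (mom_of hcf hD hls hlat hlati)
    hsp hls hcell hlat

/-! ### Linear combinations -/

lemma GGg_add (g g' : Qd t c → ℂ) (Y : ℝ) (k : ℤ) :
    GGg (fun z => g z + g' z) Y k = GGg g Y k + GGg g' Y k := by
  unfold GGg DPG
  rw [← Finset.sum_add_distrib]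
  exact Finset.sum_congr rfl fun z _ => by ring

lemma GGg_smul (a : ℂ) (g : Qd t c → ℂ) (Y : ℝ) (k : ℤ) :
    GGg (fun z => a * g z) Y k = a * GGg g Y k := by
  unfold GGg DPG
  rw [Finset.mul_sum]
  exact Finset.sum_congr rfl fun z _ => by ring

lemma GGg_sum {ι : Type*} (s : Finset ι) (g : ι → Qd t c → ℂ) (Y : ℝ) (k : ℤ) :
    GGg (fun z => ∑ i ∈ s, g i z) Y k = ∑ i ∈ s, GGg (g i) Y k := by
  unfold GGg DPG
  rw [Finset.sum_comm]
  refine Finset.sum_congr rfl fun z _ => ?_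
  simp only [Finset.sum_mul]

lemma FK_mono {K K' : ℕ} (h : K ≤ K') : FK K ⊆ FK K' := by
  intro k hk
  unfold FK at hk ⊢
  rw [Finset.mem_Ioo] at hk ⊢
  omega

lemma mr_smul {g : Qd t c → ℂ} (h : S_MRg g) (a : ℂ) : S_MRg (fun z => a * g z) := by
  intro η hη
  have hA : 0 < ‖a‖ ^ 2 + 1 := by positivity
  obtain ⟨h0, hh, Y₀, h1⟩ := h (η / (‖a‖ ^ 2 + 1)) (by positivity)
  refine ⟨h0, hh, Y₀, fun Y hY => ?_⟩
  have h2 := h1 Y hY
  have h3 : ∀ k ∈ (FK ⌊Y / h0⌋₊).erase 0, ‖GGg (fun z => a * g z) Y k‖ ^ 2 =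
      ‖a‖ ^ 2 * ‖GGg g Y k‖ ^ 2 := by
    intro k _
    rw [GGg_smul, norm_mul, mul_pow]
  rw [Finset.sum_congr rfl h3, ← Finset.mul_sum]
  calc ‖a‖ ^ 2 * ∑ k ∈ (FK ⌊Y / h0⌋₊).erase 0, ‖GGg g Y k‖ ^ 2 ≤
      ‖a‖ ^ 2 * (η / (‖a‖ ^ 2 + 1)) := mul_le_mul_of_nonneg_left h2 (by positivity)
    _ ≤ η := by
      rw [mul_div_assoc', div_le_iff₀ hA]
      nlinarith

lemma mr_add {g g' : Qd t c → ℂ} (h : S_MRg g) (h' : S_MRg g') :
    S_MRg (fun z => g z + g' z) := by
  intro η hη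
  obtain ⟨a, ha, Y₀, h1⟩ := h (η / 4) (by positivity)
  obtain ⟨a', ha', Y₀', h1'⟩ := h' (η / 4) (by positivity)
  refine ⟨max a a', ha.trans (le_max_left _ _), max (max Y₀ Y₀') 0, fun Y hY => ?_⟩
  have hY1 : Y₀ ≤ Y := (le_max_left _ _).trans ((le_max_left _ _).trans hY)
  have hY2 : Y₀' ≤ Y := (le_max_right _ _).trans ((le_max_left _ _).trans hY)
  have hY3 : 0 ≤ Y := (le_max_right _ _).trans hY
  have s1 : (FK ⌊Y / max a a'⌋₊).erase 0 ⊆ (FK ⌊Y / a⌋₊).erase 0 :=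
    Finset.erase_subset_erase _ (FK_mono (Nat.floor_mono
      (div_le_div_of_nonneg_left hY3 (by linarith) (le_max_left _ _))))
  have s2 : (FK ⌊Y / max a a'⌋₊).erase 0 ⊆ (FK ⌊Y / a'⌋₊).erase 0 :=
    Finset.erase_subset_erase _ (FK_mono (Nat.floor_mono
      (div_le_div_of_nonneg_left hY3 (by linarith) (le_max_right _ _))))
  have t1 := (Finset.sum_le_sum_of_subset_of_nonneg s1
    (f := fun k => ‖GGg g Y k‖ ^ 2) (fun _ _ _ => by positivity)).trans (h1 Y hY1)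
  have t2 := (Finset.sum_le_sum_of_subset_of_nonneg s2
    (f := fun k => ‖GGg g' Y k‖ ^ 2) (fun _ _ _ => by positivity)).trans (h1' Y hY2)
  have t3 : ∀ k ∈ (FK ⌊Y / max a a'⌋₊).erase 0, ‖GGg (fun z => g z + g' z) Y k‖ ^ 2 ≤
      2 * ‖GGg g Y k‖ ^ 2 + 2 * ‖GGg g' Y k‖ ^ 2 := by
    intro k _
    rw [GGg_add]
    have h3 := pow_le_pow_left₀ (norm_nonneg _) (norm_add_le (GGg g Y k) (GGg g' Y k)) 2
    nlinarith [sq_nonneg (‖GGg g Y k‖ - ‖GGg g' Y k‖)]
  refine (Finset.sum_le_sum t3).trans ?_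
  rw [Finset.sum_add_distrib, ← Finset.mul_sum, ← Finset.mul_sum]
  linarith

lemma mr_sum {ι : Type*} (s : Finset ι) (g : ι → Qd t c → ℂ) (h : ∀ i ∈ s, S_MRg (g i)) :
    S_MRg (fun z => ∑ i ∈ s, g i z) := by
  classical
  induction s using Finset.induction_on with
  | empty =>
    intro η hη
    refine ⟨1, le_rfl, 0, fun Y _ => ?_⟩
    have : ∀ k ∈ (FK ⌊Y / 1⌋₊).erase 0, ‖GGg (fun z : Qd t c => ∑ i ∈ (∅ : Finset ι), g i z) Y k‖ ^ 2
        = 0 := by
      intro k _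
      rw [GGg_sum]
      simp
    rw [Finset.sum_congr rfl this]
    simp [hη.le]
  | insert a s ha ih =>
    have h1 : (fun z : Qd t c => ∑ i ∈ insert a s, g i z) = fun z => g a z + ∑ i ∈ s, g i z := by
      funext z
      rw [Finset.sum_insert ha]
    rw [h1]
    exact mr_add (h a (mem_insert_self _ _)) (ih fun i hi => h i (mem_insert_of_mem hi))

/-- discrete Fourier expansion of a periodic function -/
lemma fourier_per {k : ℕ} (hk : 0 < k) (F : ℕ → ℂ) (hF : ∀ n, F (n + k) = F n) :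
    ∃ (a : ℕ → ℂ) (ζ : ℂ), ‖ζ‖ = 1 ∧ ∀ n, F n = ∑ j ∈ range k, a j * (ζ ^ j) ^ n := by
  have hk0 : k ≠ 0 := hk.ne'
  set ζ : ℂ := Complex.exp (2 * Real.pi * Complex.I / k) with hζ
  have hprim : IsPrimitiveRoot ζ k := Complex.isPrimitiveRoot_exp k hk0
  have hkC : (k : ℂ) ≠ 0 := by exact_mod_cast hk0
  have hmod : ∀ n, F (n % k) = F n := by
    have h0 : ∀ q n, F (n + k * q) = F n := by
      intro q
      induction q with
      | zero => intro n; simp
      | succ q ih =>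
        intro n
        rw [Nat.mul_succ, ← add_assoc, hF, ih]
    intro n
    conv_rhs => rw [← Nat.mod_add_div n k, h0]
  have hζ0 : ζ ≠ 0 := hprim.ne_zero hk0
  refine ⟨fun j => (1 / (k : ℂ)) * ∑ r ∈ range k, F r * (ζ ^ j)⁻¹ ^ r, ζ,
    hprim.norm'_eq_one hk0, fun n => ?_⟩
  have h1 : ∑ j ∈ range k, (1 / (k : ℂ)) * (∑ r ∈ range k, F r * (ζ ^ j)⁻¹ ^ r) * (ζ ^ j) ^ n =
      ∑ r ∈ range k, F r * ((1 / (k : ℂ)) * ∑ j ∈ range k, (ζ⁻¹ ^ r * ζ ^ n) ^ j) := by
    simp_rw [Finset.mul_sum, Finset.sum_mul]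
    rw [Finset.sum_comm]
    refine Finset.sum_congr rfl fun r _ => Finset.sum_congr rfl fun j _ => ?_
    rw [mul_pow, ← pow_mul, ← pow_mul, ← pow_mul, inv_pow, inv_pow, ← pow_mul, mul_comm j r,
      mul_comm j n]
    ring
  rw [h1]
  have h2 : ∀ r ∈ range k, (1 / (k : ℂ)) * ∑ j ∈ range k, (ζ⁻¹ ^ r * ζ ^ n) ^ j =
      if r = n % k then 1 else 0 := by
    intro r hr
    rw [mem_range] at hr
    have hpow : (ζ⁻¹ ^ r * ζ ^ n) ^ k = 1 := by
      rw [mul_pow, ← pow_mul, ← pow_mul, mul_comm r k, mul_comm n k, pow_mul, pow_mul, inv_pow,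
        hprim.pow_eq_one]
      simp
    by_cases hrn : r = n % k
    · rw [if_pos hrn]
      have h3 : ζ⁻¹ ^ r * ζ ^ n = 1 := by
        have h4 : ζ ^ n = ζ ^ r := by
          conv_lhs => rw [← Nat.mod_add_div n k, pow_add, pow_mul, hprim.pow_eq_one, one_pow,
            mul_one, ← hrn]
        rw [h4, inv_pow]
        exact inv_mul_cancel₀ (pow_ne_zero _ hζ0)
      rw [h3]
      simp only [one_pow, Finset.sum_const, card_range, nsmul_eq_mul, mul_one]
      field_simp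
    · rw [if_neg hrn]
      have h3 : ζ⁻¹ ^ r * ζ ^ n ≠ 1 := by
        intro h
        apply hrn
        have h4 : ζ ^ n = ζ ^ r := by
          have h5 : ζ ^ r * (ζ⁻¹ ^ r * ζ ^ n) = ζ ^ n := by
            rw [← mul_assoc, ← mul_pow, mul_inv_cancel₀ hζ0, one_pow, one_mul]
          rw [← h5, h, mul_one]
        have h6 : ζ ^ (n % k) = ζ ^ r := by
          rw [← h4]
          conv_rhs => rw [← Nat.mod_add_div n k, pow_add, pow_mul, hprim.pow_eq_one, one_pow,
            mul_one]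
        exact (hprim.pow_inj (Nat.mod_lt n hk) hr h6).symm
      have h7 := geom_sum_eq h3 k
      rw [h7, hpow]
      simp
  rw [Finset.sum_congr rfl fun r hr => by rw [h2 r hr]]
  simp only [mul_ite, mul_one, mul_zero]
  rw [Finset.sum_ite_eq' (range k) (n % k) F, if_pos (mem_range.2 (Nat.mod_lt n hk)), hmod]

/-- the Matomaki-Radziwill theorem for functions of the number of prime factors modulo `k` -/
theorem mr_per (hD : t ^ 2 < 4 * c) {k : ℕ} (hk : 0 < k) (F : ℕ → ℂ) (hF : ∀ n, F (n + k) = F n) :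
    S_MRg (fun z : Qd t c => F (Om z)) := by
  obtain ⟨a, ζ, hζ, h⟩ := fourier_per hk F hF
  have h1 : (fun z : Qd t c => F (Om z)) =
      fun z => ∑ j ∈ range k, a j * gb (ζ ^ j) z := by
    funext z
    rw [h]
    rfl
  rw [h1]
  refine mr_sum (range k) (fun j z => a j * gb (ζ ^ j) z) fun j _ => mr_smul (mr_gb hD ?_) (a j)
  rw [norm_pow, hζ, one_pow]

end Pool.Agent.W80.GD
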