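import Pool.Agent.W80.GD.Tri
import Pool.Agent.W80.GB.Far

/-!
Project GD (helper80): close pairs of different types give violating pairs of determinant one.
-/

set_option autoImplicit false

namespace Pool.Agent.W80.GD

open Finset Filter
open Pool.Agent.H376R2.MR (FK Fj Fj_le Fj_le_sq)
open Pool.Agent.W78.GA
open Pool.Agent.W803.GA (rd abs_rd_le rd_eq sin_add_two_pi_mul sqrt_disc dt_eq_sin dt_zero
  exists_dt_one)

variable {t c : ℤ}

lemma dt_lc (p q r s : ℕ) (v w : Qd t c) (hdet : p * s = q * r + 1) (h : dt v w = 1) :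
    dt (lc p q v w) (lc r s v w) = 1 := by
  have h1 : dt (lc p q v w) (lc r s v w) = ((p : ℤ) * s - q * r) * dt v w := by
    unfold dt lc
    simp only [QuadraticAlgebra.re_add, QuadraticAlgebra.im_add, QuadraticAlgebra.re_mul,
      QuadraticAlgebra.im_mul, QuadraticAlgebra.re_natCast, QuadraticAlgebra.im_natCast]
    ring
  have h2 : (p : ℤ) * s = q * r + 1 := by exact_mod_cast hdet
  rw [h1, h, h2]
  ring

lemma lc_inv (p q r s : ℕ) (v w : Qd t c) (hdet : p * s = q * r + 1) :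
    v = ((s : ℤ) : Qd t c) * lc p q v w + ((-(q : ℤ) : ℤ) : Qd t c) * lc r s v w ∧
    w = ((-(r : ℤ) : ℤ) : Qd t c) * lc p q v w + ((p : ℤ) : Qd t c) * lc r s v w := by
  have h2 : (p : Qd t c) * s = q * r + 1 := by exact_mod_cast congrArg (Nat.cast (R := Qd t c)) hdet
  unfold lc
  push_cast
  constructor
  · linear_combination (-v) * h2
  · linear_combination (-w) * h2

lemma nm_lc_le (hD : t ^ 2 < 4 * c) (p q : ℕ) (v w : Qd t c) :
    (nm (lc p q v w) : ℝ) ≤ 2 * (p ^ 2 * nm v + q ^ 2 * nm w) := by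
  unfold lc
  have h := nm_add_le hD ((p : Qd t c) * v) ((q : Qd t c) * w)
  rw [nm_mul, nm_mul, nm_natCast, nm_natCast] at h
  push_cast at h
  exact h

/-- a pair of elements of different types with small determinant gives a violating pair -/
theorem near_vio (hD : t ^ 2 < 4 * c) {h : Qd t c → ℂ} (hh : Uf h) {X : ℝ} {D : ℕ} (hDp : 1 ≤ D)
    {z z' : Qd t c}
    (hz : z ∈ pball t c X) (hz' : z' ∈ pball t c X) (hd : 1 ≤ dt z z') (hdD : dt z z' ≤ D)
    (hp : 0 < (h z).re) (hn : (h z').re < 0) :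
    ∃ e ∈ vio h (6 * D ^ 2 * X), ∃ α β γ δ : ℤ, α ∈ Icc (-(2 * D ^ 2 : ℤ)) (2 * D ^ 2) ∧
      β ∈ Icc (-(2 * D ^ 2 : ℤ)) (2 * D ^ 2) ∧ γ ∈ Icc (-(2 * D ^ 2 : ℤ)) (2 * D ^ 2) ∧
      δ ∈ Icc (-(2 * D ^ 2 : ℤ)) (2 * D ^ 2) ∧
      z = (α : Qd t c) * e.1 + (β : Qd t c) * e.2 ∧ z' = (γ : Qd t c) * e.1 + (δ : Qd t c) * e.2 := by
  have hzp := (mem_pball hD).1 hz
  have hzp' := (mem_pball hD).1 hz'
  have hX0 : 0 ≤ X := (Nat.cast_nonneg _).trans hzp.2
  obtain ⟨m, hm⟩ : ∃ m : ℕ, dt z z' = m := ⟨(dt z z').toNat, by omega⟩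
  rw [hm] at hd hdD
  have hm1 : 1 ≤ m := by exact_mod_cast hd
  have hmD : m ≤ D := by exact_mod_cast hdD
  obtain ⟨u0, hu0⟩ := exists_dt_one hzp.1
  have hzz : ∃ a : ℤ, z' = (a : Qd t c) * z + ((m : ℤ) : Qd t c) * u0 := by
    have h1 : dt z (z' - ((m : ℤ) : Qd t c) * u0) = 0 := by
      have : dt z (z' - ((m : ℤ) : Qd t c) * u0) = dt z z' - m * dt z u0 := by
        unfold dt; simp; ring
      rw [this, hu0, hm]; ring
    set q := z' - ((m : ℤ) : Qd t c) * u0 with hq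
    unfold dt at hu0 h1
    set a := q.re * u0.im - q.im * u0.re with ha
    refine ⟨a, ?_⟩
    have e1 : q.re = a * z.re := by rw [ha]; linear_combination (-q.re) * hu0 + u0.re * h1
    have e2 : q.im = a * z.im := by rw [ha]; linear_combination (-q.im) * hu0 + u0.im * h1
    have : q = (a : Qd t c) * z := by
      apply QuadraticAlgebra.ext
      · simp [e1]
      · simp [e2]
    rw [← this, hq]; ring
  obtain ⟨a0, ha0⟩ := hzz
  have hmpos : 0 < (m : ℤ) := by exact_mod_cast hm1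
  obtain ⟨a, ha, ham⟩ : ∃ a : ℕ, (a : ℤ) = a0 % m ∧ a < m := by
    have h1 := Int.emod_nonneg a0 hmpos.ne'
    have h2 := Int.emod_lt_of_pos a0 hmpos
    exact ⟨(a0 % m).toNat, by omega, by omega⟩
  obtain ⟨τ, hτ⟩ : ∃ τ : ℤ, a0 = a + m * τ := ⟨a0 / m, by rw [ha]; exact (Int.emod_add_mul_ediv _ _).symm⟩
  set u := u0 + (τ : Qd t c) * z with hu
  have hdu : dt z u = 1 := by
    have : dt z u = dt z u0 := by rw [hu]; unfold dt; simp; ring
    rw [this, hu0]
  have hup : prim u := (prim_of_dt hdu).2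
  have hz'e : z' = lc a m z u := by
    unfold lc
    rw [ha0, hu, hτ]
    push_cast
    ring
  -- coprimality
  have hcop : Nat.Coprime a m := by
    rw [Nat.coprime_iff_gcd_eq_one]
    set g := Nat.gcd a m with hg
    have g1 : (g : ℤ) ∣ a := by exact_mod_cast Nat.gcd_dvd_left a m
    have g2 : (g : ℤ) ∣ m := by exact_mod_cast Nat.gcd_dvd_right a m
    have hp' := hzp'.1
    unfold prim at hp'
    have k1 : (g : ℤ) ∣ z'.re := by
      rw [hz'e]
      unfold lc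
      simp only [QuadraticAlgebra.re_add, QuadraticAlgebra.re_mul, QuadraticAlgebra.re_natCast,
        QuadraticAlgebra.im_natCast]
      exact dvd_add (dvd_add (g1.mul_right _) (by simp)) (dvd_add (g2.mul_right _) (by simp))
    have k2 : (g : ℤ) ∣ z'.im := by
      rw [hz'e]
      unfold lc
      simp only [QuadraticAlgebra.im_add, QuadraticAlgebra.im_mul, QuadraticAlgebra.re_natCast,
        QuadraticAlgebra.im_natCast]
      have e1 : ((a : ℤ) * z.im + 0 * z.re + t * 0 * z.im) + ((m : ℤ) * u.im + 0 * u.re + t * 0 * u.im)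
        = a * z.im + m * u.im := by ring
      have e2 := dvd_add (g1.mul_right z.im) (g2.mul_right u.im)
      simpa using e2
    have k3 := Int.dvd_coe_gcd k1 k2
    rw [hp'] at k3
    have : g ∣ 1 := by exact_mod_cast k3
    exact Nat.dvd_one.1 this
  -- the norm of `u`
  have hnu : (nm u : ℝ) ≤ 2 * X := by
    have h1 : ((m : ℕ) : Qd t c) * u = z' + (-((a : ℕ) : Qd t c)) * z := by
      rw [hz'e]
      unfold lc
      ring
    have h2 := congrArg nm h1
    rw [nm_mul, nm_natCast] at h2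
    have h3 := nm_add_le hD z' (-((a : ℕ) : Qd t c) * z)
    rw [← h2, nm_mul, nm_neg, nm_natCast] at h3
    push_cast at h3
    have hmR : (1 : ℝ) ≤ m := by exact_mod_cast hm1
    have h4 : (a : ℝ) ^ 2 + 1 ≤ (m : ℝ) ^ 2 := by
      have h5 : (a : ℝ) + 1 ≤ m := by exact_mod_cast ham
      have h6 : (0 : ℝ) ≤ a := Nat.cast_nonneg _
      nlinarith
    have h5 : (a : ℝ) ^ 2 * nm z ≤ (a : ℝ) ^ 2 * X :=
      mul_le_mul_of_nonneg_left hzp.2 (by positivity)
    have h6 : (m : ℝ) ^ 2 * nm u ≤ (m : ℝ) ^ 2 * (2 * X) := by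
      calc (m : ℝ) ^ 2 * nm u ≤ 2 * (nm z' + a ^ 2 * nm z) := h3
        _ ≤ 2 * (X + a ^ 2 * X) := by linarith [hzp'.2]
        _ = (a ^ 2 + 1) * (2 * X) := by ring
        _ ≤ (m : ℝ) ^ 2 * (2 * X) := mul_le_mul_of_nonneg_right h4 (by linarith)
    exact le_of_mul_le_mul_left h6 (by positivity)
  -- the violating pair
  have hFnd : ∃ p q r s : ℕ, p * s = q * r + 1 ∧ p ≤ D ∧ r ≤ D ∧ q ≤ D ∧ s ≤ D ∧
      Vi h (lc p q z u) (lc r s z u) := by
    rcases Nat.eq_zero_or_pos a with h0 | h0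
    · rw [h0, Nat.coprime_zero_left] at hcop
      have hz'u : z' = u := by
        rw [hz'e, h0, hcop]
        unfold lc
        simp
      by_cases H : Vi h z u ∨ Vi h z (z + u) ∨ Vi h (z + u) u
      · obtain ⟨p, q, r, s, f1, f2, f3, f4, f5, f6⟩ := fnd_tri hDp hDp H
        exact ⟨p, q, r, s, f1, f2, f3, f4, f5, f6⟩
      · exfalso
        push Not at H
        obtain ⟨n1, n2, n3⟩ := H
        obtain ⟨_, h2, _⟩ := tri_ok hh n1 n2 n3 (Or.inl hp)
        rw [hz'u] at hn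
        linarith
    · obtain ⟨p, q, r, s, f1, f2, f3, f4, f5, f6⟩ := chain hh (a + m) a m le_rfl h0 hm1 hcop z u
        (Or.inl hp) (by rw [← hz'e]; exact hn)
      exact ⟨p, q, r, s, f1, by omega, by omega, by omega, by omega, f6⟩
  obtain ⟨p, q, r, s, f1, f2, f3, f4, f5, f6⟩ := hFnd
  have hdt := dt_lc p q r s z u f1 hdu
  have hpr := prim_of_dt hdt
  have hD1 : (1 : ℝ) ≤ D := by exact_mod_cast hDp
  have hnm : ∀ x y : ℕ, x ≤ D → y ≤ D → (nm (lc x y z u) : ℝ) ≤ 6 * D ^ 2 * X := by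
    intro x y hx hy
    have hxR : (x : ℝ) ≤ D := by exact_mod_cast hx
    have hyR : (y : ℝ) ≤ D := by exact_mod_cast hy
    have g1 := nm_lc_le hD x y z u
    have g2 : (x : ℝ) ^ 2 * nm z ≤ (D : ℝ) ^ 2 * X :=
      mul_le_mul (pow_le_pow_left₀ (Nat.cast_nonneg _) hxR 2) hzp.2 (Nat.cast_nonneg _)
        (by positivity)
    have g3 : (y : ℝ) ^ 2 * nm u ≤ (D : ℝ) ^ 2 * (2 * X) :=
      mul_le_mul (pow_le_pow_left₀ (Nat.cast_nonneg _) hyR 2) hnu (Nat.cast_nonneg _)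
        (by positivity)
    linarith
  obtain ⟨i1, i2⟩ := lc_inv p q r s z u f1
  have hDZ : (1 : ℤ) ≤ D := by exact_mod_cast hDp
  have hpZ : (p : ℤ) ≤ D := by exact_mod_cast f2
  have hrZ : (r : ℤ) ≤ D := by exact_mod_cast f3
  have hqZ : (q : ℤ) ≤ D := by exact_mod_cast f4
  have hsZ : (s : ℤ) ≤ D := by exact_mod_cast f5
  have haZ : (a : ℤ) ≤ D := by exact_mod_cast (ham.le.trans hmD)
  have hmZ : (m : ℤ) ≤ D := by exact_mod_cast hmD
  have hp0 : (0 : ℤ) ≤ p := by positivity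
  have hq0 : (0 : ℤ) ≤ q := by positivity
  have hr0 : (0 : ℤ) ≤ r := by positivity
  have hs0 : (0 : ℤ) ≤ s := by positivity
  have ha0' : (0 : ℤ) ≤ a := by positivity
  have hm0' : (0 : ℤ) ≤ m := by positivity
  have hmulb : ∀ x y : ℤ, 0 ≤ x → x ≤ D → 0 ≤ y → y ≤ D → 0 ≤ x * y ∧ x * y ≤ (D : ℤ) ^ 2 := by
    intro x y h1 h2 h3 h4
    refine ⟨mul_nonneg h1 h3, ?_⟩
    rw [sq]
    exact mul_le_mul h2 h4 h3 (by linarith)
  have hD2 : (D : ℤ) ≤ (D : ℤ) ^ 2 := by nlinarith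
  refine ⟨(lc p q z u, lc r s z u), ?_, s, -q, a * s - m * r, -(a * q) + m * p, ?_, ?_, ?_, ?_,
    i1, ?_⟩
  · rw [mem_vio]
    exact ⟨⟨(mem_pball hD).2 ⟨hpr.1, hnm p q f2 f4⟩, (mem_pball hD).2 ⟨hpr.2, hnm r s f3 f5⟩, hdt⟩, f6⟩
  · rw [mem_Icc]; constructor <;> linarith
  · rw [mem_Icc]; constructor <;> linarith
  · have k1 := hmulb a s ha0' haZ hs0 hsZ
    have k2 := hmulb m r hm0' hmZ hr0 hrZ
    rw [mem_Icc]; constructor <;> linarith [k1.1, k1.2, k2.1, k2.2]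
  · have k1 := hmulb a q ha0' haZ hq0 hqZ
    have k2 := hmulb m p hm0' hmZ hp0 hpZ
    rw [mem_Icc]; constructor <;> linarith [k1.1, k1.2, k2.1, k2.2]
  · have e1 : z' = ((a : ℕ) : Qd t c) * z + ((m : ℕ) : Qd t c) * u := by rw [hz'e]; rfl
    calc z' = ((a : ℕ) : Qd t c) * z + ((m : ℕ) : Qd t c) * u := e1
      _ = ((a : ℕ) : Qd t c) * (((s : ℤ) : Qd t c) * lc p q z u +
            ((-(q : ℤ) : ℤ) : Qd t c) * lc r s z u) +
          ((m : ℕ) : Qd t c) * (((-(r : ℤ) : ℤ) : Qd t c) * lc p q z u +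
            ((p : ℤ) : Qd t c) * lc r s z u) := by rw [← i1, ← i2]
      _ = _ := by push_cast; ring

/-- the pair of elements with given coordinates with respect to a pair -/
def cmb (x : (Qd t c × Qd t c) × ((ℤ × ℤ) × (ℤ × ℤ))) : Qd t c × Qd t c :=
  ((x.2.1.1 : Qd t c) * x.1.1 + (x.2.1.2 : Qd t c) * x.1.2,
    (x.2.2.1 : Qd t c) * x.1.1 + (x.2.2.2 : Qd t c) * x.1.2)

theorem near_card (hD : t ^ 2 < 4 * c) {h : Qd t c → ℂ} (hh : Uf h) {X : ℝ} {D : ℕ} (hDp : 1 ≤ D)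
    (S : Finset (Qd t c × Qd t c))
    (hS : ∀ e ∈ S, e.1 ∈ pball t c X ∧ e.2 ∈ pball t c X ∧ 0 < (h e.1).re ∧ (h e.2).re < 0 ∧
      |dt e.1 e.2| ≤ D) :
    S.card ≤ (4 * D ^ 2 + 1) ^ 4 * (vio h (6 * D ^ 2 * X)).card := by
  classical
  set I : Finset ℤ := Icc (-(2 * D ^ 2 : ℤ)) (2 * D ^ 2) with hI
  have hIc : I.card = 4 * D ^ 2 + 1 := by
    rw [hI, Int.card_Icc]
    have : (2 * (D : ℤ) ^ 2 + 1 - -(2 * (D : ℤ) ^ 2)) = ((4 * D ^ 2 + 1 : ℕ) : ℤ) := by
      push_cast; ring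
    rw [this, Int.toNat_natCast]
  have hneg : ∀ x ∈ I, -x ∈ I := by
    intro x hx
    rw [hI, mem_Icc] at hx ⊢
    omega
  have hsub : S ⊆ ((vio h (6 * D ^ 2 * X)) ×ˢ ((I ×ˢ I) ×ˢ (I ×ˢ I))).image cmb := by
    intro e he
    obtain ⟨h1, h2, h3, h4, h5⟩ := hS e he
    have hne : dt e.1 e.2 ≠ 0 := by
      intro h0
      have p1 := ((mem_pball hD).1 h1).1
      have p2 := ((mem_pball hD).1 h2).1
      rcases dt_zero p1 p2 h0 with g | g
      · rw [g] at h4; linarith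
      · rw [g, hh.even] at h4; linarith
    have h5' := abs_le.1 h5
    rw [mem_image]
    rcases lt_or_gt_of_ne hne with hlt | hgt
    · have e1 : dt e.1 (-e.2) = - dt e.1 e.2 := by
        unfold dt
        simp
        ring
      have h2' : -e.2 ∈ pball t c X := by
        rw [mem_pball hD] at h2 ⊢
        rw [prim_neg, nm_neg]
        exact h2
      obtain ⟨f, hf, α, β, γ, δ, k1, k2, k3, k4, k5, k6⟩ := near_vio hD hh hDp h1 h2'
        (by rw [e1]; omega) (by rw [e1]; omega) h3 (by rw [hh.even]; exact h4)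
      refine ⟨(f, ((α, β), (-γ, -δ))), ?_, ?_⟩
      · simp only [mem_product]
        exact ⟨hf, ⟨k1, k2⟩, hneg γ k3, hneg δ k4⟩
      · unfold cmb
        refine Prod.ext k5.symm ?_
        simp only
        push_cast
        linear_combination k6
    · obtain ⟨f, hf, α, β, γ, δ, k1, k2, k3, k4, k5, k6⟩ := near_vio hD hh hDp h1 h2
        (by omega) (by omega) h3 h4
      refine ⟨(f, ((α, β), (γ, δ))), ?_, ?_⟩
      · simp only [mem_product]
        exact ⟨hf, ⟨k1, k2⟩, k3, k4⟩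
      · unfold cmb
        exact Prod.ext k5.symm k6.symm
  refine (card_le_card hsub).trans (card_image_le.trans (le_of_eq ?_))
  rw [card_product, card_product, card_product, hIc]
  ring

end Pool.Agent.W80.GD
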