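import Pool.Agent.W80.GD.Near
import Pool.Agent.W78.GA.SC

/-!
Project GD (helper80): the sum of the Fejer kernel over pairs of elements of different types.
-/

set_option autoImplicit false

namespace Pool.Agent.W80.GD

open Finset Filter
open Pool.Agent.H376R2.MR
open Pool.Agent.W78.GA
open Pool.Agent.W803.GA (rd abs_rd_le rd_eq Fj_rd pt_bound sin_add_two_pi_mul sqrt_disc dt_eq_sin
  dt_zero)

variable {t c : ℤ}

/-- the determinant of two elements of close directions -/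
lemma dt_of_close (hD : t ^ 2 < 4 * c) {X δ : ℝ} {z y : Qd t c}
    (hz : z ∈ pball t c X) (hy : y ∈ pball t c X) (hr : |rd (ang z - ang y)| ≤ δ) {D : ℕ}
    (hT : 2 * X * δ ≤ D) : |dt z y| ≤ D := by
  have hzp := (mem_pball hD).1 hz
  have hyp := (mem_pball hD).1 hy
  have hX0 : 0 ≤ X := (Nat.cast_nonneg _).trans hzp.2
  obtain ⟨m, hm⟩ := rd_eq (ang z - ang y)
  have h2 := dt_eq_sin hD z y
  have hs1 := sqrt_disc hD
  have h3 : |Real.sin (ang y - ang z)| ≤ δ := by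
    have h4 : Real.sin (ang y - ang z) = - Real.sin (rd (ang z - ang y)) := by
      rw [hm, sin_add_two_pi_mul, ← Real.sin_neg]
      congr 1; ring
    rw [h4, abs_neg]
    exact (Real.abs_sin_le_abs).trans hr
  have h5 : ‖tc z‖ * ‖tc y‖ ≤ X := by
    rw [norm_tc hD, norm_tc hD]
    have h6 : Real.sqrt (nm z) ≤ Real.sqrt X := Real.sqrt_le_sqrt hzp.2
    have h7 : Real.sqrt (nm y) ≤ Real.sqrt X := Real.sqrt_le_sqrt hyp.2
    have h8 : Real.sqrt X * Real.sqrt X = X := Real.mul_self_sqrt hX0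
    calc _ ≤ Real.sqrt X * Real.sqrt X :=
          mul_le_mul h6 h7 (Real.sqrt_nonneg _) (Real.sqrt_nonneg _)
      _ = _ := h8
  have h9 : |(dt z y : ℝ) * Real.sqrt (4 * c - t ^ 2) / 2| ≤ X * δ := by
    rw [h2, abs_mul, abs_mul, abs_norm, abs_norm]
    exact mul_le_mul h5 h3 (abs_nonneg _) hX0
  rw [abs_div, abs_mul, abs_of_pos (by linarith : 0 < Real.sqrt (4 * (c : ℝ) - t ^ 2))] at h9
  have h10 : |(dt z y : ℝ)| ≤ |(dt z y : ℝ)| * Real.sqrt (4 * (c : ℝ) - t ^ 2) :=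
    le_mul_of_one_le_right (abs_nonneg _) hs1
  have h11 : |(2 : ℝ)| = 2 := by norm_num
  rw [h11] at h9
  have h12 : |(dt z y : ℝ)| ≤ D := by linarith
  have : ((|dt z y| : ℤ) : ℝ) ≤ ((D : ℤ) : ℝ) := by push_cast; exact h12
  exact_mod_cast this

open scoped Classical in
theorem pair_le (hD : t ^ 2 < 4 * c) (hS : S_SECT t c) (hL : S_LAT t c) : ∃ C : ℝ, 0 < C ∧
    ∀ (h : Qd t c → ℂ), Uf h → ∀ (X T : ℝ) (K D : ℕ), 1 ≤ X → 1 ≤ T → 1 ≤ K → 1 ≤ D →
    2 * X * (T / K) ≤ D →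
    ∑ z ∈ pball t c X, ∑ z' ∈ pball t c X,
      (if 0 < (h z).re ∧ (h z').re < 0 then Fj K (ang z - ang z') else 0) ≤
    K * ((4 * D ^ 2 + 1) ^ 4 * ((vio h (6 * D ^ 2 * X)).card : ℝ)) +
      C * (X ^ 2 / T + X * K / T ^ 2) := by
  obtain ⟨C, hC, hfar⟩ := Pool.Agent.W80.GB.far_le hD hS hL
  refine ⟨C, hC, ?_⟩
  intro h hh X T K D hX hT hK hDp hTD
  have hK0 : (0 : ℝ) < K := by exact_mod_cast hK
  have hT0 : 0 < T := by linarith
  have hf := hfar X T K 1 hX hT hK ((one_le_nm hD).1 (by rw [nm_one]))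
  simp only [one_mul] at hf
  have hpt : ∀ z ∈ pball t c X, ∀ z' ∈ pball t c X,
      (if 0 < (h z).re ∧ (h z').re < 0 then Fj K (ang z - ang z') else 0) ≤
      (if (0 < (h z).re ∧ (h z').re < 0) ∧ |rd (ang z - ang z')| ≤ T / K then (K : ℝ) else 0) +
      ∑ j ∈ range (K + 2), (if |rd (ang z - ang z')| ≤ 2 ^ (j + 1) * T / K then
        Real.pi ^ 2 * K / (T ^ 2) * (1 / 4) ^ j else 0) := by
    intro z _ z' _
    have h1 := pt_bound hK hT (abs_rd_le (ang z - ang z'))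
    have h2 : 0 ≤ ∑ j ∈ range (K + 2), (if |rd (ang z - ang z')| ≤ 2 ^ (j + 1) * T / K then
        Real.pi ^ 2 * K / (T ^ 2) * (1 / 4) ^ j else 0) := by
      apply Finset.sum_nonneg
      intro j _
      split_ifs
      · positivity
      · exact le_rfl
    by_cases hg : 0 < (h z).re ∧ (h z').re < 0
    · rw [if_pos hg, Fj_rd]
      refine h1.trans ?_
      apply add_le_add _ le_rfl
      by_cases hn : |rd (ang z - ang z')| ≤ T / K
      · rw [if_pos hn, if_pos ⟨hg, hn⟩]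
      · rw [if_neg hn]
        split_ifs
        · positivity
        · exact le_rfl
    · rw [if_neg hg]
      have : 0 ≤ (if (0 < (h z).re ∧ (h z').re < 0) ∧ |rd (ang z - ang z')| ≤ T / K then
          (K : ℝ) else 0) := by
        split_ifs
        · positivity
        · exact le_rfl
      linarith
  have hnear : ∑ z ∈ pball t c X, ∑ z' ∈ pball t c X,
      (if (0 < (h z).re ∧ (h z').re < 0) ∧ |rd (ang z - ang z')| ≤ T / K then (K : ℝ) else 0) ≤
      K * ((4 * D ^ 2 + 1) ^ 4 * ((vio h (6 * D ^ 2 * X)).card : ℝ)) := by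
    rw [← Finset.sum_product', ← Finset.sum_filter, Finset.sum_const, nsmul_eq_mul, mul_comm]
    apply mul_le_mul_of_nonneg_left _ hK0.le
    have hc := near_card hD hh (X := X) hDp ((pball t c X ×ˢ pball t c X).filter
      (fun p : Qd t c × Qd t c => (0 < (h p.1).re ∧ (h p.2).re < 0) ∧
        |rd (ang p.1 - ang p.2)| ≤ T / K)) (by
        intro e he
        rw [mem_filter, mem_product] at he
        obtain ⟨⟨h1, h2⟩, ⟨h3, h4⟩, h5⟩ := he
        exact ⟨h1, h2, h3, h4, dt_of_close hD h1 h2 h5 hTD⟩)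
    exact_mod_cast hc
  refine (Finset.sum_le_sum fun z hz => Finset.sum_le_sum fun z' hz' => hpt z hz z' hz').trans ?_
  simp only [Finset.sum_add_distrib] at hnear hf ⊢
  linarith

/-! ### The two types -/

open scoped Classical in
/-- indicator of positive real part -/
noncomputable def fP (h : Qd t c → ℂ) (z : Qd t c) : ℝ := if 0 < (h z).re then 1 else 0

open scoped Classical in
/-- indicator of negative real part -/
noncomputable def fN (h : Qd t c → ℂ) (z : Qd t c) : ℝ := if (h z).re < 0 then 1 else 0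

/-- the weight of a real function at the scale `Y` -/
noncomputable def Wt (f : Qd t c → ℝ) (Y : ℝ) : ℝ := ∑ z ∈ pball t c (Real.exp 1 * Y), f z * bg Y z

lemma GGg_big (hD : t ^ 2 < 4 * c) {Y X : ℝ} (hY : 0 < Y) (hX : Real.exp 1 * Y ≤ X)
    (f : Qd t c → ℝ) (k : ℤ) :
    DPG (pball t c X) (fun z => ((f z * bg Y z : ℝ) : ℂ)) k = GGg (fun z => (f z : ℂ)) Y k := by
  unfold GGg DPG
  symm
  refine Finset.sum_subset_zero_on_sdiff ?_ ?_ ?_
  · intro z hz
    rw [mem_pball hD] at hz ⊢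
    exact ⟨hz.1, hz.2.trans hX⟩
  · intro z hz
    rw [Finset.mem_sdiff, mem_pball hD, mem_pball hD] at hz
    have h0 : bg Y z = 0 := by
      by_contra hne
      exact hz.2 ⟨hz.1.1, (bg_ne hD hY (prim_ne_zero hz.1.1) hne).2⟩
    simp [h0]
  · intro z _
    push_cast
    ring

lemma GGg_zero_re (f : Qd t c → ℝ) (Y : ℝ) : GGg (fun z => (f z : ℂ)) Y 0 = (Wt f Y : ℂ) := by
  unfold GGg DPG Wt
  push_cast
  refine Finset.sum_congr rfl fun z _ => ?_
  rw [ps_zero]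
  ring

/-- the product of the weights is bounded by the sum over close pairs -/
theorem prod_le (hD : t ^ 2 < 4 * c) (f g : Qd t c → ℝ) {Y Y' X η : ℝ} (hY : 0 < Y) (hY' : 0 < Y')
    (hX : Real.exp 1 * Y ≤ X) (hX' : Real.exp 1 * Y' ≤ X) {K : ℕ} (hK : 1 ≤ K)
    (h1 : ∑ k ∈ (FK K).erase 0, ‖GGg (fun z => (f z : ℂ)) Y k‖ ^ 2 ≤ η)
    (h2 : ∑ k ∈ (FK K).erase 0, ‖GGg (fun z => (g z : ℂ)) Y' k‖ ^ 2 ≤ η) :
    Wt f Y * Wt g Y' ≤ ∑ z ∈ pball t c X, ∑ z' ∈ pball t c X,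
      (f z * bg Y z) * (g z' * bg Y' z') * Fj K (ang z - ang z') + η := by
  have h3 := dsum_eq hD (pball t c X) (fun z hz => pball_ne hD hz) (fun z => f z * bg Y z)
    (fun z => g z * bg Y' z) (u := 1) ((one_le_nm hD).1 (by rw [nm_one])) K
  simp only [one_mul] at h3
  rw [h3]
  have hps1 : ∀ k : ℤ, ps k (1 : Qd t c) = 1 := by
    intro k
    have := ps_natCast (t := t) (c := c) (n := 1) one_pos k
    simpa using this
  have h4 : ∀ k ∈ FK K, (1 - |(k : ℝ)| / K) * ((DPG (pball t c X) (fun z => ((f z * bg Y z : ℝ) : ℂ)) k) *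
      (starRingEnd ℂ) (DPG (pball t c X) (fun z => ((g z * bg Y' z : ℝ) : ℂ)) k) *
      (starRingEnd ℂ) (ps k (1 : Qd t c))).re = (1 - |(k : ℝ)| / K) *
      (GGg (fun z => (f z : ℂ)) Y k * (starRingEnd ℂ) (GGg (fun z => (g z : ℂ)) Y' k)).re := by
    intro k _
    rw [GGg_big hD hY hX, GGg_big hD hY' hX', hps1, map_one, mul_one]
  rw [Finset.sum_congr rfl h4]
  have hKpos : (0 : ℝ) < K := by exact_mod_cast hK
  have h0 : (0 : ℤ) ∈ FK K := by
    rw [FK, Finset.mem_Ioo]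
    omega
  rw [← Finset.add_sum_erase _ _ h0]
  have h5 : (1 - |((0 : ℤ) : ℝ)| / K) *
      (GGg (fun z => (f z : ℂ)) Y 0 * (starRingEnd ℂ) (GGg (fun z => (g z : ℂ)) Y' 0)).re =
      Wt f Y * Wt g Y' := by
    rw [GGg_zero_re, GGg_zero_re, Complex.conj_ofReal, ← Complex.ofReal_mul, Complex.ofReal_re]
    simp
  rw [h5]
  have h6 : ∀ k ∈ (FK K).erase 0, -((1 / 2) * ‖GGg (fun z => (f z : ℂ)) Y k‖ ^ 2 +
      (1 / 2) * ‖GGg (fun z => (g z : ℂ)) Y' k‖ ^ 2) ≤ (1 - |(k : ℝ)| / K) *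
      (GGg (fun z => (f z : ℂ)) Y k * (starRingEnd ℂ) (GGg (fun z => (g z : ℂ)) Y' k)).re := by
    intro k hk
    rw [mem_erase, FK, Finset.mem_Ioo] at hk
    have hw0 : 0 ≤ 1 - |(k : ℝ)| / K := by
      rw [sub_nonneg, div_le_one hKpos]
      rw [abs_le]
      constructor
      · have : ((-(K : ℤ) : ℤ) : ℝ) < (k : ℝ) := by exact_mod_cast hk.2.1
        push_cast at this
        linarith
      · have : (k : ℝ) < ((K : ℤ) : ℝ) := by exact_mod_cast hk.2.2
        push_cast at this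
        linarith
    have hw1 : 1 - |(k : ℝ)| / K ≤ 1 := by
      have : 0 ≤ |(k : ℝ)| / K := by positivity
      linarith
    set a := GGg (fun z => (f z : ℂ)) Y k
    set b := GGg (fun z => (g z : ℂ)) Y' k
    have h7 : |(a * (starRingEnd ℂ) b).re| ≤ ‖a‖ * ‖b‖ := by
      refine (Complex.abs_re_le_norm _).trans (le_of_eq ?_)
      rw [norm_mul, Complex.norm_conj]
    have h8 : ‖a‖ * ‖b‖ ≤ (1 / 2) * ‖a‖ ^ 2 + (1 / 2) * ‖b‖ ^ 2 := by
      nlinarith [sq_nonneg (‖a‖ - ‖b‖)]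
    have h9 : |(1 - |(k : ℝ)| / K) * (a * (starRingEnd ℂ) b).re| ≤
        (1 / 2) * ‖a‖ ^ 2 + (1 / 2) * ‖b‖ ^ 2 := by
      rw [abs_mul, abs_of_nonneg hw0]
      calc _ ≤ 1 * |(a * (starRingEnd ℂ) b).re| := mul_le_mul_of_nonneg_right hw1 (abs_nonneg _)
        _ ≤ _ := by rw [one_mul]; exact h7.trans h8
    exact (abs_le.1 h9).1
  have h7 := Finset.sum_le_sum h6
  rw [Finset.sum_neg_distrib, Finset.sum_add_distrib, ← Finset.mul_sum, ← Finset.mul_sum] at h7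
  linarith

/-- the weights of the two types cannot both be large if there are few violating pairs -/
theorem pn_le (hD : t ^ 2 < 4 * c) (hS : S_SECT t c) (hL : S_LAT t c) {h : Qd t c → ℂ} (hh : Uf h)
    (hP : S_MRg (fun z => ((fP h z : ℝ) : ℂ))) (hN : S_MRg (fun z => ((fN h z : ℝ) : ℂ)))
    {η : ℝ} (hη : 0 < η) {R : ℝ} (hR : 1 ≤ R) :
    ∃ ε : ℝ, 0 < ε ∧ ∃ C₁ : ℝ, 1 ≤ C₁ ∧ ∃ Y₀ : ℝ, 1 ≤ Y₀ ∧ ∀ Y : ℝ, Y₀ ≤ Y →
      ((vio h (C₁ * Y)).card : ℝ) ≤ ε * Y → ∀ Y₁ Y₂ : ℝ, Y / R ≤ Y₁ → Y₁ ≤ Y → Y / R ≤ Y₂ →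
      Y₂ ≤ Y → Wt (fP h) Y₁ * Wt (fN h) Y₂ ≤ η := by
  classical
  obtain ⟨C, hC, hpair⟩ := pair_le hD hS hL
  obtain ⟨a₁, ha₁, YP, hmP⟩ := hP (η / 4) (by positivity)
  obtain ⟨a₂, ha₂, YN, hmN⟩ := hN (η / 4) (by positivity)
  set a : ℝ := max a₁ a₂ with ha
  have ha1 : 1 ≤ a := ha₁.trans (le_max_left _ _)
  have ha0 : 0 < a := by linarith
  have hR0 : 0 < R := by linarith
  set e : ℝ := Real.exp 1 with he
  have he0 : 0 < e := Real.exp_pos 1
  have he1 : 1 ≤ e := Real.one_le_exp zero_le_one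
  set T : ℝ := 4 * (e ^ 2 * R ^ 2 * C * (e ^ 2 + e)) / η + 1 with hT
  have hT1 : 1 ≤ T := by
    rw [hT]
    have : 0 ≤ 4 * (e ^ 2 * R ^ 2 * C * (e ^ 2 + e)) / η := by positivity
    linarith
  have hT0 : 0 < T := by linarith
  obtain ⟨D, hDD⟩ := exists_nat_ge (4 * e * R * a * T + 1)
  have hD1 : 1 ≤ D := by
    have : (1 : ℝ) ≤ D := le_trans (by
      have : 0 ≤ 4 * e * R * a * T := by positivity
      linarith) hDD
    exact_mod_cast this
  set L : ℝ := (4 * (D : ℝ) ^ 2 + 1) ^ 4 with hLdef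
  have hL0 : 0 < L := by positivity
  have hDR : (1 : ℝ) ≤ D := by exact_mod_cast hD1
  refine ⟨η / (4 * (e ^ 2 * R ^ 2 * L)), by positivity, 6 * (D : ℝ) ^ 2 * e, ?_,
    max 1 (R * (|YP| + |YN| + 2 * a)), le_max_left _ _, ?_⟩
  · nlinarith [one_le_pow₀ hDR (n := 2)]
  intro Y hY hvio Y₁ Y₂ h1 h2 h3 h4
  have hY1 : 1 ≤ Y := (le_max_left _ _).trans hY
  have hY0 : 0 < Y := by linarith
  have hYb : R * (|YP| + |YN| + 2 * a) ≤ Y := (le_max_right _ _).trans hY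
  have hYR : |YP| + |YN| + 2 * a ≤ Y / R := by
    rw [le_div_iff₀ hR0]; linarith
  have hYR0 : 0 < Y / R := by positivity
  have hY₁0 : 0 < Y₁ := lt_of_lt_of_le hYR0 h1
  have hY₂0 : 0 < Y₂ := lt_of_lt_of_le hYR0 h3
  have hPY : YP ≤ Y₁ := by
    have := le_abs_self YP
    have := abs_nonneg YN
    linarith
  have hNY : YN ≤ Y₂ := by
    have := le_abs_self YN
    have := abs_nonneg YP
    linarith
  set K : ℕ := ⌊Y / R / a⌋₊ with hK
  have hKa : 2 ≤ Y / R / a := by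
    rw [le_div_iff₀ ha0]
    have := abs_nonneg YP
    have := abs_nonneg YN
    linarith
  have hK1 : (K : ℝ) ≤ Y / R / a := Nat.floor_le (by positivity)
  have hK2 : Y / R / a - 1 < K := Nat.sub_one_lt_floor _
  have hK3 : Y / (2 * R * a) ≤ K := by
    have : Y / (2 * R * a) = (Y / R / a) / 2 := by field_simp
    rw [this]
    linarith
  have hKpos : (0 : ℝ) < K := lt_of_lt_of_le (by positivity) hK3
  have hKn : 1 ≤ K := by exact_mod_cast hKpos
  have hKY : (K : ℝ) ≤ Y := by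
    refine hK1.trans ((div_le_self hYR0.le ha1).trans (div_le_self hY0.le hR))
  have hfl : ∀ Y' a' : ℝ, Y / R ≤ Y' → 1 ≤ a' → a' ≤ a → FK K ⊆ FK ⌊Y' / a'⌋₊ := by
    intro Y' a' hY' ha' haa
    apply FK_mono
    rw [hK]
    apply Nat.floor_mono
    exact div_le_div₀ (hYR0.le.trans hY') hY' (by linarith) haa
  have hm1 : ∑ k ∈ (FK K).erase 0, ‖GGg (fun z => ((fP h z : ℝ) : ℂ)) Y₁ k‖ ^ 2 ≤ η / 4 :=
    (Finset.sum_le_sum_of_subset_of_nonneg (Finset.erase_subset_erase _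
      (hfl Y₁ a₁ h1 ha₁ (le_max_left _ _))) (fun _ _ _ => by positivity)).trans (hmP Y₁ hPY)
  have hm2 : ∑ k ∈ (FK K).erase 0, ‖GGg (fun z => ((fN h z : ℝ) : ℂ)) Y₂ k‖ ^ 2 ≤ η / 4 :=
    (Finset.sum_le_sum_of_subset_of_nonneg (Finset.erase_subset_erase _
      (hfl Y₂ a₂ h3 ha₂ (le_max_right _ _))) (fun _ _ _ => by positivity)).trans (hmN Y₂ hNY)
  set X : ℝ := e * Y with hX
  have hX1 : 1 ≤ X := by rw [hX]; nlinarith
  have hX0 : 0 < X := by linarith
  have hprod := prod_le hD (fP h) (fN h) hY₁0 hY₂0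
    (mul_le_mul_of_nonneg_left h2 he0.le : Real.exp 1 * Y₁ ≤ X)
    (mul_le_mul_of_nonneg_left h4 he0.le : Real.exp 1 * Y₂ ≤ X) hKn hm1 hm2
  have hTD : 2 * X * (T / K) ≤ D := by
    have h5 : T / K ≤ T * (2 * R * a) / Y := by
      rw [div_le_div_iff₀ hKpos hY0]
      rw [div_le_iff₀ (by positivity)] at hK3
      nlinarith
    calc 2 * X * (T / K) ≤ 2 * X * (T * (2 * R * a) / Y) :=
          mul_le_mul_of_nonneg_left h5 (by positivity)
      _ = 4 * e * R * a * T := by rw [hX]; field_simp; ring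
      _ ≤ D := by linarith
  have hpr := hpair h hh X T K D hX1 hT1 hKn hD1 hTD
  have hXv : 6 * (D : ℝ) ^ 2 * X = 6 * (D : ℝ) ^ 2 * e * Y := by rw [hX]; ring
  rw [hXv] at hpr
  -- the sum with weights
  have hsum : ∑ z ∈ pball t c X, ∑ z' ∈ pball t c X,
      (fP h z * bg Y₁ z) * (fN h z' * bg Y₂ z') * Fj K (ang z - ang z') ≤
      (e * R / Y) ^ 2 * ∑ z ∈ pball t c X, ∑ z' ∈ pball t c X,
        (if 0 < (h z).re ∧ (h z').re < 0 then Fj K (ang z - ang z') else 0) := by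
    rw [Finset.mul_sum]
    refine Finset.sum_le_sum fun z hz => ?_
    rw [Finset.mul_sum]
    refine Finset.sum_le_sum fun z' hz' => ?_
    have hF := Fj_nonneg K (ang z - ang z')
    have hb1 : bg Y₁ z ≤ e * R / Y := by
      refine (bg_le' hD hY₁0 (pball_ne hD hz)).trans ?_
      rw [div_le_div_iff₀ hY₁0 hY0]
      rw [div_le_iff₀ hR0] at h1
      nlinarith
    have hb2 : bg Y₂ z' ≤ e * R / Y := by
      refine (bg_le' hD hY₂0 (pball_ne hD hz')).trans ?_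
      rw [div_le_div_iff₀ hY₂0 hY0]
      rw [div_le_iff₀ hR0] at h3
      nlinarith
    have hb10 := bg_nonneg Y₁ z
    have hb20 := bg_nonneg Y₂ z'
    unfold fP fN
    by_cases g1 : 0 < (h z).re
    · by_cases g2 : (h z').re < 0
      · rw [if_pos g1, if_pos g2, if_pos ⟨g1, g2⟩, one_mul, one_mul]
        apply mul_le_mul_of_nonneg_right _ hF
        rw [sq]
        exact mul_le_mul hb1 hb2 hb20 (hb10.trans hb1)
      · simp [g2]
    · simp [g1]
  have hfinal : (e * R / Y) ^ 2 * (K * (L * ((vio h (6 * (D : ℝ) ^ 2 * e * Y)).card : ℝ)) +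
      C * (X ^ 2 / T + X * K / T ^ 2)) ≤ η / 2 := by
    have g1 : (K : ℝ) * (L * ((vio h (6 * (D : ℝ) ^ 2 * e * Y)).card : ℝ)) ≤
        Y * (L * (η / (4 * (e ^ 2 * R ^ 2 * L)) * Y)) := by
      apply mul_le_mul hKY _ (by positivity) hY0.le
      exact mul_le_mul_of_nonneg_left hvio hL0.le
    have g2 : X ^ 2 / T + X * K / T ^ 2 ≤ (e ^ 2 + e) * Y ^ 2 / T := by
      have g3 : X * K / T ^ 2 ≤ X * Y / T := by
        rw [div_le_div_iff₀ (by positivity) hT0]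
        have g4 : X * K * T ≤ X * Y * T := by
          apply mul_le_mul_of_nonneg_right _ hT0.le
          exact mul_le_mul_of_nonneg_left hKY hX0.le
        have g5 : X * Y * T ≤ X * Y * T ^ 2 := by
          apply mul_le_mul_of_nonneg_left _ (by positivity)
          nlinarith
        linarith
      calc X ^ 2 / T + X * K / T ^ 2 ≤ X ^ 2 / T + X * Y / T := by linarith
        _ = (e ^ 2 + e) * Y ^ 2 / T := by rw [hX]; ring
    have g3 : e ^ 2 * R ^ 2 * C * (e ^ 2 + e) / T ≤ η / 4 := by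
      rw [div_le_iff₀ hT0, hT]
      have : 0 ≤ η / 4 := by positivity
      have e1 : η / 4 * (4 * (e ^ 2 * R ^ 2 * C * (e ^ 2 + e)) / η + 1) =
          e ^ 2 * R ^ 2 * C * (e ^ 2 + e) + η / 4 := by field_simp
      rw [e1]
      linarith
    calc (e * R / Y) ^ 2 * (K * (L * ((vio h (6 * (D : ℝ) ^ 2 * e * Y)).card : ℝ)) +
          C * (X ^ 2 / T + X * K / T ^ 2))
        ≤ (e * R / Y) ^ 2 * (Y * (L * (η / (4 * (e ^ 2 * R ^ 2 * L)) * Y)) +
          C * ((e ^ 2 + e) * Y ^ 2 / T)) := by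
          apply mul_le_mul_of_nonneg_left _ (by positivity)
          exact add_le_add g1 (mul_le_mul_of_nonneg_left g2 hC.le)
      _ = η / 4 + e ^ 2 * R ^ 2 * C * (e ^ 2 + e) / T := by
          field_simp
      _ ≤ η / 2 := by linarith
  have hc := mul_le_mul_of_nonneg_left hpr (by positivity : 0 ≤ (e * R / Y) ^ 2)
  linarith

end Pool.Agent.W80.GD
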