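import Pool.Agent.W80.GD.Near

/-!
Project GD (helper80): the sign of a triangle of the Farey graph whose products have positive real
part, and the Euclidean algorithm.
-/

set_option autoImplicit false

namespace Pool.Agent.W80.GD

open Finset Filter
open Pool.Agent.W78.GA
open Pool.Agent.W803.GA (rd abs_rd_le rd_eq sin_add_two_pi_mul sqrt_disc dt_eq_sin dt_zero
  exists_dt_one)

variable {t c : ℤ}

/-- the angle of the first of three numbers -/
noncomputable def al (x y z : ℂ) : ℝ :=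
  (Complex.arg (x * y) + Complex.arg (x * z) - Complex.arg (y * z)) / 2

/-- the triangle is positive -/
def Sg (x y z : ℂ) : Prop := x = Complex.exp (al x y z * Complex.I)

/-- three unit numbers whose products have positive real part -/
structure Ok3 (x y z : ℂ) : Prop where
  hx : ‖x‖ = 1
  hy : ‖y‖ = 1
  hz : ‖z‖ = 1
  h1 : 0 < (x * y).re
  h2 : 0 < (x * z).re
  h3 : 0 < (y * z).re

lemma Ok3.swap {x y z : ℂ} (h : Ok3 x y z) : Ok3 y x z :=
  ⟨h.hy, h.hx, h.hz, by rw [mul_comm]; exact h.h1, h.h3, h.h2⟩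

lemma Ok3.rot {x y z : ℂ} (h : Ok3 x y z) : Ok3 x z y :=
  ⟨h.hx, h.hz, h.hy, h.h2, h.h1, by rw [mul_comm]; exact h.h3⟩

lemma exp_arg {x : ℂ} (hx : ‖x‖ = 1) : x = Complex.exp (Complex.arg x * Complex.I) := by
  have := Complex.norm_mul_exp_arg_mul_I x
  rw [hx, Complex.ofReal_one, one_mul] at this
  exact this.symm

lemma al_lt {x y z : ℂ} (h : Ok3 x y z) : |al x y z| < 3 * Real.pi / 4 := by
  have a1 := Complex.abs_arg_lt_pi_div_two_iff.2 (Or.inl h.h1)
  have a2 := Complex.abs_arg_lt_pi_div_two_iff.2 (Or.inl h.h2)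
  have a3 := Complex.abs_arg_lt_pi_div_two_iff.2 (Or.inl h.h3)
  have b1 := abs_lt.1 a1
  have b2 := abs_lt.1 a2
  have b3 := abs_lt.1 a3
  unfold al
  rw [abs_lt]
  constructor <;> linarith

lemma ne_zero_of_unit {x : ℂ} (hx : ‖x‖ = 1) : x ≠ 0 := by
  rintro rfl
  rw [norm_zero] at hx
  norm_num at hx

lemma exp_al_sq {x y z : ℂ} (h : Ok3 x y z) :
    x ^ 2 = Complex.exp (al x y z * Complex.I) ^ 2 := by
  have e1 := exp_arg (x := x * y) (by rw [norm_mul, h.hx, h.hy, one_mul])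
  have e2 := exp_arg (x := x * z) (by rw [norm_mul, h.hx, h.hz, one_mul])
  have e3 := exp_arg (x := y * z) (by rw [norm_mul, h.hy, h.hz, one_mul])
  have h4 : x ^ 2 * (y * z) = (x * y) * (x * z) := by ring
  have h5 : Complex.exp (al x y z * Complex.I) ^ 2 * (y * z) = (x * y) * (x * z) := by
    rw [e1, e2, e3, ← Complex.exp_nat_mul, ← Complex.exp_add, ← Complex.exp_add]
    congr 1
    unfold al
    push_cast
    ring
  rw [← h5] at h4
  exact mul_right_cancel₀ (mul_ne_zero (ne_zero_of_unit h.hy) (ne_zero_of_unit h.hz)) h4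

lemma sg_or {x y z : ℂ} (h : Ok3 x y z) :
    Sg x y z ∨ x = -Complex.exp (al x y z * Complex.I) := by
  exact sq_eq_sq_iff_eq_or_eq_neg.1 (exp_al_sq h)

lemma al_swap (x y z : ℂ) : al x y z + al y x z = Complex.arg (x * y) := by
  unfold al
  rw [mul_comm y x]
  ring

lemma al_rot (x y z : ℂ) : al x z y = al x y z := by
  unfold al
  rw [mul_comm z y]
  ring

lemma sg_rot {x y z : ℂ} : Sg x y z → Sg x z y := by
  unfold Sg
  rw [al_rot]
  exact id

lemma sg_swap {x y z : ℂ} (h : Ok3 x y z) (H : Sg x y z) : Sg y x z := by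
  unfold Sg at *
  have e1 := exp_arg (x := x * y) (by rw [norm_mul, h.hx, h.hy, one_mul])
  apply mul_left_cancel₀ (ne_zero_of_unit h.hx)
  rw [e1]
  calc Complex.exp (Complex.arg (x * y) * Complex.I) =
      Complex.exp (al x y z * Complex.I) * Complex.exp (al y x z * Complex.I) := by
        rw [← Complex.exp_add, ← al_swap x y z]
        congr 1
        push_cast
        ring
    _ = x * Complex.exp (al y x z * Complex.I) := by rw [← H]

/-- adjacent triangles have the same sign -/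
lemma sg_adj {x y z z' : ℂ} (h : Ok3 x y z) (h' : Ok3 x y z') (H : Sg x y z) : Sg x y z' := by
  rcases sg_or h' with H' | H'
  · exact H'
  · exfalso
    unfold Sg at H
    have a2 := abs_lt.1 (Complex.abs_arg_lt_pi_div_two_iff.2 (Or.inl h.h2))
    have a3 := abs_lt.1 (Complex.abs_arg_lt_pi_div_two_iff.2 (Or.inl h.h3))
    have b2 := abs_lt.1 (Complex.abs_arg_lt_pi_div_two_iff.2 (Or.inl h'.h2))
    have b3 := abs_lt.1 (Complex.abs_arg_lt_pi_div_two_iff.2 (Or.inl h'.h3))
    have hd : |al x y z - al x y z'| < Real.pi := by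
      unfold al
      rw [abs_lt]
      constructor <;> linarith
    have he : Complex.exp (((al x y z - al x y z' : ℝ) : ℂ) * Complex.I) = -1 := by
      have h1 : Complex.exp (al x y z * Complex.I) = -Complex.exp (al x y z' * Complex.I) := by
        rw [← H]; exact H'
      have h2 : ((al x y z - al x y z' : ℝ) : ℂ) * Complex.I =
          al x y z * Complex.I - al x y z' * Complex.I := by push_cast; ring
      rw [h2, Complex.exp_sub, h1, neg_div, div_self (Complex.exp_ne_zero _)]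
    have hc : Real.cos (al x y z - al x y z') = -1 := by
      have := congrArg Complex.re he
      rw [Complex.exp_ofReal_mul_I_re] at this
      simpa using this
    have hb := abs_lt.1 hd
    have hc2 : Real.cos (al x y z - al x y z') ≠ -1 := by
      intro h0
      rw [Real.cos_eq_neg_one_iff] at h0
      obtain ⟨n, hn⟩ := h0
      have hpi := Real.pi_pos
      have h3 : (-1 : ℝ) < 1 + 2 * n := by
        by_contra hcon
        push Not at hcon
        nlinarith
      have h4 : (1 : ℝ) + 2 * n < 1 := by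
        by_contra hcon
        push Not at hcon
        nlinarith
      have h5 : (-1 : ℤ) < 1 + 2 * n := by exact_mod_cast h3
      have h6 : (1 : ℤ) + 2 * n < 1 := by exact_mod_cast h4
      omega
    exact hc2 hc

lemma cos_gt {θ : ℝ} (h : |θ| < 3 * Real.pi / 4) : -(Real.sqrt 2 / 2) < Real.cos θ := by
  have h1 : Real.cos (3 * Real.pi / 4) < Real.cos |θ| :=
    Real.cos_lt_cos_of_nonneg_of_le_pi (abs_nonneg _) (by have := Real.pi_pos; linarith) h
  have h2 : Real.cos (3 * Real.pi / 4) = -(Real.sqrt 2 / 2) := by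
    have : 3 * Real.pi / 4 = Real.pi - Real.pi / 4 := by ring
    rw [this, Real.cos_pi_sub, Real.cos_pi_div_four]
  rw [Real.cos_abs] at h1
  linarith

/-- in a positive triangle no number is close to `-1` -/
lemma sg_re {x y z : ℂ} (h : Ok3 x y z) (H : Sg x y z) : -(Real.sqrt 2 / 2) < x.re := by
  unfold Sg at H
  rw [H, Complex.exp_ofReal_mul_I_re]
  exact cos_gt (al_lt h)

/-- a triangle with a number close to `1` is positive -/
lemma sg_of_re {x y z : ℂ} (h : Ok3 x y z) (H : Real.sqrt 2 / 2 ≤ x.re) : Sg x y z := by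
  rcases sg_or h with H' | H'
  · exact H'
  · exfalso
    rw [H', Complex.neg_re, Complex.exp_ofReal_mul_I_re] at H
    have := cos_gt (al_lt h)
    linarith

/-- a pair of elements violating the condition `Re (h v h w) > 0` -/
def Vi2 (h : Qd t c → ℂ) (v w : Qd t c) : Prop := (h v * h w).re ≤ 0

open scoped Classical in
/-- the violating pairs of determinant one -/
noncomputable def vio2 (h : Qd t c → ℂ) (X : ℝ) : Finset (Qd t c × Qd t c) :=
  (dedge t c X).filter (fun e => Vi2 h e.1 e.2)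

lemma mem_vio2 {h : Qd t c → ℂ} {X : ℝ} {e : Qd t c × Qd t c} :
    e ∈ vio2 h X ↔ (e.1 ∈ pball t c X ∧ e.2 ∈ pball t c X ∧ dt e.1 e.2 = 1) ∧ Vi2 h e.1 e.2 := by
  simp only [vio2, Finset.mem_filter, mem_dedge]

/-- a violation found by the Euclidean algorithm -/
def Fnd2 (h : Qd t c → ℂ) (v w : Qd t c) (a b : ℕ) : Prop :=
  ∃ p q r s : ℕ, p * s = q * r + 1 ∧ p ≤ a ∧ r ≤ a ∧ q ≤ b ∧ s ≤ b ∧
    Vi2 h (lc p q v w) (lc r s v w)

/-- the three pairs of a triangle -/
lemma fnd2_tri {h : Qd t c → ℂ} {v w : Qd t c} {a b : ℕ} (ha : 1 ≤ a) (hb : 1 ≤ b)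
    (H : Vi2 h v w ∨ Vi2 h v (v + w) ∨ Vi2 h (v + w) w) : Fnd2 h v w a b := by
  rcases H with H | H | H
  · refine ⟨1, 0, 0, 1, by norm_num, ha, by omega, by omega, hb, ?_⟩
    unfold lc
    simpa using H
  · refine ⟨1, 0, 1, 1, by norm_num, ha, ha, by omega, hb, ?_⟩
    unfold lc
    simpa using H
  · refine ⟨1, 1, 0, 1, by norm_num, ha, by omega, hb, hb, ?_⟩
    unfold lc
    simpa using H

lemma ok_tri {h : Qd t c → ℂ} (hh : Uf h) {v w : Qd t c} (n1 : ¬ Vi2 h v w)
    (n2 : ¬ Vi2 h v (v + w)) (n3 : ¬ Vi2 h (v + w) w) : Ok3 (h v) (h w) (h (v + w)) := by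
  unfold Vi2 at n1 n2 n3
  push Not at n1 n2 n3
  exact ⟨hh.nb v, hh.nb w, hh.nb (v + w), n1, n2, by rw [mul_comm]; exact n3⟩

theorem chain2 {h : Qd t c → ℂ} (hh : Uf h) : ∀ n : ℕ, ∀ a b : ℕ, a + b ≤ n → 1 ≤ a → 1 ≤ b →
    Nat.Coprime a b → ∀ v w : Qd t c,
    (Ok3 (h v) (h w) (h (v + w)) → Sg (h v) (h w) (h (v + w))) →
    (h (lc a b v w)).re ≤ -(Real.sqrt 2 / 2) → Fnd2 h v w a b := by
  intro n
  induction n with
  | zero => intro a b hab ha; omega
  | succ n ih =>
    intro a b hab ha hb hcop v w hp hneg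
    by_cases H : Vi2 h v w ∨ Vi2 h v (v + w) ∨ Vi2 h (v + w) w
    · exact fnd2_tri ha hb H
    · push Not at H
      obtain ⟨n1, n2, n3⟩ := H
      have hok := ok_tri hh n1 n2 n3
      have hS := hp hok
      rcases lt_trichotomy a b with hlt | heq | hgt
      · -- `b > a`: the pair `(v + w, w)`
        have e1 : lc a (b - a) (v + w) w = lc a b v w := by
          unfold lc
          rw [Nat.cast_sub hlt.le]
          ring
        obtain ⟨p, q, r, s, f1, f2, f3, f4, f5, f6⟩ := ih a (b - a) (by omega) ha (by omega)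
          (by rw [Nat.coprime_sub_self_right hlt.le]; exact hcop) (v + w) w (by
            intro hok'
            -- the triangles `(v+w, w, v)` and `(v+w, w, v+2w)`
            have k1 : Ok3 (h (v + w)) (h w) (h v) := hok.rot.swap.rot
            have k2 : Sg (h (v + w)) (h w) (h v) := sg_rot (sg_swap hok.rot (sg_rot hS))
            exact sg_adj k1 hok' k2) (by rw [e1]; exact hneg)
        have e2 : ∀ p q : ℕ, lc p q (v + w) w = lc p (p + q) v w := by
          intro p q
          unfold lc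
          push_cast
          ring
        rw [e2, e2] at f6
        refine ⟨p, p + q, r, r + s, ?_, f2, f3, by omega, by omega, f6⟩
        calc p * (r + s) = p * r + p * s := by ring
          _ = p * r + (q * r + 1) := by rw [f1]
          _ = (p + q) * r + 1 := by ring
      · -- `a = b = 1`
        have ha1 : a = 1 := by
          rw [← heq, Nat.coprime_self] at hcop
          exact hcop
        have hb1 : b = 1 := by omega
        rw [ha1, hb1] at hneg
        have e1 : lc 1 1 v w = v + w := by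
          unfold lc
          push_cast
          ring
        rw [e1] at hneg
        have k1 : Ok3 (h (v + w)) (h v) (h w) := hok.rot.swap
        have k2 : Sg (h (v + w)) (h v) (h w) := sg_swap hok.rot (sg_rot hS)
        have := sg_re k1 k2
        linarith
      · -- `a > b`: the pair `(v, v + w)`
        have e1 : lc (a - b) b v (v + w) = lc a b v w := by
          unfold lc
          rw [Nat.cast_sub hgt.le]
          ring
        obtain ⟨p, q, r, s, f1, f2, f3, f4, f5, f6⟩ := ih (a - b) b (by omega) (by omega) hb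
          (by rw [Nat.coprime_sub_self_left hgt.le]; exact hcop) v (v + w) (by
            intro hok'
            exact sg_adj hok.rot hok' (sg_rot hS)) (by rw [e1]; exact hneg)
        have e2 : ∀ p q : ℕ, lc p q v (v + w) = lc (p + q) q v w := by
          intro p q
          unfold lc
          push_cast
          ring
        rw [e2, e2] at f6
        refine ⟨p + q, q, r + s, s, ?_, by omega, by omega, f4, f5, f6⟩
        calc (p + q) * s = p * s + q * s := by ring
          _ = q * r + 1 + q * s := by rw [f1]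
          _ = q * (r + s) + 1 := by ring

/-- a pair of elements of different types with small determinant gives a violating pair -/
theorem near_vio2 (hD : t ^ 2 < 4 * c) {h : Qd t c → ℂ} (hh : Uf h) {X : ℝ} {D : ℕ} (hDp : 1 ≤ D)
    {z z' : Qd t c}
    (hz : z ∈ pball t c X) (hz' : z' ∈ pball t c X) (hd : 1 ≤ dt z z') (hdD : dt z z' ≤ D)
    (hp : Real.sqrt 2 / 2 ≤ (h z).re) (hn : (h z').re ≤ -(Real.sqrt 2 / 2)) :
    ∃ e ∈ vio2 h (6 * D ^ 2 * X), ∃ α β γ δ : ℤ, α ∈ Icc (-(2 * D ^ 2 : ℤ)) (2 * D ^ 2) ∧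
      β ∈ Icc (-(2 * D ^ 2 : ℤ)) (2 * D ^ 2) ∧ γ ∈ Icc (-(2 * D ^ 2 : ℤ)) (2 * D ^ 2) ∧
      δ ∈ Icc (-(2 * D ^ 2 : ℤ)) (2 * D ^ 2) ∧
      z = (α : Qd t c) * e.1 + (β : Qd t c) * e.2 ∧ z' = (γ : Qd t c) * e.1 + (δ : Qd t c) * e.2 := by
  have hzp := (mem_pball hD).1 hz
  have hzp' := (mem_pball hD).1 hz'
  have hX0 : 0 ≤ X := (Nat.cast_nonneg _).trans hzp.2
  obtain ⟨m, hm⟩ : ∃ m : ℕ, dt z z' = m := ⟨(dt z z').toNat, by omega⟩
  rw [hm] at hd hdD
  have hm1 : 1 ≤ m := by exact_mod_cast hd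
  have hmD : m ≤ D := by exact_mod_cast hdD
  obtain ⟨u0, hu0⟩ := exists_dt_one hzp.1
  have hzz : ∃ a : ℤ, z' = (a : Qd t c) * z + ((m : ℤ) : Qd t c) * u0 := by
    have h1 : dt z (z' - ((m : ℤ) : Qd t c) * u0) = 0 := by
      have : dt z (z' - ((m : ℤ) : Qd t c) * u0) = dt z z' - m * dt z u0 := by
        unfold dt; simp; ring
      rw [this, hu0, hm]; ring
    set q := z' - ((m : ℤ) : Qd t c) * u0 with hq
    unfold dt at hu0 h1
    set a := q.re * u0.im - q.im * u0.re with ha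
    refine ⟨a, ?_⟩
    have e1 : q.re = a * z.re := by rw [ha]; linear_combination (-q.re) * hu0 + u0.re * h1
    have e2 : q.im = a * z.im := by rw [ha]; linear_combination (-q.im) * hu0 + u0.im * h1
    have : q = (a : Qd t c) * z := by
      apply QuadraticAlgebra.ext
      · simp [e1]
      · simp [e2]
    rw [← this, hq]; ring
  obtain ⟨a0, ha0⟩ := hzz
  have hmpos : 0 < (m : ℤ) := by exact_mod_cast hm1
  obtain ⟨a, ha, ham⟩ : ∃ a : ℕ, (a : ℤ) = a0 % m ∧ a < m := by
    have h1 := Int.emod_nonneg a0 hmpos.ne'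
    have h2 := Int.emod_lt_of_pos a0 hmpos
    exact ⟨(a0 % m).toNat, by omega, by omega⟩
  obtain ⟨τ, hτ⟩ : ∃ τ : ℤ, a0 = a + m * τ := ⟨a0 / m, by rw [ha]; exact (Int.emod_add_mul_ediv _ _).symm⟩
  set u := u0 + (τ : Qd t c) * z with hu
  have hdu : dt z u = 1 := by
    have : dt z u = dt z u0 := by rw [hu]; unfold dt; simp; ring
    rw [this, hu0]
  have hup : prim u := (prim_of_dt hdu).2
  have hz'e : z' = lc a m z u := by
    unfold lc
    rw [ha0, hu, hτ]
    push_cast
    ring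
  -- coprimality
  have hcop : Nat.Coprime a m := by
    rw [Nat.coprime_iff_gcd_eq_one]
    set g := Nat.gcd a m with hg
    have g1 : (g : ℤ) ∣ a := by exact_mod_cast Nat.gcd_dvd_left a m
    have g2 : (g : ℤ) ∣ m := by exact_mod_cast Nat.gcd_dvd_right a m
    have hp' := hzp'.1
    unfold prim at hp'
    have k1 : (g : ℤ) ∣ z'.re := by
      rw [hz'e]
      unfold lc
      simp only [QuadraticAlgebra.re_add, QuadraticAlgebra.re_mul, QuadraticAlgebra.re_natCast,
        QuadraticAlgebra.im_natCast]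
      exact dvd_add (dvd_add (g1.mul_right _) (by simp)) (dvd_add (g2.mul_right _) (by simp))
    have k2 : (g : ℤ) ∣ z'.im := by
      rw [hz'e]
      unfold lc
      simp only [QuadraticAlgebra.im_add, QuadraticAlgebra.im_mul, QuadraticAlgebra.re_natCast,
        QuadraticAlgebra.im_natCast]
      have e2 := dvd_add (g1.mul_right z.im) (g2.mul_right u.im)
      simpa using e2
    have k3 := Int.dvd_coe_gcd k1 k2
    rw [hp'] at k3
    have : g ∣ 1 := by exact_mod_cast k3
    exact Nat.dvd_one.1 this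
  -- the norm of `u`
  have hnu : (nm u : ℝ) ≤ 2 * X := by
    have h1 : ((m : ℕ) : Qd t c) * u = z' + (-((a : ℕ) : Qd t c)) * z := by
      rw [hz'e]
      unfold lc
      ring
    have h2 := congrArg nm h1
    rw [nm_mul, nm_natCast] at h2
    have h3 := nm_add_le hD z' (-((a : ℕ) : Qd t c) * z)
    rw [← h2, nm_mul, nm_neg, nm_natCast] at h3
    push_cast at h3
    have hmR : (1 : ℝ) ≤ m := by exact_mod_cast hm1
    have h4 : (a : ℝ) ^ 2 + 1 ≤ (m : ℝ) ^ 2 := by
      have h5 : (a : ℝ) + 1 ≤ m := by exact_mod_cast ham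
      have h6 : (0 : ℝ) ≤ a := Nat.cast_nonneg _
      nlinarith
    have h5 : (a : ℝ) ^ 2 * nm z ≤ (a : ℝ) ^ 2 * X :=
      mul_le_mul_of_nonneg_left hzp.2 (by positivity)
    have h6 : (m : ℝ) ^ 2 * nm u ≤ (m : ℝ) ^ 2 * (2 * X) := by
      calc (m : ℝ) ^ 2 * nm u ≤ 2 * (nm z' + a ^ 2 * nm z) := h3
        _ ≤ 2 * (X + a ^ 2 * X) := by linarith [hzp'.2]
        _ = (a ^ 2 + 1) * (2 * X) := by ring
        _ ≤ (m : ℝ) ^ 2 * (2 * X) := mul_le_mul_of_nonneg_right h4 (by linarith)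
    exact le_of_mul_le_mul_left h6 (by positivity)
  -- the violating pair
  have hFnd : ∃ p q r s : ℕ, p * s = q * r + 1 ∧ p ≤ D ∧ r ≤ D ∧ q ≤ D ∧ s ≤ D ∧
      Vi2 h (lc p q z u) (lc r s z u) := by
    rcases Nat.eq_zero_or_pos a with h0 | h0
    · rw [h0, Nat.coprime_zero_left] at hcop
      have hz'u : z' = u := by
        rw [hz'e, h0, hcop]
        unfold lc
        simp
      by_cases H : Vi2 h z u ∨ Vi2 h z (z + u) ∨ Vi2 h (z + u) u
      · obtain ⟨p, q, r, s, f1, f2, f3, f4, f5, f6⟩ := fnd2_tri hDp hDp H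
        exact ⟨p, q, r, s, f1, f2, f3, f4, f5, f6⟩
      · exfalso
        push Not at H
        obtain ⟨n1, n2, n3⟩ := H
        have hok := ok_tri hh n1 n2 n3
        have hS := sg_of_re hok hp
        have := sg_re hok.swap (sg_swap hok hS)
        rw [hz'u] at hn
        linarith
    · obtain ⟨p, q, r, s, f1, f2, f3, f4, f5, f6⟩ := chain2 hh (a + m) a m le_rfl h0 hm1 hcop z u
        (fun hok => sg_of_re hok hp) (by rw [← hz'e]; exact hn)
      exact ⟨p, q, r, s, f1, by omega, by omega, by omega, by omega, f6⟩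
  obtain ⟨p, q, r, s, f1, f2, f3, f4, f5, f6⟩ := hFnd
  have hdt := dt_lc p q r s z u f1 hdu
  have hpr := prim_of_dt hdt
  have hD1 : (1 : ℝ) ≤ D := by exact_mod_cast hDp
  have hnm : ∀ x y : ℕ, x ≤ D → y ≤ D → (nm (lc x y z u) : ℝ) ≤ 6 * D ^ 2 * X := by
    intro x y hx hy
    have hxR : (x : ℝ) ≤ D := by exact_mod_cast hx
    have hyR : (y : ℝ) ≤ D := by exact_mod_cast hy
    have g1 := nm_lc_le hD x y z u
    have g2 : (x : ℝ) ^ 2 * nm z ≤ (D : ℝ) ^ 2 * X :=
      mul_le_mul (pow_le_pow_left₀ (Nat.cast_nonneg _) hxR 2) hzp.2 (Nat.cast_nonneg _)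
        (by positivity)
    have g3 : (y : ℝ) ^ 2 * nm u ≤ (D : ℝ) ^ 2 * (2 * X) :=
      mul_le_mul (pow_le_pow_left₀ (Nat.cast_nonneg _) hyR 2) hnu (Nat.cast_nonneg _)
        (by positivity)
    linarith
  obtain ⟨i1, i2⟩ := lc_inv p q r s z u f1
  have hDZ : (1 : ℤ) ≤ D := by exact_mod_cast hDp
  have hpZ : (p : ℤ) ≤ D := by exact_mod_cast f2
  have hrZ : (r : ℤ) ≤ D := by exact_mod_cast f3
  have hqZ : (q : ℤ) ≤ D := by exact_mod_cast f4
  have hsZ : (s : ℤ) ≤ D := by exact_mod_cast f5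
  have haZ : (a : ℤ) ≤ D := by exact_mod_cast (ham.le.trans hmD)
  have hmZ : (m : ℤ) ≤ D := by exact_mod_cast hmD
  have hp0 : (0 : ℤ) ≤ p := by positivity
  have hq0 : (0 : ℤ) ≤ q := by positivity
  have hr0 : (0 : ℤ) ≤ r := by positivity
  have hs0 : (0 : ℤ) ≤ s := by positivity
  have ha0' : (0 : ℤ) ≤ a := by positivity
  have hm0' : (0 : ℤ) ≤ m := by positivity
  have hmulb : ∀ x y : ℤ, 0 ≤ x → x ≤ D → 0 ≤ y → y ≤ D → 0 ≤ x * y ∧ x * y ≤ (D : ℤ) ^ 2 := by
    intro x y h1 h2 h3 h4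
    refine ⟨mul_nonneg h1 h3, ?_⟩
    rw [sq]
    exact mul_le_mul h2 h4 h3 (by linarith)
  have hD2 : (D : ℤ) ≤ (D : ℤ) ^ 2 := by nlinarith
  refine ⟨(lc p q z u, lc r s z u), ?_, s, -q, a * s - m * r, -(a * q) + m * p, ?_, ?_, ?_, ?_,
    i1, ?_⟩
  · rw [mem_vio2]
    exact ⟨⟨(mem_pball hD).2 ⟨hpr.1, hnm p q f2 f4⟩, (mem_pball hD).2 ⟨hpr.2, hnm r s f3 f5⟩, hdt⟩, f6⟩
  · rw [mem_Icc]; constructor <;> linarith
  · rw [mem_Icc]; constructor <;> linarith
  · have k1 := hmulb a s ha0' haZ hs0 hsZ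
    have k2 := hmulb m r hm0' hmZ hr0 hrZ
    rw [mem_Icc]; constructor <;> linarith [k1.1, k1.2, k2.1, k2.2]
  · have k1 := hmulb a q ha0' haZ hq0 hqZ
    have k2 := hmulb m p hm0' hmZ hp0 hpZ
    rw [mem_Icc]; constructor <;> linarith [k1.1, k1.2, k2.1, k2.2]
  · have e1 : z' = ((a : ℕ) : Qd t c) * z + ((m : ℕ) : Qd t c) * u := by rw [hz'e]; rfl
    calc z' = ((a : ℕ) : Qd t c) * z + ((m : ℕ) : Qd t c) * u := e1
      _ = ((a : ℕ) : Qd t c) * (((s : ℤ) : Qd t c) * lc p q z u +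
            ((-(q : ℤ) : ℤ) : Qd t c) * lc r s z u) +
          ((m : ℕ) : Qd t c) * (((-(r : ℤ) : ℤ) : Qd t c) * lc p q z u +
            ((p : ℤ) : Qd t c) * lc r s z u) := by rw [← i1, ← i2]
      _ = _ := by push_cast; ring

theorem near_card2 (hD : t ^ 2 < 4 * c) {h : Qd t c → ℂ} (hh : Uf h) {X : ℝ} {D : ℕ} (hDp : 1 ≤ D)
    (S : Finset (Qd t c × Qd t c))
    (hS : ∀ e ∈ S, e.1 ∈ pball t c X ∧ e.2 ∈ pball t c X ∧ Real.sqrt 2 / 2 ≤ (h e.1).re ∧
      (h e.2).re ≤ -(Real.sqrt 2 / 2) ∧ |dt e.1 e.2| ≤ D) :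
    S.card ≤ (4 * D ^ 2 + 1) ^ 4 * (vio2 h (6 * D ^ 2 * X)).card := by
  classical
  have hs2 : 0 < Real.sqrt 2 / 2 := by positivity
  set I : Finset ℤ := Icc (-(2 * D ^ 2 : ℤ)) (2 * D ^ 2) with hI
  have hIc : I.card = 4 * D ^ 2 + 1 := by
    rw [hI, Int.card_Icc]
    have : (2 * (D : ℤ) ^ 2 + 1 - -(2 * (D : ℤ) ^ 2)) = ((4 * D ^ 2 + 1 : ℕ) : ℤ) := by
      push_cast; ring
    rw [this, Int.toNat_natCast]
  have hneg : ∀ x ∈ I, -x ∈ I := by
    intro x hx
    rw [hI, mem_Icc] at hx ⊢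
    omega
  have hsub : S ⊆ ((vio2 h (6 * D ^ 2 * X)) ×ˢ ((I ×ˢ I) ×ˢ (I ×ˢ I))).image cmb := by
    intro e he
    obtain ⟨h1, h2, h3, h4, h5⟩ := hS e he
    have hne : dt e.1 e.2 ≠ 0 := by
      intro h0
      have p1 := ((mem_pball hD).1 h1).1
      have p2 := ((mem_pball hD).1 h2).1
      rcases dt_zero p1 p2 h0 with g | g
      · rw [g] at h4; linarith
      · rw [g, hh.even] at h4; linarith
    have h5' := abs_le.1 h5
    rw [mem_image]
    rcases lt_or_gt_of_ne hne with hlt | hgt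
    · have e1 : dt e.1 (-e.2) = - dt e.1 e.2 := by
        unfold dt
        simp
        ring
      have h2' : -e.2 ∈ pball t c X := by
        rw [mem_pball hD] at h2 ⊢
        rw [prim_neg, nm_neg]
        exact h2
      obtain ⟨f, hf, α, β, γ, δ, k1, k2, k3, k4, k5, k6⟩ := near_vio2 hD hh hDp h1 h2'
        (by rw [e1]; omega) (by rw [e1]; omega) h3 (by rw [hh.even]; exact h4)
      refine ⟨(f, ((α, β), (-γ, -δ))), ?_, ?_⟩
      · simp only [mem_product]
        exact ⟨hf, ⟨k1, k2⟩, hneg γ k3, hneg δ k4⟩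
      · unfold cmb
        refine Prod.ext k5.symm ?_
        simp only
        push_cast
        linear_combination k6
    · obtain ⟨f, hf, α, β, γ, δ, k1, k2, k3, k4, k5, k6⟩ := near_vio2 hD hh hDp h1 h2
        (by omega) (by omega) h3 h4
      refine ⟨(f, ((α, β), (γ, δ))), ?_, ?_⟩
      · simp only [mem_product]
        exact ⟨hf, ⟨k1, k2⟩, k3, k4⟩
      · unfold cmb
        exact Prod.ext k5.symm k6.symm
  refine (card_le_card hsub).trans (card_image_le.trans (le_of_eq ?_))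
  rw [card_product, card_product, card_product, hIc]
  ring

end Pool.Agent.W80.GD
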