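import Pool.Agent.W80.GD.Pair
import Pool.Agent.W80.GD.Tri2

/-!
Project GD (helper80): the sum of the Fejer kernel over pairs of elements of different types,
second version (types with a gap).
-/

set_option autoImplicit false

namespace Pool.Agent.W80.GD

open Finset Filter
open Pool.Agent.H376R2.MR
open Pool.Agent.W78.GA
open Pool.Agent.W803.GA (rd abs_rd_le rd_eq Fj_rd pt_bound sin_add_two_pi_mul sqrt_disc dt_eq_sin
  dt_zero)

variable {t c : ℤ}

open scoped Classical in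
theorem pair_le2 (hD : t ^ 2 < 4 * c) (hS : S_SECT t c) (hL : S_LAT t c) : ∃ C : ℝ, 0 < C ∧
    ∀ (h : Qd t c → ℂ), Uf h → ∀ (X T : ℝ) (K D : ℕ), 1 ≤ X → 1 ≤ T → 1 ≤ K → 1 ≤ D →
    2 * X * (T / K) ≤ D →
    ∑ z ∈ pball t c X, ∑ z' ∈ pball t c X,
      (if Real.sqrt 2 / 2 ≤ (h z).re ∧ (h z').re ≤ -(Real.sqrt 2 / 2) then Fj K (ang z - ang z') else 0) ≤
    K * ((4 * D ^ 2 + 1) ^ 4 * ((vio2 h (6 * D ^ 2 * X)).card : ℝ)) +
      C * (X ^ 2 / T + X * K / T ^ 2) := by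
  obtain ⟨C, hC, hfar⟩ := Pool.Agent.W80.GB.far_le hD hS hL
  refine ⟨C, hC, ?_⟩
  intro h hh X T K D hX hT hK hDp hTD
  have hK0 : (0 : ℝ) < K := by exact_mod_cast hK
  have hT0 : 0 < T := by linarith
  have hf := hfar X T K 1 hX hT hK ((one_le_nm hD).1 (by rw [nm_one]))
  simp only [one_mul] at hf
  have hpt : ∀ z ∈ pball t c X, ∀ z' ∈ pball t c X,
      (if Real.sqrt 2 / 2 ≤ (h z).re ∧ (h z').re ≤ -(Real.sqrt 2 / 2) then Fj K (ang z - ang z') else 0) ≤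
      (if (Real.sqrt 2 / 2 ≤ (h z).re ∧ (h z').re ≤ -(Real.sqrt 2 / 2)) ∧ |rd (ang z - ang z')| ≤ T / K then (K : ℝ) else 0) +
      ∑ j ∈ range (K + 2), (if |rd (ang z - ang z')| ≤ 2 ^ (j + 1) * T / K then
        Real.pi ^ 2 * K / (T ^ 2) * (1 / 4) ^ j else 0) := by
    intro z _ z' _
    have h1 := pt_bound hK hT (abs_rd_le (ang z - ang z'))
    have h2 : 0 ≤ ∑ j ∈ range (K + 2), (if |rd (ang z - ang z')| ≤ 2 ^ (j + 1) * T / K then
        Real.pi ^ 2 * K / (T ^ 2) * (1 / 4) ^ j else 0) := by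
      apply Finset.sum_nonneg
      intro j _
      split_ifs
      · positivity
      · exact le_rfl
    by_cases hg : Real.sqrt 2 / 2 ≤ (h z).re ∧ (h z').re ≤ -(Real.sqrt 2 / 2)
    · rw [if_pos hg, Fj_rd]
      refine h1.trans ?_
      apply add_le_add _ le_rfl
      by_cases hn : |rd (ang z - ang z')| ≤ T / K
      · rw [if_pos hn, if_pos ⟨hg, hn⟩]
      · rw [if_neg hn]
        split_ifs
        · positivity
        · exact le_rfl
    · rw [if_neg hg]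
      have : 0 ≤ (if (Real.sqrt 2 / 2 ≤ (h z).re ∧ (h z').re ≤ -(Real.sqrt 2 / 2)) ∧ |rd (ang z - ang z')| ≤ T / K then
          (K : ℝ) else 0) := by
        split_ifs
        · positivity
        · exact le_rfl
      linarith
  have hnear : ∑ z ∈ pball t c X, ∑ z' ∈ pball t c X,
      (if (Real.sqrt 2 / 2 ≤ (h z).re ∧ (h z').re ≤ -(Real.sqrt 2 / 2)) ∧ |rd (ang z - ang z')| ≤ T / K then (K : ℝ) else 0) ≤
      K * ((4 * D ^ 2 + 1) ^ 4 * ((vio2 h (6 * D ^ 2 * X)).card : ℝ)) := by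
    rw [← Finset.sum_product', ← Finset.sum_filter, Finset.sum_const, nsmul_eq_mul, mul_comm]
    apply mul_le_mul_of_nonneg_left _ hK0.le
    have hc := near_card2 hD hh (X := X) hDp ((pball t c X ×ˢ pball t c X).filter
      (fun p : Qd t c × Qd t c => (Real.sqrt 2 / 2 ≤ (h p.1).re ∧ (h p.2).re ≤ -(Real.sqrt 2 / 2)) ∧
        |rd (ang p.1 - ang p.2)| ≤ T / K)) (by
        intro e he
        rw [mem_filter, mem_product] at he
        obtain ⟨⟨h1, h2⟩, ⟨h3, h4⟩, h5⟩ := he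
        exact ⟨h1, h2, h3, h4, dt_of_close hD h1 h2 h5 hTD⟩)
    exact_mod_cast hc
  refine (Finset.sum_le_sum fun z hz => Finset.sum_le_sum fun z' hz' => hpt z hz z' hz').trans ?_
  simp only [Finset.sum_add_distrib] at hnear hf ⊢
  linarith

open scoped Classical in
/-- indicator of real part at least `1/√2` -/
noncomputable def fP2 (h : Qd t c → ℂ) (z : Qd t c) : ℝ := if Real.sqrt 2 / 2 ≤ (h z).re then 1 else 0

open scoped Classical in
/-- indicator of real part at most `-1/√2` -/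
noncomputable def fN2 (h : Qd t c → ℂ) (z : Qd t c) : ℝ :=
  if (h z).re ≤ -(Real.sqrt 2 / 2) then 1 else 0

/-- the weights of the two types cannot both be large if there are few violating pairs -/
theorem pn_le2 (hD : t ^ 2 < 4 * c) (hS : S_SECT t c) (hL : S_LAT t c) {h : Qd t c → ℂ} (hh : Uf h)
    (hP : S_MRg (fun z => ((fP2 h z : ℝ) : ℂ))) (hN : S_MRg (fun z => ((fN2 h z : ℝ) : ℂ)))
    {η : ℝ} (hη : 0 < η) {R : ℝ} (hR : 1 ≤ R) :
    ∃ ε : ℝ, 0 < ε ∧ ∃ C₁ : ℝ, 1 ≤ C₁ ∧ ∃ Y₀ : ℝ, 1 ≤ Y₀ ∧ ∀ Y : ℝ, Y₀ ≤ Y →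
      ((vio2 h (C₁ * Y)).card : ℝ) ≤ ε * Y → ∀ Y₁ Y₂ : ℝ, Y / R ≤ Y₁ → Y₁ ≤ Y → Y / R ≤ Y₂ →
      Y₂ ≤ Y → Wt (fP2 h) Y₁ * Wt (fN2 h) Y₂ ≤ η := by
  classical
  obtain ⟨C, hC, hpair⟩ := pair_le2 hD hS hL
  obtain ⟨a₁, ha₁, YP, hmP⟩ := hP (η / 4) (by positivity)
  obtain ⟨a₂, ha₂, YN, hmN⟩ := hN (η / 4) (by positivity)
  set a : ℝ := max a₁ a₂ with ha
  have ha1 : 1 ≤ a := ha₁.trans (le_max_left _ _)
  have ha0 : 0 < a := by linarith
  have hR0 : 0 < R := by linarith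
  set e : ℝ := Real.exp 1 with he
  have he0 : 0 < e := Real.exp_pos 1
  have he1 : 1 ≤ e := Real.one_le_exp zero_le_one
  set T : ℝ := 4 * (e ^ 2 * R ^ 2 * C * (e ^ 2 + e)) / η + 1 with hT
  have hT1 : 1 ≤ T := by
    rw [hT]
    have : 0 ≤ 4 * (e ^ 2 * R ^ 2 * C * (e ^ 2 + e)) / η := by positivity
    linarith
  have hT0 : 0 < T := by linarith
  obtain ⟨D, hDD⟩ := exists_nat_ge (4 * e * R * a * T + 1)
  have hD1 : 1 ≤ D := by
    have : (1 : ℝ) ≤ D := le_trans (by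
      have : 0 ≤ 4 * e * R * a * T := by positivity
      linarith) hDD
    exact_mod_cast this
  set L : ℝ := (4 * (D : ℝ) ^ 2 + 1) ^ 4 with hLdef
  have hL0 : 0 < L := by positivity
  have hDR : (1 : ℝ) ≤ D := by exact_mod_cast hD1
  refine ⟨η / (4 * (e ^ 2 * R ^ 2 * L)), by positivity, 6 * (D : ℝ) ^ 2 * e, ?_,
    max 1 (R * (|YP| + |YN| + 2 * a)), le_max_left _ _, ?_⟩
  · nlinarith [one_le_pow₀ hDR (n := 2)]
  intro Y hY hvio Y₁ Y₂ h1 h2 h3 h4
  have hY1 : 1 ≤ Y := (le_max_left _ _).trans hY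
  have hY0 : 0 < Y := by linarith
  have hYb : R * (|YP| + |YN| + 2 * a) ≤ Y := (le_max_right _ _).trans hY
  have hYR : |YP| + |YN| + 2 * a ≤ Y / R := by
    rw [le_div_iff₀ hR0]; linarith
  have hYR0 : 0 < Y / R := by positivity
  have hY₁0 : 0 < Y₁ := lt_of_lt_of_le hYR0 h1
  have hY₂0 : 0 < Y₂ := lt_of_lt_of_le hYR0 h3
  have hPY : YP ≤ Y₁ := by
    have := le_abs_self YP
    have := abs_nonneg YN
    linarith
  have hNY : YN ≤ Y₂ := by
    have := le_abs_self YN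
    have := abs_nonneg YP
    linarith
  set K : ℕ := ⌊Y / R / a⌋₊ with hK
  have hKa : 2 ≤ Y / R / a := by
    rw [le_div_iff₀ ha0]
    have := abs_nonneg YP
    have := abs_nonneg YN
    linarith
  have hK1 : (K : ℝ) ≤ Y / R / a := Nat.floor_le (by positivity)
  have hK2 : Y / R / a - 1 < K := Nat.sub_one_lt_floor _
  have hK3 : Y / (2 * R * a) ≤ K := by
    have : Y / (2 * R * a) = (Y / R / a) / 2 := by field_simp
    rw [this]
    linarith
  have hKpos : (0 : ℝ) < K := lt_of_lt_of_le (by positivity) hK3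
  have hKn : 1 ≤ K := by exact_mod_cast hKpos
  have hKY : (K : ℝ) ≤ Y := by
    refine hK1.trans ((div_le_self hYR0.le ha1).trans (div_le_self hY0.le hR))
  have hfl : ∀ Y' a' : ℝ, Y / R ≤ Y' → 1 ≤ a' → a' ≤ a → FK K ⊆ FK ⌊Y' / a'⌋₊ := by
    intro Y' a' hY' ha' haa
    apply FK_mono
    rw [hK]
    apply Nat.floor_mono
    exact div_le_div₀ (hYR0.le.trans hY') hY' (by linarith) haa
  have hm1 : ∑ k ∈ (FK K).erase 0, ‖GGg (fun z => ((fP2 h z : ℝ) : ℂ)) Y₁ k‖ ^ 2 ≤ η / 4 :=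
    (Finset.sum_le_sum_of_subset_of_nonneg (Finset.erase_subset_erase _
      (hfl Y₁ a₁ h1 ha₁ (le_max_left _ _))) (fun _ _ _ => by positivity)).trans (hmP Y₁ hPY)
  have hm2 : ∑ k ∈ (FK K).erase 0, ‖GGg (fun z => ((fN2 h z : ℝ) : ℂ)) Y₂ k‖ ^ 2 ≤ η / 4 :=
    (Finset.sum_le_sum_of_subset_of_nonneg (Finset.erase_subset_erase _
      (hfl Y₂ a₂ h3 ha₂ (le_max_right _ _))) (fun _ _ _ => by positivity)).trans (hmN Y₂ hNY)
  set X : ℝ := e * Y with hX
  have hX1 : 1 ≤ X := by rw [hX]; nlinarith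
  have hX0 : 0 < X := by linarith
  have hprod := prod_le hD (fP2 h) (fN2 h) hY₁0 hY₂0
    (mul_le_mul_of_nonneg_left h2 he0.le : Real.exp 1 * Y₁ ≤ X)
    (mul_le_mul_of_nonneg_left h4 he0.le : Real.exp 1 * Y₂ ≤ X) hKn hm1 hm2
  have hTD : 2 * X * (T / K) ≤ D := by
    have h5 : T / K ≤ T * (2 * R * a) / Y := by
      rw [div_le_div_iff₀ hKpos hY0]
      rw [div_le_iff₀ (by positivity)] at hK3
      nlinarith
    calc 2 * X * (T / K) ≤ 2 * X * (T * (2 * R * a) / Y) :=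
          mul_le_mul_of_nonneg_left h5 (by positivity)
      _ = 4 * e * R * a * T := by rw [hX]; field_simp; ring
      _ ≤ D := by linarith
  have hpr := hpair h hh X T K D hX1 hT1 hKn hD1 hTD
  have hXv : 6 * (D : ℝ) ^ 2 * X = 6 * (D : ℝ) ^ 2 * e * Y := by rw [hX]; ring
  rw [hXv] at hpr
  -- the sum with weights
  have hsum : ∑ z ∈ pball t c X, ∑ z' ∈ pball t c X,
      (fP2 h z * bg Y₁ z) * (fN2 h z' * bg Y₂ z') * Fj K (ang z - ang z') ≤
      (e * R / Y) ^ 2 * ∑ z ∈ pball t c X, ∑ z' ∈ pball t c X,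
        (if Real.sqrt 2 / 2 ≤ (h z).re ∧ (h z').re ≤ -(Real.sqrt 2 / 2) then Fj K (ang z - ang z') else 0) := by
    rw [Finset.mul_sum]
    refine Finset.sum_le_sum fun z hz => ?_
    rw [Finset.mul_sum]
    refine Finset.sum_le_sum fun z' hz' => ?_
    have hF := Fj_nonneg K (ang z - ang z')
    have hb1 : bg Y₁ z ≤ e * R / Y := by
      refine (bg_le' hD hY₁0 (pball_ne hD hz)).trans ?_
      rw [div_le_div_iff₀ hY₁0 hY0]
      rw [div_le_iff₀ hR0] at h1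
      nlinarith
    have hb2 : bg Y₂ z' ≤ e * R / Y := by
      refine (bg_le' hD hY₂0 (pball_ne hD hz')).trans ?_
      rw [div_le_div_iff₀ hY₂0 hY0]
      rw [div_le_iff₀ hR0] at h3
      nlinarith
    have hb10 := bg_nonneg Y₁ z
    have hb20 := bg_nonneg Y₂ z'
    unfold fP2 fN2
    by_cases g1 : Real.sqrt 2 / 2 ≤ (h z).re
    · by_cases g2 : (h z').re ≤ -(Real.sqrt 2 / 2)
      · rw [if_pos g1, if_pos g2, if_pos ⟨g1, g2⟩, one_mul, one_mul]
        apply mul_le_mul_of_nonneg_right _ hF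
        rw [sq]
        exact mul_le_mul hb1 hb2 hb20 (hb10.trans hb1)
      · simp [g2]
    · simp [g1]
  have hfinal : (e * R / Y) ^ 2 * (K * (L * ((vio2 h (6 * (D : ℝ) ^ 2 * e * Y)).card : ℝ)) +
      C * (X ^ 2 / T + X * K / T ^ 2)) ≤ η / 2 := by
    have g1 : (K : ℝ) * (L * ((vio2 h (6 * (D : ℝ) ^ 2 * e * Y)).card : ℝ)) ≤
        Y * (L * (η / (4 * (e ^ 2 * R ^ 2 * L)) * Y)) := by
      apply mul_le_mul hKY _ (by positivity) hY0.le
      exact mul_le_mul_of_nonneg_left hvio hL0.le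
    have g2 : X ^ 2 / T + X * K / T ^ 2 ≤ (e ^ 2 + e) * Y ^ 2 / T := by
      have g3 : X * K / T ^ 2 ≤ X * Y / T := by
        rw [div_le_div_iff₀ (by positivity) hT0]
        have g4 : X * K * T ≤ X * Y * T := by
          apply mul_le_mul_of_nonneg_right _ hT0.le
          exact mul_le_mul_of_nonneg_left hKY hX0.le
        have g5 : X * Y * T ≤ X * Y * T ^ 2 := by
          apply mul_le_mul_of_nonneg_left _ (by positivity)
          nlinarith
        linarith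
      calc X ^ 2 / T + X * K / T ^ 2 ≤ X ^ 2 / T + X * Y / T := by linarith
        _ = (e ^ 2 + e) * Y ^ 2 / T := by rw [hX]; ring
    have g3 : e ^ 2 * R ^ 2 * C * (e ^ 2 + e) / T ≤ η / 4 := by
      rw [div_le_iff₀ hT0, hT]
      have : 0 ≤ η / 4 := by positivity
      have e1 : η / 4 * (4 * (e ^ 2 * R ^ 2 * C * (e ^ 2 + e)) / η + 1) =
          e ^ 2 * R ^ 2 * C * (e ^ 2 + e) + η / 4 := by field_simp
      rw [e1]
      linarith
    calc (e * R / Y) ^ 2 * (K * (L * ((vio2 h (6 * (D : ℝ) ^ 2 * e * Y)).card : ℝ)) +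
          C * (X ^ 2 / T + X * K / T ^ 2))
        ≤ (e * R / Y) ^ 2 * (Y * (L * (η / (4 * (e ^ 2 * R ^ 2 * L)) * Y)) +
          C * ((e ^ 2 + e) * Y ^ 2 / T)) := by
          apply mul_le_mul_of_nonneg_left _ (by positivity)
          exact add_le_add g1 (mul_le_mul_of_nonneg_left g2 hC.le)
      _ = η / 4 + e ^ 2 * R ^ 2 * C * (e ^ 2 + e) / T := by
          field_simp
      _ ≤ η / 2 := by linarith
  have hc := mul_le_mul_of_nonneg_left hpr (by positivity : 0 ≤ (e * R / Y) ^ 2)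
  linarith

end Pool.Agent.W80.GD
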