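import Pool.Agent.W80.GD.MRAll
import Pool.Agent.W803.GA.Pair
import Pool.Agent.W78.GA.T1

/-!
Project GD (helper80): triangles of the Farey graph without violation, and the Euclidean algorithm.
-/

set_option autoImplicit false

namespace Pool.Agent.W80.GD

open Finset Filter
open Pool.Agent.W78.GA
open Pool.Agent.W803.GA (rd abs_rd_le rd_eq sin_add_two_pi_mul sqrt_disc dt_eq_sin dt_zero
  exists_dt_one)

variable {t c : ℤ}

lemma arg_bd {x : ℂ} (hx : ‖x‖ = 1) (h : 1 / 2 ≤ x.re) :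
    x = Complex.exp (Complex.arg x * Complex.I) ∧ |Complex.arg x| ≤ Real.pi / 3 := by
  have h1 : x = Complex.exp (Complex.arg x * Complex.I) := by
    have := Complex.norm_mul_exp_arg_mul_I x
    rw [hx, Complex.ofReal_one, one_mul] at this
    exact this.symm
  refine ⟨h1, ?_⟩
  by_contra hcon
  push Not at hcon
  have h2 : x.re = Real.cos (Complex.arg x) := by
    conv_lhs => rw [h1]
    rw [Complex.exp_ofReal_mul_I_re]
  have h3 : Real.cos |Complex.arg x| < Real.cos (Real.pi / 3) :=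
    Real.cos_lt_cos_of_nonneg_of_le_pi (by positivity) (Complex.abs_arg_le_pi x) hcon
  rw [Real.cos_abs, Real.cos_pi_div_three] at h3
  linarith

lemma cos_half {θ : ℝ} (h : |θ| ≤ Real.pi) : 0 ≤ Real.cos (θ / 2) ∧
    (Real.cos (θ / 2) = 0 → Real.pi ≤ θ ∨ θ ≤ -Real.pi) := by
  have hb := abs_le.1 h
  refine ⟨Real.cos_nonneg_of_mem_Icc ⟨by linarith, by linarith⟩, fun h0 => ?_⟩
  by_contra hcon
  push Not at hcon
  have := Real.cos_pos_of_mem_Ioo (x := θ / 2) ⟨by linarith, by linarith⟩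
  linarith

/-- three unit numbers with all products within `π/3` of `1` -/
theorem sgn_tri {x y z : ℂ} (hx : ‖x‖ = 1) (hy : ‖y‖ = 1) (hz : ‖z‖ = 1)
    (h1 : 1 / 2 ≤ (x * y).re) (h2 : 1 / 2 ≤ (x * z).re) (h3 : 1 / 2 ≤ (y * z).re) :
    ((0 ≤ x.re ∧ 0 ≤ y.re ∧ 0 ≤ z.re) ∨ (x.re ≤ 0 ∧ y.re ≤ 0 ∧ z.re ≤ 0)) ∧
      (x.re ≠ 0 ∨ y.re ≠ 0) ∧ (x.re ≠ 0 ∨ z.re ≠ 0) ∧ (y.re ≠ 0 ∨ z.re ≠ 0) := by
  have hpi := Real.pi_pos
  obtain ⟨e1, a1⟩ := arg_bd (x := x * y) (by rw [norm_mul, hx, hy, one_mul]) h1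
  obtain ⟨e2, a2⟩ := arg_bd (x := x * z) (by rw [norm_mul, hx, hz, one_mul]) h2
  obtain ⟨e3, a3⟩ := arg_bd (x := y * z) (by rw [norm_mul, hy, hz, one_mul]) h3
  set A := Complex.arg (x * y) with hA
  set B := Complex.arg (x * z) with hB
  set C := Complex.arg (y * z) with hC
  have b1 := abs_le.1 a1
  have b2 := abs_le.1 a2
  have b3 := abs_le.1 a3
  have hx0 : x ≠ 0 := by rintro rfl; rw [norm_zero] at hx; norm_num at hx
  have hy0 : y ≠ 0 := by rintro rfl; rw [norm_zero] at hy; norm_num at hy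
  have hz0 : z ≠ 0 := by rintro rfl; rw [norm_zero] at hz; norm_num at hz
  have hyz : y * z ≠ 0 := mul_ne_zero hy0 hz0
  set α : ℝ := (A + B - C) / 2 with hα
  set β : ℝ := (A + C - B) / 2 with hβ
  set γ : ℝ := (B + C - A) / 2 with hγ
  have hsq : x ^ 2 = Complex.exp (α * Complex.I) ^ 2 := by
    have h4 : x ^ 2 * (y * z) = (x * y) * (x * z) := by ring
    rw [e1, e2, e3, ← Complex.exp_add] at h4
    have h5 : Complex.exp (α * Complex.I) ^ 2 * Complex.exp (C * Complex.I) =
        Complex.exp (A * Complex.I + B * Complex.I) := by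
      rw [← Complex.exp_nat_mul, ← Complex.exp_add]
      congr 1
      rw [hα]
      push_cast
      ring
    rw [← h5] at h4
    exact mul_right_cancel₀ (Complex.exp_ne_zero _) h4
  have hx1 := sq_eq_sq_iff_eq_or_eq_neg.1 hsq
  have key : ∀ σ : ℂ, (σ = 1 ∨ σ = -1) → x = σ * Complex.exp (α * Complex.I) →
      y = σ * Complex.exp (β * Complex.I) ∧ z = σ * Complex.exp (γ * Complex.I) := by
    intro σ hσ hxσ
    have hσσ : σ * σ = 1 := by rcases hσ with rfl | rfl <;> norm_num
    constructor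
    · apply mul_left_cancel₀ hx0
      rw [e1, hxσ]
      have : σ * Complex.exp (α * Complex.I) * (σ * Complex.exp (β * Complex.I)) =
          (σ * σ) * (Complex.exp (α * Complex.I) * Complex.exp (β * Complex.I)) := by ring
      rw [this, hσσ, one_mul, ← Complex.exp_add]
      congr 1
      rw [hα, hβ]
      push_cast
      ring
    · apply mul_left_cancel₀ hx0
      rw [e2, hxσ]
      have : σ * Complex.exp (α * Complex.I) * (σ * Complex.exp (γ * Complex.I)) =
          (σ * σ) * (Complex.exp (α * Complex.I) * Complex.exp (γ * Complex.I)) := by ring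
      rw [this, hσσ, one_mul, ← Complex.exp_add]
      congr 1
      rw [hα, hγ]
      push_cast
      ring
  obtain ⟨c1, d1⟩ := cos_half (θ := A + B - C) (abs_le.2 ⟨by linarith, by linarith⟩)
  obtain ⟨c2, d2⟩ := cos_half (θ := A + C - B) (abs_le.2 ⟨by linarith, by linarith⟩)
  obtain ⟨c3, d3⟩ := cos_half (θ := B + C - A) (abs_le.2 ⟨by linarith, by linarith⟩)
  rw [← hα] at c1 d1
  rw [← hβ] at c2 d2
  rw [← hγ] at c3 d3
  have hxy : ¬(Real.cos α = 0 ∧ Real.cos β = 0) := by
    rintro ⟨u1, u2⟩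
    rcases d1 u1 with v1 | v1 <;> rcases d2 u2 with v2 | v2 <;> linarith
  have hxz : ¬(Real.cos α = 0 ∧ Real.cos γ = 0) := by
    rintro ⟨u1, u2⟩
    rcases d1 u1 with v1 | v1 <;> rcases d3 u2 with v2 | v2 <;> linarith
  have hyz' : ¬(Real.cos β = 0 ∧ Real.cos γ = 0) := by
    rintro ⟨u1, u2⟩
    rcases d2 u1 with v1 | v1 <;> rcases d3 u2 with v2 | v2 <;> linarith
  rcases hx1 with hx1 | hx1
  · obtain ⟨hy1, hz1⟩ := key 1 (Or.inl rfl) (by rw [one_mul]; exact hx1)
    rw [one_mul] at hy1 hz1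
    have r1 : x.re = Real.cos α := by rw [hx1, Complex.exp_ofReal_mul_I_re]
    have r2 : y.re = Real.cos β := by rw [hy1, Complex.exp_ofReal_mul_I_re]
    have r3 : z.re = Real.cos γ := by rw [hz1, Complex.exp_ofReal_mul_I_re]
    rw [r1, r2, r3]
    refine ⟨Or.inl ⟨c1, c2, c3⟩, ?_, ?_, ?_⟩
    · by_contra hcon; push Not at hcon; exact hxy hcon
    · by_contra hcon; push Not at hcon; exact hxz hcon
    · by_contra hcon; push Not at hcon; exact hyz' hcon
  · obtain ⟨hy1, hz1⟩ := key (-1) (Or.inr rfl) (by rw [hx1]; ring)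
    have r1 : x.re = -Real.cos α := by rw [hx1, Complex.neg_re, Complex.exp_ofReal_mul_I_re]
    have r2 : y.re = -Real.cos β := by
      rw [hy1, neg_one_mul, Complex.neg_re, Complex.exp_ofReal_mul_I_re]
    have r3 : z.re = -Real.cos γ := by
      rw [hz1, neg_one_mul, Complex.neg_re, Complex.exp_ofReal_mul_I_re]
    rw [r1, r2, r3]
    simp only [ne_eq, neg_eq_zero]
    refine ⟨Or.inr ⟨by linarith, by linarith, by linarith⟩, ?_, ?_, ?_⟩
    · by_contra hcon; push Not at hcon; exact hxy hcon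
    · by_contra hcon; push Not at hcon; exact hxz hcon
    · by_contra hcon; push Not at hcon; exact hyz' hcon

/-- coefficient functions with values on the unit circle -/
structure Uf (h : Qd t c → ℂ) : Prop where
  nb : ∀ z, ‖h z‖ = 1
  even : ∀ z, h (-z) = h z

/-- a pair of elements violating the condition `Re (h v h w) ≥ 1/2` -/
def Vi (h : Qd t c → ℂ) (v w : Qd t c) : Prop := (h v * h w).re < 1 / 2

lemma Vi.symm {h : Qd t c → ℂ} {v w : Qd t c} (H : Vi h v w) : Vi h w v := by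
  unfold Vi at *
  rwa [mul_comm]

open scoped Classical in
/-- the violating pairs of determinant one -/
noncomputable def vio (h : Qd t c → ℂ) (X : ℝ) : Finset (Qd t c × Qd t c) :=
  (dedge t c X).filter (fun e => Vi h e.1 e.2)

lemma mem_vio {h : Qd t c → ℂ} {X : ℝ} {e : Qd t c × Qd t c} :
    e ∈ vio h X ↔ (e.1 ∈ pball t c X ∧ e.2 ∈ pball t c X ∧ dt e.1 e.2 = 1) ∧ Vi h e.1 e.2 := by
  simp only [vio, Finset.mem_filter, mem_dedge]

/-- the element `p v + q w` -/
def lc (p q : ℕ) (v w : Qd t c) : Qd t c := (p : Qd t c) * v + (q : Qd t c) * w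

/-- a triangle without violation -/
lemma tri_ok {h : Qd t c → ℂ} (hh : Uf h) {v w : Qd t c} (n1 : ¬ Vi h v w)
    (n2 : ¬ Vi h v (v + w)) (n3 : ¬ Vi h (v + w) w) (hp : 0 < (h v).re ∨ 0 < (h w).re) :
    0 ≤ (h v).re ∧ 0 ≤ (h w).re ∧ 0 ≤ (h (v + w)).re ∧
      (0 < (h v).re ∨ 0 < (h (v + w)).re) ∧ (0 < (h (v + w)).re ∨ 0 < (h w).re) := by
  unfold Vi at n1 n2 n3
  push Not at n1 n2 n3
  rw [mul_comm (h (v + w))] at n3
  obtain ⟨h1, h2, h3, h4⟩ := sgn_tri (hh.nb v) (hh.nb w) (hh.nb (v + w)) n1 n2 n3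
  have h5 : 0 ≤ (h v).re ∧ 0 ≤ (h w).re ∧ 0 ≤ (h (v + w)).re := by
    rcases h1 with h1 | ⟨h5, h6, h7⟩
    · exact h1
    · exfalso
      rcases hp with hp | hp <;> linarith
  obtain ⟨h5, h6, h7⟩ := h5
  refine ⟨h5, h6, h7, ?_, ?_⟩
  · rcases h3 with h3 | h3
    · exact Or.inl (lt_of_le_of_ne h5 (Ne.symm h3))
    · exact Or.inr (lt_of_le_of_ne h7 (Ne.symm h3))
  · rcases h4 with h4 | h4
    · exact Or.inr (lt_of_le_of_ne h6 (Ne.symm h4))
    · exact Or.inl (lt_of_le_of_ne h7 (Ne.symm h4))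

/-- a violation found by the Euclidean algorithm -/
def Fnd (h : Qd t c → ℂ) (v w : Qd t c) (a b : ℕ) : Prop :=
  ∃ p q r s : ℕ, p * s = q * r + 1 ∧ p ≤ a ∧ r ≤ a ∧ q ≤ b ∧ s ≤ b ∧
    Vi h (lc p q v w) (lc r s v w)

/-- the three pairs of a triangle -/
lemma fnd_tri {h : Qd t c → ℂ} {v w : Qd t c} {a b : ℕ} (ha : 1 ≤ a) (hb : 1 ≤ b)
    (H : Vi h v w ∨ Vi h v (v + w) ∨ Vi h (v + w) w) : Fnd h v w a b := by
  rcases H with H | H | H
  · refine ⟨1, 0, 0, 1, by norm_num, ha, by omega, by omega, hb, ?_⟩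
    unfold lc
    simpa using H
  · refine ⟨1, 0, 1, 1, by norm_num, ha, ha, by omega, hb, ?_⟩
    unfold lc
    simpa using H
  · refine ⟨1, 1, 0, 1, by norm_num, ha, by omega, hb, hb, ?_⟩
    unfold lc
    simpa using H

theorem chain {h : Qd t c → ℂ} (hh : Uf h) : ∀ n : ℕ, ∀ a b : ℕ, a + b ≤ n → 1 ≤ a → 1 ≤ b →
    Nat.Coprime a b → ∀ v w : Qd t c, (0 < (h v).re ∨ 0 < (h w).re) →
    (h (lc a b v w)).re < 0 → Fnd h v w a b := by
  intro n
  induction n with
  | zero => intro a b hab ha; omega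
  | succ n ih =>
    intro a b hab ha hb hcop v w hp hneg
    by_cases H : Vi h v w ∨ Vi h v (v + w) ∨ Vi h (v + w) w
    · exact fnd_tri ha hb H
    · push Not at H
      obtain ⟨n1, n2, n3⟩ := H
      obtain ⟨h1, h2, h3, h4, h5⟩ := tri_ok hh n1 n2 n3 hp
      rcases lt_trichotomy a b with hlt | heq | hgt
      · -- `b > a`: the pair `(v + w, w)`
        have e1 : lc a (b - a) (v + w) w = lc a b v w := by
          unfold lc
          rw [Nat.cast_sub hlt.le]
          ring
        obtain ⟨p, q, r, s, f1, f2, f3, f4, f5, f6⟩ := ih a (b - a) (by omega) ha (by omega)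
          (by rw [Nat.coprime_sub_self_right hlt.le]; exact hcop) (v + w) w h5 (by rw [e1]; exact hneg)
        have e2 : ∀ p q : ℕ, lc p q (v + w) w = lc p (p + q) v w := by
          intro p q
          unfold lc
          push_cast
          ring
        rw [e2, e2] at f6
        refine ⟨p, p + q, r, r + s, ?_, f2, f3, by omega, by omega, f6⟩
        calc p * (r + s) = p * r + p * s := by ring
          _ = p * r + (q * r + 1) := by rw [f1]
          _ = (p + q) * r + 1 := by ring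
      · -- `a = b = 1`
        have ha1 : a = 1 := by
          rw [← heq, Nat.coprime_self] at hcop
          exact hcop
        have hb1 : b = 1 := by omega
        rw [ha1, hb1] at hneg
        have e1 : lc 1 1 v w = v + w := by
          unfold lc
          push_cast
          ring
        rw [e1] at hneg
        linarith
      · -- `a > b`: the pair `(v, v + w)`
        have e1 : lc (a - b) b v (v + w) = lc a b v w := by
          unfold lc
          rw [Nat.cast_sub hgt.le]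
          ring
        obtain ⟨p, q, r, s, f1, f2, f3, f4, f5, f6⟩ := ih (a - b) b (by omega) (by omega) hb
          (by rw [Nat.coprime_sub_self_left hgt.le]; exact hcop) v (v + w) h4 (by rw [e1]; exact hneg)
        have e2 : ∀ p q : ℕ, lc p q v (v + w) = lc (p + q) q v w := by
          intro p q
          unfold lc
          push_cast
          ring
        rw [e2, e2] at f6
        refine ⟨p + q, q, r + s, s, ?_, by omega, by omega, f4, f5, f6⟩
        calc (p + q) * s = p * s + q * s := by ring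
          _ = q * r + 1 + q * s := by rw [f1]
          _ = q * (r + s) + 1 := by ring

end Pool.Agent.W80.GD
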