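import Pool.Agent.W80.GD.Rec
import Pool.Agent.W240.GA.A0

/-!
Project GD (helper80): the elements of type zero, and a positive proportion of violating pairs.
-/

set_option autoImplicit false

namespace Pool.Agent.W80.GD

open Finset Filter
open Pool.Agent.H376R2.MR
open Pool.Agent.W78.GA
open Pool.Agent.W803.GA (exists_dt_one)

variable {t c : ℤ}

/-- a neighbour of norm comparable with the norm of `v` -/
lemma exists_nb (hD : t ^ 2 < 4 * c) {v : Qd t c} (hv : prim v) : ∃ w : Qd t c, dt v w = 1 ∧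
    2 * (nm v : ℤ) ≤ 2 * ip v w + t ∧ 2 * ip v w + t < 4 * (nm v : ℤ) := by
  obtain ⟨w0, hw0⟩ := exists_dt_one hv
  have hn : (0 : ℤ) < nm v := by exact_mod_cast nm_pos hD (prim_ne_zero hv)
  set x : ℤ := 2 * ip v w0 + t with hx
  set j : ℤ := -((x - 2 * nm v) / (2 * nm v)) with hj
  refine ⟨w0 + (j : Qd t c) * v, ?_, ?_, ?_⟩
  · have : dt v (w0 + (j : Qd t c) * v) = dt v w0 := by unfold dt; simp; ring
    rw [this, hw0]
  all_goals
    have e1 : ip v (w0 + (j : Qd t c) * v) = ip v w0 + j * nm v := by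
      rw [nm_cast hD]
      unfold ip
      simp
      ring
    rw [e1]
    have h1 := Int.emod_nonneg (x - 2 * nm v) (by omega : 2 * (nm v : ℤ) ≠ 0)
    have h2 := Int.emod_lt_of_pos (x - 2 * nm v) (by omega : 0 < 2 * (nm v : ℤ))
    have h3 := Int.emod_add_mul_ediv (x - 2 * nm v) (2 * nm v)
    have h4 : 2 * (ip v w0 + j * nm v) + t = (x - 2 * nm v) % (2 * nm v) + 2 * nm v := by
      rw [hj]
      linarith
    rw [h4]
    linarith

lemma nb_norm (hD : t ^ 2 < 4 * c) {v w : Qd t c} (hv : prim v) (h1 : dt v w = 1)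
    (h2 : 2 * (nm v : ℤ) ≤ 2 * ip v w + t) (h3 : 2 * ip v w + t < 4 * (nm v : ℤ)) :
    nm v ≤ nm w ∧ (nm w : ℝ) ≤ 4 * nm v + (4 * c - t ^ 2) ∧ 0 < 2 * ip v w + t ∧
      2 * ip v w + t < 2 * (nm w : ℤ) := by
  have hn : (0 : ℤ) < nm v := by exact_mod_cast nm_pos hD (prim_ne_zero hv)
  have h4 := ip_dt hD v w
  rw [h1] at h4
  have h5 : (2 * ip v w + t) ^ 2 + (4 * c - t ^ 2) = 4 * (nm v * nm w) := by
    rw [h4]; ring
  have hdisc : 0 < 4 * c - t ^ 2 := by linarith
  have h6 : (nm v : ℤ) < nm w := by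
    by_contra hcon
    push Not at hcon
    nlinarith
  have h7 : (nm w : ℤ) ≤ 4 * nm v + (4 * c - t ^ 2) := by
    by_contra hcon
    push Not at hcon
    have h8 : (2 * ip v w + t) ^ 2 < (4 * nm v) ^ 2 := by nlinarith
    nlinarith
  refine ⟨by exact_mod_cast h6.le, by exact_mod_cast h7, by linarith, ?_⟩
  by_contra hcon
  push Not at hcon
  nlinarith

lemma nb_inj (hD : t ^ 2 < 4 * c) {v v' w : Qd t c} (h1 : dt v w = 1) (h1' : dt v' w = 1)
    (h2 : 0 < 2 * ip v w + t) (h3 : 2 * ip v w + t < 2 * (nm w : ℤ))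
    (h2' : 0 < 2 * ip v' w + t) (h3' : 2 * ip v' w + t < 2 * (nm w : ℤ)) : v = v' := by
  -- `v' - v` is a multiple of `w`
  set q := v' - v with hq
  have hd : dt q w = 0 := by
    have : dt q w = dt v' w - dt v w := by rw [hq]; unfold dt; simp; ring
    rw [this, h1, h1']; ring
  have hw : prim w := (prim_of_dt h1).2
  obtain ⟨j, hj⟩ : ∃ j : ℤ, q = (j : Qd t c) * w := by
    have h4 : dt v w = 1 := h1
    unfold dt at h4 hd
    -- q = (q ∧ v ...) w
    refine ⟨v.re * q.im - v.im * q.re, ?_⟩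
    have e1 : q.re = (v.re * q.im - v.im * q.re) * w.re := by
      linear_combination (-q.re) * h4 + v.re * hd
    have e2 : q.im = (v.re * q.im - v.im * q.re) * w.im := by
      linear_combination (-q.im) * h4 + v.im * hd
    apply QuadraticAlgebra.ext
    · simp
      linarith
    · simp
      linarith
  have hip : ip v' w = ip v w + j * nm w := by
    have e1 : v' = v + (j : Qd t c) * w := by rw [← hj, hq]; ring
    rw [e1, nm_cast hD]
    unfold ip
    simp
    ring
  have hn : (0 : ℤ) < nm w := by exact_mod_cast nm_pos hD (prim_ne_zero hw)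
  have hj0 : j = 0 := by
    rw [hip] at h2' h3'
    by_contra hne
    rcases lt_or_gt_of_ne hne with h | h
    · have : j ≤ -1 := by omega
      nlinarith
    · have : 1 ≤ j := by omega
      nlinarith
  rw [hj0] at hj
  simp only [Int.cast_zero, zero_mul] at hj
  rw [hq, sub_eq_zero] at hj
  exact hj.symm

open scoped Classical in
/-- indicator of vanishing real part -/
noncomputable def fZ (h : Qd t c → ℂ) (z : Qd t c) : ℝ := if (h z).re = 0 then 1 else 0

lemma three (h : Qd t c → ℂ) (z : Qd t c) : fP h z + fN h z + fZ h z = 1 := by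
  unfold fP fN fZ
  rcases lt_trichotomy (h z).re 0 with h1 | h1 | h1
  · rw [if_neg (by linarith), if_pos h1, if_neg h1.ne]; norm_num
  · rw [if_neg (by linarith), if_neg (by linarith), if_pos h1]; norm_num
  · rw [if_pos h1, if_neg (by linarith), if_neg h1.ne']; norm_num

lemma vio_mono (hD : t ^ 2 < 4 * c) (h : Qd t c → ℂ) {X X' : ℝ} (hX : X ≤ X') :
    vio h X ⊆ vio h X' := by
  intro e he
  rw [mem_vio, mem_pball hD, mem_pball hD] at he ⊢
  exact ⟨⟨⟨he.1.1.1, he.1.1.2.trans hX⟩, ⟨he.1.2.1.1, he.1.2.1.2.trans hX⟩, he.1.2.2⟩, he.2⟩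

/-- the triangle of an element of type zero and a neighbour of type zero contains a violation -/
lemma zero_tri {h : Qd t c → ℂ} (hh : Uf h) {v w : Qd t c} (hv : (h v).re = 0)
    (hw : (h w).re = 0) : Vi h v w ∨ Vi h v (v + w) ∨ Vi h (v + w) w := by
  by_contra hcon
  push Not at hcon
  obtain ⟨n1, n2, n3⟩ := hcon
  unfold Vi at n1 n2 n3
  push Not at n1 n2 n3
  rw [mul_comm (h (v + w))] at n3
  obtain ⟨-, h2, -, -⟩ := sgn_tri (hh.nb v) (hh.nb w) (hh.nb (v + w)) n1 n2 n3
  rcases h2 with h2 | h2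
  · exact h2 hv
  · exact h2 hw

/-- the elements of type zero are bounded by the other elements and the violating pairs -/
theorem zero_card (hD : t ^ 2 < 4 * c) {h : Qd t c → ℂ} (hh : Uf h) {A B : ℝ} (hB : 4 * c - t ^ 2 ≤ B)
    (S : Finset (Qd t c)) (hS : ∀ z ∈ S, prim z ∧ A ≤ (nm z : ℝ) ∧ (nm z : ℝ) ≤ B ∧ (h z).re = 0) :
    (open scoped Classical in
    S.card ≤ ((pball t c (5 * B)).filter (fun z => A ≤ (nm z : ℝ) ∧ (h z).re ≠ 0)).card +
      2 * (vio h (12 * B)).card) := by
  classical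
  have hnb : ∀ v : Qd t c, ∃ w : Qd t c, prim v → dt v w = 1 ∧ nm v ≤ nm w ∧
      (nm w : ℝ) ≤ 4 * nm v + (4 * c - t ^ 2) ∧ 0 < 2 * ip v w + t ∧
      2 * ip v w + t < 2 * (nm w : ℤ) := by
    intro v
    by_cases hv : prim v
    · obtain ⟨w, h1, h2, h3⟩ := exists_nb hD hv
      exact ⟨w, fun _ => ⟨h1, nb_norm hD hv h1 h2 h3⟩⟩
    · exact ⟨0, fun h => absurd h hv⟩
  choose F hF using hnb
  set S1 := S.filter (fun v => (h (F v)).re ≠ 0) with hS1
  set S2 := S.filter (fun v => ¬ (h (F v)).re ≠ 0) with hS2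
  have hsplit : S1.card + S2.card = S.card := by
    rw [hS1, hS2]
    exact card_filter_add_card_filter_not _
  have hFS : ∀ v ∈ S, (nm (F v) : ℝ) ≤ 5 * B := by
    intro v hv
    obtain ⟨p1, p2, p3, p4⟩ := hS v hv
    obtain ⟨q1, q2, q3, q4, q5⟩ := hF v p1
    linarith
  have h1 : S1.card ≤ ((pball t c (5 * B)).filter (fun z => A ≤ (nm z : ℝ) ∧ (h z).re ≠ 0)).card := by
    refine card_le_card_of_injOn F ?_ ?_
    · intro v hv
      rw [hS1] at hv
      obtain ⟨hv1, hv2⟩ := mem_filter.1 (mem_coe.1 hv)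
      obtain ⟨p1, p2, p3, p4⟩ := hS v hv1
      obtain ⟨q1, q2, q3, q4, q5⟩ := hF v p1
      rw [mem_coe, mem_filter, mem_pball hD]
      refine ⟨⟨(prim_of_dt q1).2, hFS v hv1⟩, p2.trans (by exact_mod_cast q2), hv2⟩
    · intro v hv v' hv' he
      rw [hS1] at hv hv'
      have hv1 := (mem_filter.1 (mem_coe.1 hv)).1
      have hv1' := (mem_filter.1 (mem_coe.1 hv')).1
      obtain ⟨q1, q2, q3, q4, q5⟩ := hF v (hS v hv1).1
      obtain ⟨q1', q2', q3', q4', q5'⟩ := hF v' (hS v' hv1').1
      rw [← he] at q1' q4' q5'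
      exact nb_inj hD q1 q1' q4 q5 q4' q5'
  have h2 : S2.card ≤ 2 * (vio h (12 * B)).card := by
    set G : Qd t c → Qd t c × Qd t c := fun v =>
      if Vi h v (F v) then (v, F v) else if Vi h v (v + F v) then (v, v + F v) else
        (v + F v, F v) with hG
    refine card_le_mul_card_image_of_maps_to (f := G) ?_ 2 ?_
    · intro v hv
      rw [hS2] at hv
      obtain ⟨hv1, hv2⟩ := mem_filter.1 hv
      push Not at hv2
      obtain ⟨p1, p2, p3, p4⟩ := hS v hv1
      obtain ⟨q1, q2, q3, q4, q5⟩ := hF v p1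
      have r1 := hFS v hv1
      have hnn : (0 : ℝ) ≤ nm v := Nat.cast_nonneg _
      have r2 : (nm (v + F v) : ℝ) ≤ 12 * B := by
        have := nm_add_le hD v (F v)
        linarith
      have d1 : dt v (v + F v) = 1 := by rw [dt_add_right, q1]
      have d2 : dt (v + F v) (F v) = 1 := by rw [dt_add_left, q1]
      have b1 : v ∈ pball t c (12 * B) := (mem_pball hD).2 ⟨p1, by linarith⟩
      have b2 : F v ∈ pball t c (12 * B) := (mem_pball hD).2 ⟨(prim_of_dt q1).2, by linarith⟩
      have b3 : v + F v ∈ pball t c (12 * B) := (mem_pball hD).2 ⟨(prim_of_dt d1).2, r2⟩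
      have htri := zero_tri hh p4 hv2
      by_cases k1 : Vi h v (F v)
      · have : G v = (v, F v) := by rw [hG]; simp only [if_pos k1]
        rw [this, mem_vio]
        exact ⟨⟨b1, b2, q1⟩, k1⟩
      · by_cases k2 : Vi h v (v + F v)
        · have : G v = (v, v + F v) := by rw [hG]; simp only [if_neg k1, if_pos k2]
          rw [this, mem_vio]
          exact ⟨⟨b1, b3, d1⟩, k2⟩
        · have : G v = (v + F v, F v) := by rw [hG]; simp only [if_neg k1, if_neg k2]
          rw [this, mem_vio]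
          refine ⟨⟨b3, b2, d2⟩, ?_⟩
          rcases htri with k | k | k
          · exact absurd k k1
          · exact absurd k k2
          · exact k
    · intro e _
      have hsub : S2.filter (fun v => G v = e) ⊆ {e.1, e.1 - e.2} := by
        intro v hv
        obtain ⟨-, hv2⟩ := mem_filter.1 hv
        rw [mem_insert, mem_singleton]
        by_cases k1 : Vi h v (F v)
        · have : G v = (v, F v) := by rw [hG]; simp only [if_pos k1]
          left
          rw [← hv2, this]
        · by_cases k2 : Vi h v (v + F v)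
          · have : G v = (v, v + F v) := by rw [hG]; simp only [if_neg k1, if_pos k2]
            left
            rw [← hv2, this]
          · have : G v = (v + F v, F v) := by rw [hG]; simp only [if_neg k1, if_neg k2]
            right
            rw [← hv2, this]
            simp
      exact (card_le_card hsub).trans card_le_two
  omega

/-- the number of elements of the other types in terms of the weights -/
theorem other_card (hD : t ^ 2 < 4 * c) (h : Qd t c → ℂ) {Y η : ℝ} (hY : 0 < Y)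
    (hη : ∀ i : ℕ, i < 5 → Wt (fP h) (Y * Real.exp ((i : ℝ) - 1)) +
      Wt (fN h) (Y * Real.exp ((i : ℝ) - 1)) ≤ η) :
    (open scoped Classical in
    (((pball t c (5 * (Real.exp 1 * Y))).filter
      (fun z => Y / Real.exp 1 ≤ (nm z : ℝ) ∧ (h z).re ≠ 0)).card : ℝ)) ≤
      50 * Real.exp 1 * Y * η := by
  classical
  set e : ℝ := Real.exp 1 with he
  have he0 : 0 < e := Real.exp_pos 1
  set W := (pball t c (5 * (e * Y))).filter (fun z => Y / e ≤ (nm z : ℝ) ∧ (h z).re ≠ 0) with hW
  -- pointwise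
  have hpt : ∀ z ∈ W, 1 / (10 * e * Y) ≤ ∑ i ∈ range 5,
      (fP h z + fN h z) * bg (Y * Real.exp ((i : ℝ) - 1)) z := by
    intro z hz
    rw [hW, mem_filter, mem_pball hD] at hz
    obtain ⟨⟨hp, hz1⟩, hz2, hz3⟩ := hz
    have hN : (0 : ℝ) < nm z := nm_posR hD (prim_ne_zero hp)
    have hf : fP h z + fN h z = 1 := by
      have h3 := three h z
      have : fZ h z = 0 := by unfold fZ; rw [if_neg hz3]
      linarith
    -- the logarithm
    set x : ℝ := Real.log (nm z) - Real.log Y with hx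
    have hx1 : -1 ≤ x := by
      have := Real.log_le_log (by positivity) hz2
      rw [Real.log_div hY.ne' he0.ne', he, Real.log_exp] at this
      linarith
    have hx2 : x < 3 := by
      have h5 : (5 : ℝ) < Real.exp 2 := by
        have h6 : Real.exp 2 = Real.exp 1 * Real.exp 1 := by rw [← Real.exp_add]; norm_num
        have h7 := Real.exp_one_gt_d9
        rw [h6]; nlinarith
      have h6 : (nm z : ℝ) < Real.exp 3 * Y := by
        calc (nm z : ℝ) ≤ 5 * (e * Y) := hz1
          _ < Real.exp 2 * (e * Y) := mul_lt_mul_of_pos_right h5 (by positivity)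
          _ = Real.exp 3 * Y := by
              rw [he, ← mul_assoc, ← Real.exp_add]; norm_num
      have := Real.log_lt_log hN h6
      rw [Real.log_mul (Real.exp_pos 3).ne' hY.ne', Real.log_exp] at this
      linarith
    obtain ⟨i, hi, hi2⟩ : ∃ i : ℕ, i < 5 ∧ |x - ((i : ℝ) - 1)| ≤ 1 / 2 := by
      have key : ∀ y : ℝ, 0 ≤ y → y < 4 → ∃ i : ℕ, i < 5 ∧ |y - i| ≤ 1 / 2 := by
        intro y hy0 hy4
        refine ⟨⌊y + 1 / 2⌋₊, ?_, ?_⟩
        · rw [Nat.floor_lt (by linarith)]
          push_cast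
          linarith
        · have h1 := Nat.floor_le (by linarith : 0 ≤ y + 1 / 2)
          have h2 := Nat.lt_floor_add_one (y + 1 / 2)
          rw [abs_le]
          constructor <;> linarith
      obtain ⟨i, hi, hi2⟩ := key (x + 1) (by linarith) (by linarith)
      refine ⟨i, hi, ?_⟩
      have : x - ((i : ℝ) - 1) = x + 1 - i := by ring
      rw [this]
      exact hi2
    have hterm : 1 / (10 * e * Y) ≤ (fP h z + fN h z) * bg (Y * Real.exp ((i : ℝ) - 1)) z := by
      rw [hf, one_mul]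
      unfold bg w
      have h7 : Real.log (nm z) - Real.log (Y * Real.exp ((i : ℝ) - 1)) = x - ((i : ℝ) - 1) := by
        rw [Real.log_mul hY.ne' (Real.exp_pos _).ne', Real.log_exp, hx]; ring
      rw [h7]
      have h8 : 1 / 2 ≤ max 0 (1 - |x - ((i : ℝ) - 1)|) := by
        refine le_trans ?_ (le_max_right _ _)
        linarith
      calc 1 / (10 * e * Y) = (1 / 2) / (5 * (e * Y)) := by field_simp; ring
        _ ≤ (1 / 2) / nm z := div_le_div_of_nonneg_left (by norm_num) hN hz1
        _ ≤ _ := div_le_div_of_nonneg_right h8 hN.le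
    refine hterm.trans (Finset.single_le_sum (f := fun i : ℕ =>
      (fP h z + fN h z) * bg (Y * Real.exp ((i : ℝ) - 1)) z) (fun i _ => ?_) (mem_range.2 hi))
    exact mul_nonneg (add_nonneg (fP_nonneg h z) (fN_nonneg h z)) (bg_nonneg _ _)
  have h1 := Finset.sum_le_sum hpt
  rw [Finset.sum_const, nsmul_eq_mul, Finset.sum_comm] at h1
  have h2 : ∀ i ∈ range 5, ∑ z ∈ W, (fP h z + fN h z) * bg (Y * Real.exp ((i : ℝ) - 1)) z ≤ η := by
    intro i hi
    refine le_trans ?_ (hη i (mem_range.1 hi))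
    rw [← Wt_add]
    unfold Wt
    have hYi : 0 < Y * Real.exp ((i : ℝ) - 1) := by positivity
    rw [← Finset.sum_filter_add_sum_filter_not W
      (fun z => bg (Y * Real.exp ((i : ℝ) - 1)) z ≠ 0)]
    have h3 : ∑ z ∈ W.filter (fun z => ¬ bg (Y * Real.exp ((i : ℝ) - 1)) z ≠ 0),
        (fP h z + fN h z) * bg (Y * Real.exp ((i : ℝ) - 1)) z = 0 := by
      refine Finset.sum_eq_zero fun z hz => ?_
      have := (mem_filter.1 hz).2
      push Not at this
      rw [this, mul_zero]
    rw [h3, add_zero]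
    refine Finset.sum_le_sum_of_subset_of_nonneg ?_ ?_
    · intro z hz
      obtain ⟨hz1, hz2⟩ := mem_filter.1 hz
      rw [hW, mem_filter, mem_pball hD] at hz1
      exact (mem_pball hD).2 ⟨hz1.1.1, (bg_ne hD hYi (prim_ne_zero hz1.1.1) hz2).2⟩
    · intro z _ _
      exact mul_nonneg (add_nonneg (fP_nonneg h z) (fN_nonneg h z)) (bg_nonneg _ _)
  have h3 := Finset.sum_le_sum h2
  rw [Finset.sum_const, card_range, nsmul_eq_mul] at h3
  have h4 : (W.card : ℝ) * (1 / (10 * e * Y)) ≤ 5 * η := by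
    refine h1.trans (h3.trans (le_of_eq (by norm_num)))
  rw [mul_one_div, div_le_iff₀ (by positivity)] at h4
  calc (W.card : ℝ) ≤ 5 * η * (10 * e * Y) := h4
    _ = 50 * e * Y * η := by ring

/-- a positive proportion of the pairs of determinant one is violating -/
theorem vio_many (hD : t ^ 2 < 4 * c) {b κ : ℂ} (hb : ‖b‖ = 1)
    (hκ : ‖κ‖ = 1) {k : ℕ} (hk : 0 < k) (hbk : b ^ k = 1) (hb2 : b ^ 2 ≠ 1) :
    ∃ ε : ℝ, 0 < ε ∧ ∃ X₀ : ℝ, ∀ X : ℝ, X₀ ≤ X →
      ε * X ≤ ((vio (fun z : Qd t c => κ * gb b z) X).card : ℝ) := by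
  classical
  set h : Qd t c → ℂ := fun z => κ * gb b z with hh
  have hU : Uf h := uf_gb hb hκ
  obtain ⟨c₀, hc₀, YA, hA0⟩ := Pool.Agent.W240.GA.A0.a0_of hD (lat_all hD)
  set e : ℝ := Real.exp 1 with he
  have he0 : 0 < e := Real.exp_pos 1
  have he1 : 1 ≤ e := Real.one_le_exp zero_le_one
  have he27 : 2 < e := by have := Real.exp_one_gt_d9; rw [he]; linarith
  set η : ℝ := c₀ / (400 * e ^ 2) with hη
  have hη0 : 0 < η := by positivity
  obtain ⟨ε, hε, C₁, hC₁, Y₀, hY₀, hboth⟩ := both_small hD (Pool.Agent.W803.GA.sect hD) hb hκ hk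
    hbk hb2 (R₁ := Real.exp 4) (Real.one_le_exp (by norm_num)) hη0
  set ε' : ℝ := min ε (c₀ / (16 * e * Real.exp 3)) with hε'
  have hε'0 : 0 < ε' := lt_min hε (by positivity)
  set C₂ : ℝ := max C₁ (12 * e) with hC₂
  have hC₂0 : 0 < C₂ := lt_of_lt_of_le (by positivity) (le_max_right _ _)
  refine ⟨ε' / C₂, by positivity,
    C₂ * (Real.exp 3 * (max YA 0 + Y₀ + (4 * c - t ^ 2) + 1)), fun X hX => ?_⟩
  by_contra hcon
  push Not at hcon
  set Y : ℝ := X / C₂ with hYdef
  have hdisc : (0 : ℝ) < 4 * c - t ^ 2 := by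
    have : (t : ℝ) ^ 2 < 4 * c := by exact_mod_cast hD
    linarith
  have hXY : X = C₂ * Y := by rw [hYdef]; field_simp
  have hmax0 : 0 ≤ max YA 0 := le_max_right _ _
  have hYbig : Real.exp 3 * (max YA 0 + Y₀ + (4 * c - t ^ 2) + 1) ≤ Y := by
    rw [hYdef, le_div_iff₀ hC₂0]; linarith
  have he3 : 0 < Real.exp 3 := Real.exp_pos 3
  have he31 : 1 ≤ Real.exp 3 := Real.one_le_exp (by norm_num)
  set Yc : ℝ := Y / Real.exp 3 with hYc
  have hYcb : max YA 0 + Y₀ + (4 * c - t ^ 2) + 1 ≤ Yc := by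
    rw [hYc, le_div_iff₀ he3]; linarith
  have hYc1 : 1 ≤ Yc := by linarith
  have hYc0 : 0 < Yc := by linarith
  have hYY : Y = Real.exp 3 * Yc := by rw [hYc]; field_simp
  have hYcY : Yc ≤ Y := by rw [hYY]; nlinarith
  have hY0 : 0 < Y := by linarith
  have hvX : ((vio h X).card : ℝ) < ε' * Y := by
    have : ε' / C₂ * X = ε' * Y := by rw [hYdef]; ring
    linarith
  have hv1 : ((vio h (C₁ * Y)).card : ℝ) ≤ ε * Y := by
    have h1 : ((vio h (C₁ * Y)).card : ℝ) ≤ ((vio h X).card : ℝ) := by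
      have := card_le_card (vio_mono hD h (X := C₁ * Y) (X' := X) (by
        rw [hXY]
        exact mul_le_mul_of_nonneg_right (le_max_left _ _) hY0.le))
      exact_mod_cast this
    have h2 : ε' * Y ≤ ε * Y := mul_le_mul_of_nonneg_right (min_le_left _ _) hY0.le
    linarith
  have hb := hboth Y (by linarith) hv1
  -- the scales
  have hsc : ∀ i : ℕ, i < 5 → Y / Real.exp 4 ≤ Yc * Real.exp ((i : ℝ) - 1) ∧
      Yc * Real.exp ((i : ℝ) - 1) ≤ Y := by
    intro i hi
    have hiR : (i : ℝ) ≤ 4 := by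
      have : i ≤ 4 := by omega
      exact_mod_cast this
    have hi0 : (0 : ℝ) ≤ i := Nat.cast_nonneg _
    constructor
    · rw [hYY, div_le_iff₀ (Real.exp_pos 4)]
      have : Yc * Real.exp ((i : ℝ) - 1) * Real.exp 4 = Real.exp ((i : ℝ) - 1 + 4) * Yc := by
        rw [Real.exp_add]; ring
      rw [this]
      apply mul_le_mul_of_nonneg_right _ hYc0.le
      apply Real.exp_le_exp.2
      linarith
    · rw [hYY, mul_comm]
      apply mul_le_mul_of_nonneg_right _ hYc0.le
      apply Real.exp_le_exp.2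
      linarith
  have hother := other_card hD h hYc0 (η := η) (fun i hi => hb _ (hsc i hi).1 (hsc i hi).2)
  -- the elements of type zero at the central scale
  have hcen : Wt (fP h) Yc + Wt (fN h) Yc ≤ η := by
    have := hb (Yc * Real.exp (((1 : ℕ) : ℝ) - 1)) (hsc 1 (by norm_num)).1 (hsc 1 (by norm_num)).2
    simpa using this
  have hA := hA0 Yc (by
    have := le_max_left YA 0
    linarith)
  have hZ : c₀ / 2 ≤ Wt (fZ h) Yc := by
    have h1 : ∑ z ∈ pball t c (Real.exp 1 * Yc), bg Yc z =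
        Wt (fP h) Yc + Wt (fN h) Yc + Wt (fZ h) Yc := by
      rw [← Wt_add, ← Wt_add]
      unfold Wt
      refine sum_congr rfl fun z _ => ?_
      change bg Yc z = (fP h z + fN h z + fZ h z) * bg Yc z
      rw [three, one_mul]
    rw [h1] at hA
    have h2 : η ≤ c₀ / 2 := by
      rw [hη]
      apply div_le_div_of_nonneg_left hc₀.le (by norm_num)
      nlinarith
    linarith
  set S : Finset (Qd t c) := (pball t c (e * Yc)).filter
    (fun z => Yc / e ≤ (nm z : ℝ) ∧ (h z).re = 0) with hS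
  have hScard : c₀ * Yc / (2 * e) ≤ (S.card : ℝ) := by
    have h1 : Wt (fZ h) Yc ≤ (S.card : ℝ) * (e / Yc) := by
      unfold Wt
      have h2 : ∑ z ∈ pball t c (Real.exp 1 * Yc), fZ h z * bg Yc z =
          ∑ z ∈ S, fZ h z * bg Yc z := by
        symm
        rw [hS]
        refine Finset.sum_filter_of_ne fun z hz hne => ?_
        have hb0 : bg Yc z ≠ 0 := right_ne_zero_of_mul hne
        have hf0 : fZ h z ≠ 0 := left_ne_zero_of_mul hne
        refine ⟨(bg_ne hD hYc0 (pball_ne hD hz) hb0).1, ?_⟩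
        unfold fZ at hf0
        by_contra hcon
        rw [if_neg hcon] at hf0
        exact hf0 rfl
      rw [h2]
      calc ∑ z ∈ S, fZ h z * bg Yc z ≤ ∑ z ∈ S, e / Yc := by
            refine sum_le_sum fun z hz => ?_
            have hz1 := pball_ne hD (mem_filter.1 hz).1
            have h3 := bg_le' hD hYc0 hz1
            have h4 : fZ h z ≤ 1 := by unfold fZ; split_ifs <;> norm_num
            calc fZ h z * bg Yc z ≤ 1 * bg Yc z := mul_le_mul_of_nonneg_right h4 (bg_nonneg _ _)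
              _ ≤ e / Yc := by rw [one_mul]; exact h3
        _ = (S.card : ℝ) * (e / Yc) := by rw [sum_const, nsmul_eq_mul]
    have h2 := hZ.trans h1
    rw [mul_div_assoc', le_div_iff₀ hYc0] at h2
    rw [div_le_iff₀ (by positivity)]
    linarith
  have hzc := zero_card hD hU (A := Yc / e) (B := e * Yc) (by
    have h1 : Yc ≤ e * Yc := by nlinarith
    linarith) S (by
      intro z hz
      rw [hS, mem_filter, mem_pball hD] at hz
      exact ⟨hz.1.1, hz.2.1, hz.1.2, hz.2.2⟩)
  have hzcR : (S.card : ℝ) ≤ ((pball t c (5 * (e * Yc))).filter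
      (fun z => Yc / e ≤ (nm z : ℝ) ∧ (h z).re ≠ 0)).card + 2 * ((vio h (12 * (e * Yc))).card : ℝ) := by
    exact_mod_cast hzc
  have hv2 : ((vio h (12 * (e * Yc))).card : ℝ) ≤ ε' * Y := by
    have h1 : ((vio h (12 * (e * Yc))).card : ℝ) ≤ ((vio h X).card : ℝ) := by
      have := card_le_card (vio_mono hD h (X := 12 * (e * Yc)) (X' := X) (by
        rw [hXY]
        calc 12 * (e * Yc) = 12 * e * Yc := by ring
          _ ≤ C₂ * Y := mul_le_mul (le_max_right _ _) hYcY hYc0.le hC₂0.le))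
      exact_mod_cast this
    linarith
  have h5 : 50 * e * Yc * η = c₀ * Yc / (8 * e) := by
    rw [hη]; field_simp; ring
  have h6 : ε' * Y ≤ c₀ * Yc / (16 * e) := by
    calc ε' * Y ≤ c₀ / (16 * e * Real.exp 3) * Y :=
          mul_le_mul_of_nonneg_right (min_le_right _ _) hY0.le
      _ = c₀ * Yc / (16 * e) := by rw [hYY]; field_simp
  rw [h5] at hother
  have h7 : c₀ * Yc / (2 * e) ≤ c₀ * Yc / (8 * e) + 2 * (c₀ * Yc / (16 * e)) := by
    linarith
  have h8 : c₀ * Yc / (8 * e) + 2 * (c₀ * Yc / (16 * e)) = c₀ * Yc / (4 * e) := by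
    field_simp; ring
  rw [h8] at h7
  have h9 : c₀ * Yc / (4 * e) < c₀ * Yc / (2 * e) := by
    apply div_lt_div_of_pos_left (by positivity) (by positivity)
    linarith
  linarith

end Pool.Agent.W80.GD
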